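import Pool.Agent.R318.ST.Vec
import Pool.Agent.R318.ST.Avg

/-! # Equidistribution of vectors of independent integers modulo `m`, and the covariances -/

set_option autoImplicit false

namespace Pool.Agent.R318.TT

open Finset Filter Pool.Agent.R459.Eq Pool.Agent.R318.ST
open Pool.Agent.H807R2.Dav

/-- one coordinate is equidistributed modulo `m` up to `τ` -/
def Eqd (m : ℕ) (τ : ℝ) {ι : Type} (Ω : Finset ι) (w : ι → ℝ) (v : ι → ℤ) : Prop :=
  ∀ (g : ℤ → ℝ) (U : ℝ), 0 ≤ U → (∀ n, |g n| ≤ U) → Per m g → |∑ i ∈ Ω, w i * g (v i) - mean m g| ≤ τ * U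

lemma mean_smul (m : ℕ) (c : ℝ) (g : ℤ → ℝ) : mean m (fun t => c * g t) = c * mean m g := by
  unfold mean
  rw [← mul_sum, mul_div_assoc]

lemma eqd_one {ι : Type} (Ω : Finset ι) (w : ι → ℝ) (hw1 : ∑ i ∈ Ω, w i = 1) (v : ι → ℤ) (m : ℕ) (hm : 1 ≤ m) (τ : ℝ)
    (hτ0 : 0 ≤ τ) (hτ : ∀ a ∈ Ico 1 m, ‖∑ i ∈ Ω, (w i : ℂ) * ee ((v i : ℝ) * ((a : ℝ) / (m : ℝ)))‖ ≤ τ) (g : ℤ → ℝ)
    (hg : ∀ n, |g n| ≤ 1) (hper : Per m g) : |∑ i ∈ Ω, w i * g (v i) - mean m g| ≤ m * τ := by
  have h1 : ((∑ i ∈ Ω, w i * g (v i) - mean m g : ℝ) : ℂ) =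
      ∑ a ∈ Ico 1 m, co m g a * ∑ i ∈ Ω, (w i : ℂ) * ee ((v i : ℝ) * ((a : ℝ) / (m : ℝ))) := by
    have e1 : ∑ i ∈ Ω, w i * g (v i) - mean m g = ∑ i ∈ Ω, w i * (g (v i) - mean m g) := by
      simp only [mul_sub]
      rw [sum_sub_distrib, ← sum_mul, hw1, one_mul]
    rw [e1, Complex.ofReal_sum]
    simp only [mul_sum]
    rw [sum_comm]
    apply sum_congr rfl
    intro i _
    rw [Complex.ofReal_mul, centered m hm g hper (v i), mul_sum]
    apply sum_congr rfl
    intro a _
    have e2 : (a : ℝ) * ((v i : ℝ) / m) = (v i : ℝ) * ((a : ℝ) / m) := by ring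
    rw [e2]
    ring
  have h2 : |∑ i ∈ Ω, w i * g (v i) - mean m g| = ‖((∑ i ∈ Ω, w i * g (v i) - mean m g : ℝ) : ℂ)‖ := by
    rw [Complex.norm_real, Real.norm_eq_abs]
  rw [h2, h1]
  refine (norm_sum_le _ _).trans ?_
  refine (sum_le_card_nsmul _ _ τ fun a ha => ?_).trans ?_
  · rw [norm_mul]
    calc ‖co m g a‖ * _ ≤ 1 * τ := mul_le_mul (norm_co m hm g hg a) (hτ a ha) (norm_nonneg _) zero_le_one
      _ = τ := one_mul τ
  · rw [Nat.card_Ico, nsmul_eq_mul]
    exact mul_le_mul_of_nonneg_right (by exact_mod_cast Nat.sub_le _ _) hτ0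

lemma eqd_of {ι : Type} (Ω : Finset ι) (w : ι → ℝ) (hw1 : ∑ i ∈ Ω, w i = 1) (v : ι → ℤ) (m : ℕ) (hm : 1 ≤ m) (τ : ℝ)
    (hτ0 : 0 ≤ τ) (hτ : ∀ m' : ℕ, m' ∣ m → m' ≠ 1 → ∀ a : ℕ, Nat.Coprime a m' →
      ‖∑ i ∈ Ω, (w i : ℂ) * ee ((v i : ℝ) * ((a : ℝ) / (m' : ℝ)))‖ ≤ τ) : Eqd m (m * τ) Ω w v := by
  intro g U hU hg hper
  have hall : ∀ a ∈ Ico 1 m, ‖∑ i ∈ Ω, (w i : ℂ) * ee ((v i : ℝ) * ((a : ℝ) / (m : ℝ)))‖ ≤ τ := by
    intro a ha
    rw [mem_Ico] at ha
    obtain ⟨g, hgdef⟩ : ∃ g, g = Nat.gcd a m := ⟨_, rfl⟩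
    have hg0 : 0 < g := by rw [hgdef]; exact Nat.gcd_pos_of_pos_left _ (by omega)
    obtain ⟨a', ha'⟩ : g ∣ a := by rw [hgdef]; exact Nat.gcd_dvd_left _ _
    obtain ⟨m', hm'⟩ : g ∣ m := by rw [hgdef]; exact Nat.gcd_dvd_right _ _
    have hcop : Nat.Coprime a' m' := by
      have h1 : Nat.gcd (g * a') (g * m') = g * Nat.gcd a' m' := Nat.gcd_mul_left _ _ _
      rw [← ha', ← hm', ← hgdef] at h1
      have h2 : g * 1 = g * Nat.gcd a' m' := by rw [mul_one]; exact h1
      exact (Nat.eq_of_mul_eq_mul_left hg0 h2).symm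
    have hne : m' ≠ 1 := by
      intro h
      rw [h, mul_one] at hm'
      rw [← hm'] at ha'
      have : 0 < a' := by
        rcases Nat.eq_zero_or_pos a' with h0 | h0
        · rw [h0, mul_zero] at ha'
          omega
        · exact h0
      have h3 : m * 1 ≤ m * a' := Nat.mul_le_mul_left _ this
      omega
    have hgr : (g : ℝ) ≠ 0 := by exact_mod_cast hg0.ne'
    have e : (a : ℝ) / (m : ℝ) = (a' : ℝ) / (m' : ℝ) := by
      rw [ha', hm']
      push_cast
      rw [mul_div_mul_left _ _ hgr]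
    rw [e]
    exact hτ m' ⟨g, by rw [hm']; ring⟩ hne a' hcop
  rcases hU.eq_or_lt with h0 | h0
  · have hg0 : ∀ n, g n = 0 := by
      intro n
      have := hg n
      rw [← h0] at this
      exact abs_eq_zero.1 (le_antisymm this (abs_nonneg _))
    have e1 : ∑ i ∈ Ω, w i * g (v i) = 0 := sum_eq_zero fun i _ => by rw [hg0, mul_zero]
    have e2 : mean m g = 0 := by
      unfold mean
      rw [sum_eq_zero fun i _ => hg0 _, zero_div]
    rw [e1, e2, ← h0]
    simp
  · have h1 := eqd_one Ω w hw1 v m hm τ hτ0 hall (fun t => U⁻¹ * g t) (by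
      intro n
      rw [abs_mul, abs_of_pos (inv_pos.2 h0), inv_mul_le_iff₀ h0, mul_one]
      exact hg n) (by
      intro a c hac
      show U⁻¹ * g a = U⁻¹ * g c
      rw [hper a c hac])
    rw [mean_smul] at h1
    have e : ∑ i ∈ Ω, w i * (U⁻¹ * g (v i)) - U⁻¹ * mean m g = U⁻¹ * (∑ i ∈ Ω, w i * g (v i) - mean m g) := by
      rw [mul_sub, mul_sum]
      congr 1
      apply sum_congr rfl
      intro i _
      ring
    rw [e, abs_mul, abs_of_pos (inv_pos.2 h0), inv_mul_le_iff₀ h0] at h1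
    linarith

/-- all coordinates -/
theorem eqdV (m : ℕ) (τ : ℝ) (hm : 1 ≤ m) : ∀ (d : ℕ) (ι : Type) (Ω : Fin d → Finset ι) (w : Fin d → ι → ℝ)
    (v : Fin d → ι → ℤ), (∀ j, (∀ i ∈ Ω j, 0 ≤ w j i) ∧ ∑ i ∈ Ω j, w j i = 1) → (∀ j, Eqd m τ (Ω j) (w j) (v j)) →
    ∀ (g : (Fin d → ℤ) → ℝ) (U : ℝ), 0 ≤ U → (∀ n, |g n| ≤ U) → PerV d m g →
    |∑ i ∈ Fintype.piFinset Ω, (∏ j, w j (i j)) * g (fun j => v j (i j)) - meanV d m g| ≤ d * τ * U := by
  classical
  intro d
  induction d with
  | zero =>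
    intro ι Ω w v _ _ g U _ _ _
    have h0 : Fintype.piFinset Ω = {Fin.elim0} := by
      ext t
      rw [Fintype.mem_piFinset, mem_singleton]
      constructor
      · intro _
        ext j
        exact j.elim0
      · intro _ j
        exact j.elim0
    rw [h0, sum_singleton, meanV_zero m g (fun j => v j (Fin.elim0 j))]
    simp
  | succ d ih =>
    intro ι Ω w v hw he g U hU hg hper
    have hw0 : ∀ i ∈ Fintype.piFinset (fun j : Fin d => Ω j.succ), 0 ≤ ∏ j : Fin d, w j.succ (i j) := by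
      intro i hi
      rw [Fintype.mem_piFinset] at hi
      exact prod_nonneg fun j _ => (hw j.succ).1 _ (hi j)
    have hwsum : ∑ i ∈ Fintype.piFinset (fun j : Fin d => Ω j.succ), ∏ j : Fin d, w j.succ (i j) = 1 := by
      rw [← Finset.prod_univ_sum (fun j : Fin d => Ω j.succ) (fun j a => w j.succ a)]
      apply prod_eq_one
      intro j _
      exact (hw j.succ).2
    obtain ⟨h, hh⟩ : ∃ h : (Fin d → ℤ) → ℝ, h = fun u => mean m (fun t => g (Fin.cons t u)) := ⟨_, rfl⟩
    have hvec : ∀ (a : ι) (i : Fin d → ι), (fun j : Fin (d + 1) => v j ((Fin.cons a i : Fin (d + 1) → ι) j)) =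
        (Fin.cons (v 0 a) (fun j : Fin d => v j.succ (i j)) : Fin (d + 1) → ℤ) := by
      intro a i
      ext j
      refine Fin.cases ?_ (fun j => ?_) j
      · simp
      · simp
    have hprod : ∀ (a : ι) (i : Fin d → ι), ∏ j, w j ((Fin.cons a i : Fin (d + 1) → ι) j) =
        w 0 a * ∏ j : Fin d, w j.succ (i j) := by
      intro a i
      rw [Fin.prod_univ_succ]
      simp
    have e1 : ∑ i ∈ Fintype.piFinset Ω, (∏ j, w j (i j)) * g (fun j => v j (i j)) =
        ∑ i ∈ Fintype.piFinset (fun j : Fin d => Ω j.succ), (∏ j : Fin d, w j.succ (i j)) *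
          ∑ a ∈ Ω 0, w 0 a * g (Fin.cons (v 0 a) (fun j : Fin d => v j.succ (i j))) := by
      rw [sum_pi_succ, sum_comm]
      apply sum_congr rfl
      intro i _
      rw [mul_sum]
      apply sum_congr rfl
      intro a _
      rw [hprod, hvec]
      ring
    have e2 : meanV (d + 1) m g = meanV d m h := by rw [meanV_succ, hh]
    have hhU : ∀ n, |h n| ≤ U := by
      intro n
      rw [hh]
      have hm0 : (0 : ℝ) < m := by exact_mod_cast hm
      show |mean m _| ≤ U
      unfold mean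
      rw [abs_div, abs_of_pos hm0, div_le_iff₀ hm0]
      refine (abs_sum_le_sum_abs _ _).trans ((sum_le_card_nsmul _ _ U fun t _ => hg _).trans ?_)
      rw [card_range, nsmul_eq_mul]
      linarith
    have hhper : PerV d m h := by
      intro u u' huu
      rw [hh]
      have e : (fun t : ℤ => g (Fin.cons t u)) = (fun t : ℤ => g (Fin.cons t u')) := by
        funext t
        apply hper
        intro j
        refine Fin.cases ?_ (fun j => ?_) j
        · simp
        · simpa using huu j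
      show mean m (fun t => g (Fin.cons t u)) = mean m (fun t => g (Fin.cons t u'))
      rw [e]
    have h1 := ih ι (fun j => Ω j.succ) (fun j => w j.succ) (fun j => v j.succ) (fun j => hw j.succ) (fun j => he j.succ)
      h U hU hhU hhper
    have h2 : |∑ i ∈ Fintype.piFinset (fun j : Fin d => Ω j.succ), (∏ j : Fin d, w j.succ (i j)) *
          ∑ a ∈ Ω 0, w 0 a * g (Fin.cons (v 0 a) (fun j : Fin d => v j.succ (i j))) -
        ∑ i ∈ Fintype.piFinset (fun j : Fin d => Ω j.succ), (∏ j : Fin d, w j.succ (i j)) *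
          h (fun j => v j.succ (i j))| ≤ τ * U := by
      rw [← sum_sub_distrib]
      refine (abs_sum_le_sum_abs _ _).trans ?_
      calc _ ≤ ∑ i ∈ Fintype.piFinset (fun j : Fin d => Ω j.succ), (∏ j : Fin d, w j.succ (i j)) * (τ * U) := by
            apply sum_le_sum
            intro i hi
            rw [← mul_sub, abs_mul, abs_of_nonneg (hw0 i hi)]
            apply mul_le_mul_of_nonneg_left _ (hw0 i hi)
            rw [hh]
            apply he 0 (fun t => g (Fin.cons t (fun j : Fin d => v j.succ (i j)))) U hU (fun n => hg _)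
            intro a c hac
            apply hper
            intro j
            refine Fin.cases ?_ (fun j => ?_) j
            · simpa using hac
            · simp
        _ = τ * U := by rw [← sum_mul, hwsum, one_mul]
    rw [e1, e2]
    have h3 := abs_sub_le (∑ i ∈ Fintype.piFinset (fun j : Fin d => Ω j.succ), (∏ j : Fin d, w j.succ (i j)) *
          ∑ a ∈ Ω 0, w 0 a * g (Fin.cons (v 0 a) (fun j : Fin d => v j.succ (i j))))
          (∑ i ∈ Fintype.piFinset (fun j : Fin d => Ω j.succ), (∏ j : Fin d, w j.succ (i j)) *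
          h (fun j => v j.succ (i j))) (meanV d m h)
    push_cast
    linarith

/-- the Chinese remainder theorem -/
lemma mean_mul (p q : ℕ) (hp : 1 ≤ p) (hq : 1 ≤ q) (h : Nat.Coprime p q) (f g : ℤ → ℝ) (hf : Per p f) (hg : Per q g) :
    mean (p * q) (fun t => f t * g t) = mean p f * mean q g := by
  unfold mean
  rw [div_mul_div_comm, sum_mul_sum, ← sum_product']
  push_cast
  congr 1
  have hfe : ∀ t : ℕ, f (t : ℤ) = f ((t % p : ℕ) : ℤ) := by
    intro t
    apply hf
    push_cast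
    exact Int.dvd_self_sub_emod
  have hge : ∀ t : ℕ, g (t : ℤ) = g ((t % q : ℕ) : ℤ) := by
    intro t
    apply hg
    push_cast
    exact Int.dvd_self_sub_emod
  apply sum_nbij' (fun t => (t % p, t % q)) (fun z => (Nat.chineseRemainder h z.1 z.2 : ℕ))
  · intro t _
    rw [mem_product, mem_range, mem_range]
    exact ⟨Nat.mod_lt _ (by omega), Nat.mod_lt _ (by omega)⟩
  · intro z _
    rw [mem_range]
    exact Nat.chineseRemainder_lt_mul h _ _ (by omega) (by omega)
  · intro t ht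
    rw [mem_range] at ht
    have h1 : t ≡ (Nat.chineseRemainder h (t % p) (t % q) : ℕ) [MOD p * q] :=
      Nat.chineseRemainder_modEq_unique h (Nat.mod_modEq _ _).symm (Nat.mod_modEq _ _).symm
    have h2 : (Nat.chineseRemainder h (t % p) (t % q) : ℕ) < p * q :=
      Nat.chineseRemainder_lt_mul h _ _ (by omega) (by omega)
    exact (Nat.ModEq.eq_of_lt_of_lt h1 ht h2).symm
  · intro z hz
    rw [mem_product, mem_range, mem_range] at hz
    have h1 := (Nat.chineseRemainder h z.1 z.2).2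
    ext
    · exact Nat.ModEq.eq_of_lt_of_lt ((Nat.mod_modEq _ _).trans h1.1) (Nat.mod_lt _ (by omega)) hz.1
    · exact Nat.ModEq.eq_of_lt_of_lt ((Nat.mod_modEq _ _).trans h1.2) (Nat.mod_lt _ (by omega)) hz.2
  · intro t _
    rw [← hfe, ← hge]

lemma meanV_mul (p q : ℕ) (hp : 1 ≤ p) (hq : 1 ≤ q) (h : Nat.Coprime p q) : ∀ (d : ℕ) (f g : (Fin d → ℤ) → ℝ),
    PerV d p f → PerV d q g → meanV d (p * q) (fun t => f t * g t) = meanV d p f * meanV d q g := by
  intro d
  induction d with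
  | zero =>
    intro f g _ _
    rw [meanV_zero _ _ Fin.elim0, meanV_zero _ _ Fin.elim0, meanV_zero _ _ Fin.elim0]
  | succ d ih =>
    intro f g hf hg
    rw [meanV_succ, meanV_succ, meanV_succ]
    have hper : ∀ (n : ℕ) (f : (Fin (d + 1) → ℤ) → ℝ), PerV (d + 1) n f →
        PerV d n (fun u => mean n (fun t => f (Fin.cons t u))) := by
      intro n f hf u u' huu
      have e : (fun t : ℤ => f (Fin.cons t u)) = (fun t : ℤ => f (Fin.cons t u')) := by
        funext t
        apply hf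
        intro j
        refine Fin.cases ?_ (fun j => ?_) j
        · simp
        · simpa using huu j
      show mean n (fun t => f (Fin.cons t u)) = mean n (fun t => f (Fin.cons t u'))
      rw [e]
    rw [← ih _ _ (hper p f hf) (hper q g hg)]
    congr 1
    funext u
    apply mean_mul p q hp hq h (fun t => f (Fin.cons t u)) (fun t => g (Fin.cons t u))
    · intro a c hac
      apply hf
      intro j
      refine Fin.cases ?_ (fun j => ?_) j
      · simpa using hac
      · simp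
    · intro a c hac
      apply hg
      intro j
      refine Fin.cases ?_ (fun j => ?_) j
      · simpa using hac
      · simp

end Pool.Agent.R318.TT
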