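import Pool.Agent.R318.TT.A
import Pool.Agent.R459.Eq10

/-! # The maximum of the partial sums over the primes: second moments -/

set_option autoImplicit false

namespace Pool.Agent.R318.TT

open Finset Filter Pool.Agent.R459.Eq Pool.Agent.R318.ST Pool.Agent.R318.PR
open Pool.Agent.H807R2.Dav
open Pool.Agent.TH872.An (GG GG_pos)

/-- the indicator of a dyadic interval -/
def jj (l j p : ℕ) : ℝ := if j * 2 ^ l < p ∧ p ≤ (j + 1) * 2 ^ l then 1 else 0

lemma jj_nonneg (l j p : ℕ) : 0 ≤ jj l j p := by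
  unfold jj
  split_ifs <;> norm_num

lemma jj_le (l j p : ℕ) : jj l j p ≤ 1 := by
  unfold jj
  split_ifs <;> norm_num

lemma jj_sum (l N p : ℕ) : ∑ j ∈ range N, jj l j p ≤ 1 := by
  classical
  have h1 : ∀ j ∈ range N, jj l j p ≤ if (p - 1) / 2 ^ l = j then (1 : ℝ) else 0 := by
    intro j _
    unfold jj
    by_cases h : j * 2 ^ l < p ∧ p ≤ (j + 1) * 2 ^ l
    · rw [if_pos h, if_pos]
      apply Nat.div_eq_of_lt_le
      · omega
      · omega
    · rw [if_neg h]
      split_ifs <;> norm_num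
  refine (sum_le_sum h1).trans ?_
  rw [sum_ite_eq]
  split_ifs <;> norm_num

theorem sup_of {ι : Type} (Ω : Finset ι) (w : ι → ℝ) (L : ℕ) (P : Finset ℕ) (hP : ∀ p ∈ P, 1 ≤ p)
    (X : ℕ → ι → ℝ) (V : ℝ) (hV : ∑ p ∈ P, ∑ q ∈ P, |∑ i ∈ Ω, w i * (X p i * X q i)| ≤ V) :
    ∃ Q : ι → ℝ, (∀ i, 0 ≤ Q i) ∧ ∑ i ∈ Ω, w i * Q i ≤ ((L : ℝ) + 1) ^ 2 * V ∧
      ∀ i, ∀ t : ℕ, t ≤ 2 ^ L → (∑ p ∈ P.filter (fun p => p ≤ t), X p i) ^ 2 ≤ Q i := by
  classical
  obtain ⟨s, hs⟩ : ∃ s : ι → ℕ → ℝ, s = fun i t => ∑ p ∈ P.filter (fun p => p ≤ t), X p i := ⟨_, rfl⟩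
  have hs0 : ∀ i, s i 0 = 0 := by
    intro i
    rw [hs]
    apply sum_eq_zero
    intro p hp
    rw [mem_filter] at hp
    have := hP p hp.1
    omega
  have hcell : ∀ (i : ι) (l j : ℕ), s i ((j + 1) * 2 ^ l) - s i (j * 2 ^ l) = ∑ p ∈ P, jj l j p * X p i := by
    intro i l j
    rw [hs]
    show ∑ p ∈ P.filter _, X p i - ∑ p ∈ P.filter _, X p i = _
    rw [sum_filter, sum_filter, ← sum_sub_distrib]
    apply sum_congr rfl
    intro p _
    have h1 : j * 2 ^ l ≤ (j + 1) * 2 ^ l := Nat.mul_le_mul_right _ (by omega)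
    unfold jj
    generalize j * 2 ^ l = a at *
    generalize (j + 1) * 2 ^ l = a' at *
    by_cases k1 : p ≤ a
    · have k1' : p ≤ a' := by omega
      have k2 : ¬ (a < p ∧ p ≤ a') := by omega
      rw [if_pos k1, if_pos k1', if_neg k2]
      ring
    · by_cases k3 : p ≤ a'
      · have k2 : a < p ∧ p ≤ a' := by omega
        rw [if_neg k1, if_pos k3, if_pos k2]
        ring
      · have k2 : ¬ (a < p ∧ p ≤ a') := by omega
        rw [if_neg k1, if_neg k3, if_neg k2]
        ring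
  have hnn : ∀ i, 0 ≤ ∑ l ∈ range (L + 1), ∑ j ∈ range (2 ^ (L - l)), (s i ((j + 1) * 2 ^ l) - s i (j * 2 ^ l)) ^ 2 :=
    fun i => sum_nonneg fun l _ => sum_nonneg fun j _ => sq_nonneg _
  refine ⟨fun i => ((L : ℝ) + 1) * ∑ l ∈ range (L + 1), ∑ j ∈ range (2 ^ (L - l)),
    (s i ((j + 1) * 2 ^ l) - s i (j * 2 ^ l)) ^ 2, fun i => mul_nonneg (by positivity) (hnn i), ?_, ?_⟩
  · have h1 : ∀ l ∈ range (L + 1), ∑ j ∈ range (2 ^ (L - l)), ∑ i ∈ Ω, w i * (s i ((j + 1) * 2 ^ l) - s i (j * 2 ^ l)) ^ 2 ≤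
        ∑ p ∈ P, ∑ q ∈ P, |∑ i ∈ Ω, w i * (X p i * X q i)| := by
      intro l _
      have h2 : ∀ j ∈ range (2 ^ (L - l)), ∑ i ∈ Ω, w i * (s i ((j + 1) * 2 ^ l) - s i (j * 2 ^ l)) ^ 2 ≤
          ∑ p ∈ P, ∑ q ∈ P, jj l j p * |∑ i ∈ Ω, w i * (X p i * X q i)| := by
        intro j _
        have e1 : ∑ i ∈ Ω, w i * (s i ((j + 1) * 2 ^ l) - s i (j * 2 ^ l)) ^ 2 =
            ∑ p ∈ P, ∑ q ∈ P, jj l j p * jj l j q * ∑ i ∈ Ω, w i * (X p i * X q i) := by
          have e0 : ∀ i ∈ Ω, w i * (s i ((j + 1) * 2 ^ l) - s i (j * 2 ^ l)) ^ 2 =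
              ∑ p ∈ P, ∑ q ∈ P, jj l j p * jj l j q * (w i * (X p i * X q i)) := by
            intro i _
            rw [hcell, sq, sum_mul_sum, mul_sum]
            apply sum_congr rfl
            intro p _
            rw [mul_sum]
            apply sum_congr rfl
            intro q _
            ring
          rw [sum_congr rfl e0, sum_comm]
          apply sum_congr rfl
          intro p _
          rw [sum_comm]
          apply sum_congr rfl
          intro q _
          rw [mul_sum]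
        rw [e1]
        apply sum_le_sum
        intro p _
        apply sum_le_sum
        intro q _
        have h3 := jj_nonneg l j p
        have h4 := jj_nonneg l j q
        calc jj l j p * jj l j q * ∑ i ∈ Ω, w i * (X p i * X q i) ≤
              jj l j p * jj l j q * |∑ i ∈ Ω, w i * (X p i * X q i)| :=
              mul_le_mul_of_nonneg_left (le_abs_self _) (mul_nonneg h3 h4)
          _ ≤ jj l j p * 1 * |∑ i ∈ Ω, w i * (X p i * X q i)| := by
              apply mul_le_mul_of_nonneg_right _ (abs_nonneg _)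
              exact mul_le_mul_of_nonneg_left (jj_le l j q) h3
          _ = _ := by ring
      refine (sum_le_sum h2).trans ?_
      rw [sum_comm]
      apply sum_le_sum
      intro p _
      rw [sum_comm]
      apply sum_le_sum
      intro q _
      rw [← sum_mul]
      exact mul_le_of_le_one_left (abs_nonneg _) (jj_sum l _ p)
    have e1 : ∑ i ∈ Ω, w i * (((L : ℝ) + 1) * ∑ l ∈ range (L + 1), ∑ j ∈ range (2 ^ (L - l)),
        (s i ((j + 1) * 2 ^ l) - s i (j * 2 ^ l)) ^ 2) = ((L : ℝ) + 1) * ∑ l ∈ range (L + 1), ∑ j ∈ range (2 ^ (L - l)),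
        ∑ i ∈ Ω, w i * (s i ((j + 1) * 2 ^ l) - s i (j * 2 ^ l)) ^ 2 := by
      rw [mul_sum]
      simp only [mul_sum]
      rw [sum_comm]
      apply sum_congr rfl
      intro l _
      rw [sum_comm]
      apply sum_congr rfl
      intro j _
      apply sum_congr rfl
      intro i _
      ring
    rw [e1, sq, mul_assoc]
    apply mul_le_mul_of_nonneg_left _ (by positivity)
    refine (sum_le_card_nsmul _ _ V fun l hl => (h1 l hl).trans hV).trans ?_
    rw [card_range, nsmul_eq_mul]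
    push_cast
    exact le_rfl
  · intro i t ht
    have h1 := chain L (s i) t ht
    rw [hs0 i, sub_zero] at h1
    have e : s i t = ∑ p ∈ P.filter (fun p => p ≤ t), X p i := by rw [hs]
    rw [← e]
    exact h1

end Pool.Agent.R318.TT
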