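import Pool.Agent.R318.TT.B

/-! # The maximum of the partial sums over the primes for vectors of integers with independent digits -/

set_option autoImplicit false

namespace Pool.Agent.R318.TT

open Finset Filter Pool.Agent.R459.Eq Pool.Agent.R318.ST Pool.Agent.R318.PR
open Pool.Agent.H807R2.Dav
open Pool.Agent.TH872.An (GG GG_pos)

lemma Eqd.mono {m : ℕ} {τ τ' : ℝ} {ι : Type} {Ω : Finset ι} {w : ι → ℝ} {v : ι → ℤ} (h : Eqd m τ Ω w v) (hτ : τ ≤ τ') :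
    Eqd m τ' Ω w v := fun g U hU hg hper => (h g U hU hg hper).trans (mul_le_mul_of_nonneg_right hτ hU)

lemma meanV_nonneg (d p : ℕ) (f : (Fin d → ℤ) → ℝ) (h : ∀ n, 0 ≤ f n) : 0 ≤ meanV d p f :=
  div_nonneg (sum_nonneg fun _ _ => h _) (by positivity)

section
variable (d : ℕ) {ι : Type} (Ω : Fin d → Finset ι) (w : Fin d → ι → ℝ) (v : Fin d → ι → ℤ)
  (hw : ∀ j, (∀ i ∈ Ω j, 0 ≤ w j i) ∧ ∑ i ∈ Ω j, w j i = 1)

include hw in
lemma W_nonneg (i : Fin d → ι) (hi : i ∈ Fintype.piFinset Ω) : 0 ≤ ∏ j, w j (i j) := by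
  rw [Fintype.mem_piFinset] at hi
  exact prod_nonneg fun j _ => (hw j).1 _ (hi j)

include hw in
lemma W_sum : ∑ i ∈ Fintype.piFinset Ω, ∏ j, w j (i j) = 1 := by
  classical
  rw [← Finset.prod_univ_sum Ω w]
  exact prod_eq_one fun j _ => (hw j).2

include hw in
lemma cov_bd (p q : ℕ) (hp : 1 ≤ p) (hq : 1 ≤ q) (hpq : Nat.Coprime p q) (τ : ℝ)
    (he : ∀ j, Eqd (p * q) τ (Ω j) (w j) (v j)) (f g : (Fin d → ℤ) → ℝ) (U : ℝ) (hU : 0 ≤ U) (hf : ∀ n, |f n| ≤ U)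
    (hg : ∀ n, |g n| ≤ U) (hfp : PerV d p f) (hgp : PerV d q g) (hf0 : meanV d p f = 0) :
    |∑ i ∈ Fintype.piFinset Ω, (∏ j, w j (i j)) * (f (fun j => v j (i j)) * g (fun j => v j (i j)))| ≤ d * τ * U ^ 2 := by
  have h1 := eqdV (p * q) τ (Nat.mul_pos hp hq) d ι Ω w v hw he (fun n => f n * g n) (U ^ 2) (by positivity) (by
    intro n
    rw [abs_mul, sq]
    exact mul_le_mul (hf n) (hg n) (abs_nonneg _) hU) (by
    intro a c hac
    show f a * g a = f c * g c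
    rw [hfp a c (fun j => dvd_trans (by push_cast; exact dvd_mul_right _ _) (hac j)),
      hgp a c (fun j => dvd_trans (by push_cast; exact dvd_mul_left _ _) (hac j))])
  rw [meanV_mul p q hp hq hpq d f g hfp hgp, hf0, zero_mul, sub_zero] at h1
  exact h1

include hw in
open Classical in
theorem pairs (x : ℕ) (P : Finset ℕ) (hP : ∀ p ∈ P, p.Prime ∧ p ≤ x) (S : Set ℕ) (τ : ℝ) (hτ : 0 ≤ τ)
    (h1 : ∀ p ∈ P, ∀ j, Eqd p τ (Ω j) (w j) (v j))
    (h2 : ∀ p ∈ P, ∀ q ∈ P, p ≠ q → p * q ∉ S → ∀ j, Eqd (p * q) τ (Ω j) (w j) (v j))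
    (F : ℕ → (Fin d → ℤ) → ℝ) (U : ℝ) (hU : 0 ≤ U)
    (hF : ∀ p ∈ P, (∀ n, |F p n| ≤ U) ∧ PerV d p (F p) ∧ meanV d p (F p) = 0) :
    ∑ p ∈ P, ∑ q ∈ P, |∑ i ∈ Fintype.piFinset Ω, (∏ j, w j (i j)) * (F p (fun j => v j (i j)) * F q (fun j => v j (i j)))| ≤
      ∑ p ∈ P, meanV d p (fun n => F p n ^ 2) + 2 * (((Icc 1 (x ^ 2)).filter (fun m => m ∈ S)).card * U ^ 2) +
        (P.card : ℝ) ^ 2 * (d * τ * U ^ 2) := by
  have hW0 := W_nonneg d Ω w hw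
  have hW1 := W_sum d Ω w hw
  have hterm : ∀ p ∈ P, ∀ q ∈ P, |∑ i ∈ Fintype.piFinset Ω, (∏ j, w j (i j)) *
      (F p (fun j => v j (i j)) * F q (fun j => v j (i j)))| ≤
      (if p = q then meanV d p (fun n => F p n ^ 2) else 0) + (if p ≠ q ∧ p * q ∈ S then U ^ 2 else 0) + d * τ * U ^ 2 := by
    intro p hp q hq
    have hnn : 0 ≤ d * τ * U ^ 2 := by positivity
    by_cases hpq : p = q
    · subst hpq
      rw [if_pos rfl, if_neg (fun h => h.1 rfl), add_zero]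
      have h3 := eqdV p τ (hP p hp).1.one_le d ι Ω w v hw (h1 p hp) (fun n => F p n ^ 2) (U ^ 2) (by positivity) (by
        intro n
        rw [abs_of_nonneg (sq_nonneg _), ← sq_abs]
        exact pow_le_pow_left₀ (abs_nonneg _) ((hF p hp).1 n) 2) (by
        intro a c hac
        show F p a ^ 2 = F p c ^ 2
        rw [(hF p hp).2.1 a c hac])
      have h4 := meanV_nonneg d p (fun n => F p n ^ 2) (fun n => sq_nonneg _)
      have e : ∑ i ∈ Fintype.piFinset Ω, (∏ j, w j (i j)) * (F p (fun j => v j (i j)) * F p (fun j => v j (i j))) =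
          ∑ i ∈ Fintype.piFinset Ω, (∏ j, w j (i j)) * (F p (fun j => v j (i j))) ^ 2 :=
        sum_congr rfl fun i _ => by rw [sq]
      rw [e]
      have h5 := abs_le.1 h3
      rw [abs_le]
      constructor <;> linarith [h5.1, h5.2]
    · by_cases hin : p * q ∈ S
      · rw [if_neg hpq, if_pos ⟨hpq, hin⟩, zero_add]
        have h3 : |∑ i ∈ Fintype.piFinset Ω, (∏ j, w j (i j)) * (F p (fun j => v j (i j)) * F q (fun j => v j (i j)))| ≤
            U ^ 2 := by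
          refine (abs_sum_le_sum_abs _ _).trans ?_
          calc _ ≤ ∑ i ∈ Fintype.piFinset Ω, (∏ j, w j (i j)) * U ^ 2 := by
                apply sum_le_sum
                intro i hi
                rw [abs_mul, abs_of_nonneg (hW0 i hi), abs_mul, sq]
                apply mul_le_mul_of_nonneg_left _ (hW0 i hi)
                exact mul_le_mul ((hF p hp).1 _) ((hF q hq).1 _) (abs_nonneg _) hU
            _ = U ^ 2 := by rw [← sum_mul, hW1, one_mul]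
        linarith
      · rw [if_neg hpq, if_neg (fun h => hin h.2), zero_add, zero_add]
        exact cov_bd d Ω w v hw p q (hP p hp).1.one_le (hP q hq).1.one_le
          ((Nat.coprime_primes (hP p hp).1 (hP q hq).1).2 hpq) τ (h2 p hp q hq hpq hin) (F p) (F q) U hU (hF p hp).1
          (hF q hq).1 (hF p hp).2.1 (hF q hq).2.1 (hF p hp).2.2
  refine (sum_le_sum fun p hp => sum_le_sum fun q hq => hterm p hp q hq).trans ?_
  simp only [sum_add_distrib]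
  have e1 : ∑ p ∈ P, ∑ q ∈ P, (if p = q then meanV d p (fun n => F p n ^ 2) else (0 : ℝ)) =
      ∑ p ∈ P, meanV d p (fun n => F p n ^ 2) := sum_congr rfl fun p hp => by rw [sum_ite_eq, if_pos hp]
  have e2 : ∑ p ∈ P, ∑ q ∈ P, (d : ℝ) * τ * U ^ 2 = (P.card : ℝ) ^ 2 * (d * τ * U ^ 2) := by
    rw [sum_const, sum_const, nsmul_eq_mul, nsmul_eq_mul]
    ring
  have e3 := pairs_le x P hP S (fun _ => U ^ 2) (fun _ => by positivity)
  rw [sum_const, nsmul_eq_mul] at e3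
  rw [e1, e2]
  linarith

end

/-- vectors of integers with independent digits -/
theorem eng (b : ℕ) (hb : 2 ≤ b) (η : ℝ) (hη : 0 < η) (hη1 : η ≤ 1) (D : ℕ) (hD : 1 ≤ D) : ∃ W : ℕ, 1 ≤ W ∧
    ∀ (d : ℕ) (κ : Fin d → ℤ), (∀ j, κ j ≠ 0) → ∃ C : ℝ, 0 < C ∧ ∀ (k L : ℕ), b ≤ 2 ^ L → (2 ^ L) ^ W ≤ b ^ k →
    ∀ (c : Fin d → ℤ) (u : Fin d → ℕ → ℕ → ℝ), (∀ j, Dist b k η (u j)) →
    ∀ (F : ℕ → (Fin d → ℤ) → ℝ) (U : ℝ), 0 ≤ U →
    (∀ p ∈ GP b (2 ^ L), (∀ n, |F p n| ≤ U) ∧ PerV d p (F p) ∧ meanV d p (F p) = 0) →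
    ∃ Q : (Fin d → Fin k → ℕ) → ℝ, (∀ g, 0 ≤ Q g) ∧
      ∑ g ∈ Fintype.piFinset (fun _ : Fin d => arrays b k), (∏ j, wt (u j) (g j)) * Q g ≤
        C * ((L : ℝ) + 1) ^ 2 * (∑ p ∈ GP b (2 ^ L), meanV d p (fun n => F p n ^ 2) + U ^ 2 * ((2 : ℝ) ^ L) ^ (2 / (D : ℝ))) ∧
      ∀ g, ∀ t : ℕ, t ≤ 2 ^ L → (∑ p ∈ GP b t, F p (fun j => c j + κ j * (dval b (g j) : ℕ))) ^ 2 ≤ Q g := by
  classical
  obtain ⟨γ, hγ0, hγ1, hdec⟩ := dig_decays b hb η hη hη1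
  obtain ⟨W, hW, H⟩ := good b hb 1 γ hγ0 hγ1 D 4 hD
  refine ⟨W, hW, fun d κ hκ => ?_⟩
  choose S₁ C₁ hC₁ hcount₁ hgood₁ using fun j => H (GG b) (κ j) (GG_pos b hb) (hκ j)
  obtain ⟨S, hS⟩ : ∃ S : Set ℕ, S = {m | ∃ j, m ∈ S₁ j} := ⟨_, rfl⟩
  obtain ⟨C₂, hC₂⟩ : ∃ C₂ : ℝ, C₂ = ∑ j, C₁ j := ⟨_, rfl⟩
  have hC₂0 : 0 ≤ C₂ := by rw [hC₂]; exact sum_nonneg fun j _ => (hC₁ j).le
  have hcount : ∀ (M : ℕ) (T : Finset ℕ), (∀ m ∈ T, m ∈ S ∧ 1 ≤ m ∧ m ≤ M) → (T.card : ℝ) ≤ C₂ * (M : ℝ) ^ (1 / (D : ℝ)) := by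
    intro M T hT
    have h1 : T ⊆ (univ : Finset (Fin d)).biUnion (fun j => T.filter (fun m => m ∈ S₁ j)) := by
      intro m hm
      obtain ⟨j, hj⟩ : ∃ j, m ∈ S₁ j := by
        have := (hT m hm).1
        rw [hS] at this
        exact this
      rw [mem_biUnion]
      exact ⟨j, mem_univ _, mem_filter.2 ⟨hm, hj⟩⟩
    have h2 : (T.card : ℝ) ≤ ∑ j, ((T.filter (fun m => m ∈ S₁ j)).card : ℝ) := by
      exact_mod_cast (card_le_card h1).trans card_biUnion_le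
    refine h2.trans ?_
    rw [hC₂, sum_mul]
    apply sum_le_sum
    intro j _
    apply hcount₁ j M
    intro m hm
    rw [mem_filter] at hm
    exact ⟨hm.2, (hT m hm.1).2⟩
  refine ⟨2 * (2 * C₂ + d + 1) + 2 * C₂ ^ 2, by positivity, fun k L hbL hxW c u hu F U hU hF => ?_⟩
  obtain ⟨x, hx⟩ : ∃ x, x = 2 ^ L := ⟨_, rfl⟩
  have hx1 : 1 ≤ x := by rw [hx]; exact Nat.one_le_two_pow
  have hxr : (1 : ℝ) ≤ x := by exact_mod_cast hx1
  have hx0 : (0 : ℝ) < x := by linarith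
  have hxL : ((2 : ℝ) ^ L) = x := by rw [hx]; push_cast; rfl
  rw [← hx] at hbL hxW hF ⊢
  rw [hxL]
  have hGP : ∀ p ∈ GP b x, p.Prime ∧ p ≤ x ∧ ¬ p ∣ b := by
    intro p hp
    rw [mem_GP] at hp
    exact ⟨hp.2.1, hp.1, hp.2.2⟩
  obtain ⟨P, hPdef⟩ : ∃ P : Finset ℕ, P = (GP b x).filter (fun p => p ∉ S) := ⟨_, rfl⟩
  obtain ⟨B, hBdef⟩ : ∃ B : Finset ℕ, B = (GP b x).filter (fun p => p ∈ S) := ⟨_, rfl⟩
  have hP : ∀ p ∈ P, (p.Prime ∧ p ≤ x ∧ ¬ p ∣ b) ∧ p ∉ S := by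
    intro p hp
    rw [hPdef, mem_filter] at hp
    exact ⟨hGP p hp.1, hp.2⟩
  have hPG : P ⊆ GP b x := by rw [hPdef]; exact filter_subset _ _
  have hBG : B ⊆ GP b x := by rw [hBdef]; exact filter_subset _ _
  have hchar : ∀ j, ∀ m : ℕ, 1 ≤ m → m ≤ x ^ 4 → m ∉ S → Nat.Coprime b m → ∀ a : ℕ, Nat.Coprime a m →
      ‖∑ g ∈ arrays b k, (wt (u j) g : ℂ) * ee (((c j + κ j * (dval b g : ℕ) : ℤ) : ℝ) * ((a : ℝ) / (m : ℝ)))‖ ≤
        1 / (x : ℝ) ^ 4 := by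
    intro j m h1 h2 h3 h4 a ha
    refine hgood₁ j k x hbL hxW _ (arrays b k) (wt (u j)) _ (hdec k (u j) (hu j) (c j) (κ j)) m h1 h2 ?_ h4 a ha
    intro h
    apply h3
    rw [hS]
    exact ⟨j, h⟩
  obtain ⟨τ, hτ⟩ : ∃ τ : ℝ, τ = (x : ℝ) ^ 2 * (1 / (x : ℝ) ^ 4) := ⟨_, rfl⟩
  have hτ0 : 0 ≤ τ := by rw [hτ]; positivity
  have hwsum : ∀ j, ∑ g ∈ arrays b k, wt (u j) g = 1 := fun j => wt_sum (hu j)
  have hcopb : ∀ p : ℕ, p.Prime → ¬ p ∣ b → Nat.Coprime b p := fun p hp h =>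
    ((Nat.Prime.coprime_iff_not_dvd hp).2 h).symm
  have hE1 : ∀ p ∈ P, ∀ j, Eqd p τ (arrays b k) (wt (u j)) (fun g => c j + κ j * (dval b g : ℕ)) := by
    intro p hp j
    obtain ⟨⟨hpp, hpx, hpb⟩, hpS⟩ := hP p hp
    refine Eqd.mono (eqd_of (arrays b k) (wt (u j)) (hwsum j) _ p hpp.one_le (1 / (x : ℝ) ^ 4) (by positivity) ?_) ?_
    · intro m' hm' hne a ha
      have : m' = p := ((Nat.dvd_prime hpp).1 hm').resolve_left hne
      subst this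
      exact hchar j m' hpp.one_le (hpx.trans (le_self_pow₀ hx1 (by norm_num))) hpS (hcopb _ hpp hpb) a ha
    · rw [hτ]
      apply mul_le_mul_of_nonneg_right _ (by positivity)
      have h1 : (p : ℝ) ≤ x := by exact_mod_cast hpx
      nlinarith
  have hE2 : ∀ p ∈ P, ∀ q ∈ P, p ≠ q → p * q ∉ S → ∀ j,
      Eqd (p * q) τ (arrays b k) (wt (u j)) (fun g => c j + κ j * (dval b g : ℕ)) := by
    intro p hp q hq hpq hin j
    obtain ⟨⟨hpp, hpx, hpb⟩, hpS⟩ := hP p hp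
    obtain ⟨⟨hqp, hqx, hqb⟩, hqS⟩ := hP q hq
    have hmul : p * q ≤ x ^ 2 := by
      rw [sq]
      exact Nat.mul_le_mul hpx hqx
    refine Eqd.mono (eqd_of (arrays b k) (wt (u j)) (hwsum j) _ (p * q) (Nat.mul_pos hpp.pos hqp.pos) (1 / (x : ℝ) ^ 4)
      (by positivity) ?_) ?_
    · intro m' hm' hne a ha
      have hm'0 : 1 ≤ m' := Nat.pos_of_dvd_of_pos hm' (Nat.mul_pos hpp.pos hqp.pos)
      refine hchar j m' hm'0 ?_ ?_ ?_ a ha
      · exact (Nat.le_of_dvd (Nat.mul_pos hpp.pos hqp.pos) hm').trans (hmul.trans (Nat.pow_le_pow_right hx1 (by norm_num)))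
      · obtain ⟨k1, k2, hk1, hk2, hk⟩ := (Nat.dvd_mul).1 hm'
        rcases (Nat.dvd_prime hpp).1 hk1 with e1 | e1 <;> rcases (Nat.dvd_prime hqp).1 hk2 with e2 | e2
        · exfalso
          apply hne
          rw [← hk, e1, e2]
        · rw [← hk, e1, e2, one_mul]
          exact hqS
        · rw [← hk, e1, e2, mul_one]
          exact hpS
        · rw [← hk, e1, e2]
          exact hin
      · exact Nat.Coprime.coprime_dvd_right hm' (Nat.Coprime.mul_right (hcopb p hpp hpb) (hcopb q hqp hqb))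
    · rw [hτ]
      apply mul_le_mul_of_nonneg_right _ (by positivity)
      exact_mod_cast hmul
  have hpairs := pairs d (fun _ : Fin d => arrays b k) (fun j => wt (u j)) (fun j g => c j + κ j * (dval b g : ℕ))
    (fun j => ⟨fun g _ => wt_nonneg (hu j) g, hwsum j⟩) x P (fun p hp => ⟨(hP p hp).1.1, (hP p hp).1.2.1⟩) S τ hτ0 hE1 hE2
    F U hU (fun p hp => hF p (hPG hp))
  obtain ⟨Q, hQ0, hQ1, hQ2⟩ := sup_of (Fintype.piFinset (fun _ : Fin d => arrays b k)) (fun g => ∏ j, wt (u j) (g j)) L P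
    (fun p hp => (hP p hp).1.1.one_le) (fun p g => F p (fun j => c j + κ j * (dval b (g j) : ℕ))) _ hpairs
  obtain ⟨R, hR⟩ : ∃ R : ℝ, R = (x : ℝ) ^ (2 / (D : ℝ)) := ⟨_, rfl⟩
  have hR1 : 1 ≤ R := by rw [hR]; exact Real.one_le_rpow hxr (by positivity)
  have hBcard : (B.card : ℝ) ^ 2 ≤ C₂ ^ 2 * R := by
    have h1 := hcount x B (by
      intro m hm
      have h2 := hGP m (hBG hm)
      rw [hBdef, mem_filter] at hm
      exact ⟨hm.2, h2.1.one_le, h2.2.1⟩)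
    have h2 := pow_le_pow_left₀ (Nat.cast_nonneg _) h1 2
    refine h2.trans (le_of_eq ?_)
    rw [mul_pow, hR, ← Real.rpow_natCast ((x : ℝ) ^ (1 / (D : ℝ))), ← Real.rpow_mul hx0.le]
    congr 2
    push_cast
    ring
  have hScard : (((Icc 1 (x ^ 2)).filter (fun m => m ∈ S)).card : ℝ) ≤ C₂ * R := by
    have h1 := hcount (x ^ 2) ((Icc 1 (x ^ 2)).filter (fun m => m ∈ S)) (by
      intro m hm
      rw [mem_filter, mem_Icc] at hm
      exact ⟨hm.2, hm.1.1, hm.1.2⟩)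
    refine h1.trans (le_of_eq ?_)
    rw [hR]
    push_cast
    rw [← Real.rpow_natCast (x : ℝ) 2, ← Real.rpow_mul hx0.le]
    congr 2
    push_cast
    ring
  have hPcard : (P.card : ℝ) ^ 2 * (d * τ * U ^ 2) ≤ d * U ^ 2 := by
    have h1 : (P.card : ℝ) ≤ x := by
      have h2 : P ⊆ Icc 1 x := by
        intro p hp
        rw [mem_Icc]
        exact ⟨(hP p hp).1.1.one_le, (hP p hp).1.2.1⟩
      have h3 := card_le_card h2
      rw [Nat.card_Icc, Nat.add_sub_cancel] at h3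
      exact_mod_cast h3
    have h2 : (P.card : ℝ) ^ 2 * τ ≤ 1 := by
      calc (P.card : ℝ) ^ 2 * τ ≤ (x : ℝ) ^ 2 * τ := mul_le_mul_of_nonneg_right (pow_le_pow_left₀ (Nat.cast_nonneg _) h1 2) hτ0
        _ = 1 := by
            rw [hτ]
            field_simp
    calc (P.card : ℝ) ^ 2 * (d * τ * U ^ 2) = ((P.card : ℝ) ^ 2 * τ) * (d * U ^ 2) := by ring
      _ ≤ 1 * (d * U ^ 2) := mul_le_mul_of_nonneg_right h2 (by positivity)
      _ = _ := one_mul _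
  have hsumP : ∑ p ∈ P, meanV d p (fun n => F p n ^ 2) ≤ ∑ p ∈ GP b x, meanV d p (fun n => F p n ^ 2) :=
    sum_le_sum_of_subset_of_nonneg hPG fun p _ _ => meanV_nonneg d p _ fun n => sq_nonneg _
  obtain ⟨T₀, hTd⟩ : ∃ T₀ : ℝ, T₀ = ∑ p ∈ GP b x, meanV d p (fun n => F p n ^ 2) := ⟨_, rfl⟩
  have hT0 : 0 ≤ T₀ := by rw [hTd]; exact sum_nonneg fun p _ => meanV_nonneg d p _ fun n => sq_nonneg _
  rw [← hTd] at hsumP ⊢
  rw [← hR]
  refine ⟨fun g => 2 * Q g + 2 * (C₂ ^ 2 * R * U ^ 2), fun g => by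
    have := hQ0 g
    positivity, ?_, ?_⟩
  · have hW1 : ∑ g ∈ Fintype.piFinset (fun _ : Fin d => arrays b k), ∏ j, wt (u j) (g j) = 1 :=
      W_sum d (fun _ : Fin d => arrays b k) (fun j => wt (u j)) (fun j => ⟨fun g _ => wt_nonneg (hu j) g, hwsum j⟩)
    have e : ∑ g ∈ Fintype.piFinset (fun _ : Fin d => arrays b k), (∏ j, wt (u j) (g j)) *
        (2 * Q g + 2 * (C₂ ^ 2 * R * U ^ 2)) = 2 * ∑ g ∈ Fintype.piFinset (fun _ : Fin d => arrays b k),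
        (∏ j, wt (u j) (g j)) * Q g + 2 * (C₂ ^ 2 * R * U ^ 2) := by
      simp only [mul_add]
      rw [sum_add_distrib, ← sum_mul, hW1, one_mul, mul_sum]
      congr 1
      apply sum_congr rfl
      intro g _
      ring
    rw [e]
    have hL1 : (1 : ℝ) ≤ ((L : ℝ) + 1) ^ 2 := one_le_pow₀ (by linarith [(Nat.cast_nonneg L : (0 : ℝ) ≤ L)])
    have hV : ∑ p ∈ P, meanV d p (fun n => F p n ^ 2) + 2 * (((Icc 1 (x ^ 2)).filter (fun m => m ∈ S)).card * U ^ 2) +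
        (P.card : ℝ) ^ 2 * (d * τ * U ^ 2) ≤ (2 * C₂ + d + 1) * (T₀ + U ^ 2 * R) := by
      have h1 := mul_le_mul_of_nonneg_right hScard (sq_nonneg U)
      have h2 : (0 : ℝ) ≤ U ^ 2 := sq_nonneg U
      have h3 : (d : ℝ) * U ^ 2 ≤ d * (U ^ 2 * R) := by
        apply mul_le_mul_of_nonneg_left _ (Nat.cast_nonneg _)
        exact le_mul_of_one_le_right h2 hR1
      have h4 : 0 ≤ U ^ 2 * R := by positivity
      have h5 : 0 ≤ C₂ * T₀ := mul_nonneg hC₂0 hT0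
      have h6 : 0 ≤ (d : ℝ) * T₀ := mul_nonneg (Nat.cast_nonneg _) hT0
      nlinarith
    have hA : 2 * ∑ g ∈ Fintype.piFinset (fun _ : Fin d => arrays b k), (∏ j, wt (u j) (g j)) * Q g ≤
        2 * (((L : ℝ) + 1) ^ 2 * ((2 * C₂ + d + 1) * (T₀ + U ^ 2 * R))) := by
      have h1 := hQ1.trans (mul_le_mul_of_nonneg_left hV (by positivity))
      linarith
    have hB' : 2 * (C₂ ^ 2 * R * U ^ 2) ≤ ((L : ℝ) + 1) ^ 2 * (2 * C₂ ^ 2 * (T₀ + U ^ 2 * R)) := by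
      have h1 : 2 * (C₂ ^ 2 * R * U ^ 2) ≤ 2 * C₂ ^ 2 * (T₀ + U ^ 2 * R) := by
        have : 0 ≤ C₂ ^ 2 * T₀ := by positivity
        nlinarith
      refine h1.trans ?_
      exact le_mul_of_one_le_left (by positivity) hL1
    refine (add_le_add hA hB').trans (le_of_eq ?_)
    ring
  · intro g t ht
    have hsplit : ∑ p ∈ GP b t, F p (fun j => c j + κ j * (dval b (g j) : ℕ)) =
        ∑ p ∈ P.filter (fun p => p ≤ t), F p (fun j => c j + κ j * (dval b (g j) : ℕ)) +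
        ∑ p ∈ B.filter (fun p => p ≤ t), F p (fun j => c j + κ j * (dval b (g j) : ℕ)) := by
      rw [← sum_filter_add_sum_filter_not (GP b t) (fun p => p ∉ S)]
      have e1 : (GP b t).filter (fun p => p ∉ S) = P.filter (fun p => p ≤ t) := by
        ext p
        rw [hPdef, mem_filter, mem_filter, mem_filter, mem_GP, mem_GP]
        constructor
        · rintro ⟨⟨h1, h2, h3⟩, h4⟩
          exact ⟨⟨⟨h1.trans ht, h2, h3⟩, h4⟩, h1⟩
        · rintro ⟨⟨⟨h1, h2, h3⟩, h4⟩, h5⟩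
          exact ⟨⟨h5, h2, h3⟩, h4⟩
      have e2 : (GP b t).filter (fun p => ¬ p ∉ S) = B.filter (fun p => p ≤ t) := by
        ext p
        rw [hBdef, mem_filter, mem_filter, mem_filter, mem_GP, mem_GP, not_not]
        constructor
        · rintro ⟨⟨h1, h2, h3⟩, h4⟩
          exact ⟨⟨⟨h1.trans ht, h2, h3⟩, h4⟩, h1⟩
        · rintro ⟨⟨⟨h1, h2, h3⟩, h4⟩, h5⟩
          exact ⟨⟨h5, h2, h3⟩, h4⟩
      rw [e1, e2]
    rw [hsplit]
    have h1 := hQ2 g t (by rw [← hx]; exact ht)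
    have h2 : (∑ p ∈ B.filter (fun p => p ≤ t), F p (fun j => c j + κ j * (dval b (g j) : ℕ))) ^ 2 ≤ C₂ ^ 2 * R * U ^ 2 := by
      have h3 : |∑ p ∈ B.filter (fun p => p ≤ t), F p (fun j => c j + κ j * (dval b (g j) : ℕ))| ≤ B.card * U := by
        refine (abs_sum_le_sum_abs _ _).trans ?_
        refine (sum_le_card_nsmul _ _ U fun p hp => (hF p (hBG (mem_filter.1 hp).1)).1 _).trans ?_
        rw [nsmul_eq_mul]
        exact mul_le_mul_of_nonneg_right (by exact_mod_cast card_le_card (filter_subset _ _)) hU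
      rw [← sq_abs]
      refine (pow_le_pow_left₀ (abs_nonneg _) h3 2).trans ?_
      rw [mul_pow]
      exact mul_le_mul_of_nonneg_right hBcard (sq_nonneg U)
    nlinarith [sq_nonneg (∑ p ∈ P.filter (fun p => p ≤ t), F p (fun j => c j + κ j * (dval b (g j) : ℕ)) -
      ∑ p ∈ B.filter (fun p => p ≤ t), F p (fun j => c j + κ j * (dval b (g j) : ℕ)))]

end Pool.Agent.R318.TT
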