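import Pool.Agent.R318.ST.Fin1

/-! # The sections of a variety by a random hyperplane modulo `p`: mean value and second moment -/

set_option autoImplicit false

namespace Pool.Agent.R318.TT

open Finset Filter Pool.Agent.R318.ST

lemma av_fib {V G : Type} [AddCommGroup V] [Fintype V] [AddCommGroup G] [Fintype G] [DecidableEq G] (φ : V →+ G)
    (h : Function.Surjective φ) (z : G) : av (fun v => if φ v = z then (1 : ℝ) else 0) = 1 / Fintype.card G := by
  have h1 : ∀ y : G, (univ.filter (fun v => φ v = y)).card = (univ.filter (fun v => φ v = z)).card :=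
    fun y => AddMonoidHom.card_fiber_eq_of_mem_range φ (h y) (h z)
  have h2 : Fintype.card V = Fintype.card G * (univ.filter (fun v => φ v = z)).card := by
    have e1 : Fintype.card V = ∑ y : G, (univ.filter (fun v => φ v = y)).card := by
      rw [← card_univ, ← card_eq_sum_card_fiberwise (f := φ) (fun v _ => mem_coe.2 (mem_univ _))]
    rw [e1, sum_congr rfl (fun y _ => h1 y), sum_const, smul_eq_mul, card_univ]
  unfold av
  rw [sum_boole, h2]
  have h3 : 0 < (univ.filter (fun v => φ v = z)).card := by
    obtain ⟨v, hv⟩ := h z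
    exact card_pos.2 ⟨v, mem_filter.2 ⟨mem_univ _, hv⟩⟩
  have h4 : ((univ.filter (fun v => φ v = z)).card : ℝ) ≠ 0 := by exact_mod_cast h3.ne'
  have h5 : (Fintype.card G : ℝ) ≠ 0 := by
    have : Nonempty G := ⟨z⟩
    exact_mod_cast Fintype.card_ne_zero
  push_cast
  field_simp

section
variable (p : ℕ) [Fact p.Prime] {M : ℕ}

/-- the value of the affine linear form at a point -/
def lin (s : Fin M → ZMod p) : (Fin (M + 1) → ZMod p) →+ ZMod p where
  toFun v := v 0 + ∑ j : Fin M, v j.succ * s j
  map_zero' := by simp
  map_add' u v := by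
    simp only [Pi.add_apply, add_mul, sum_add_distrib]
    ring

lemma lin_surj (s : Fin M → ZMod p) : Function.Surjective (lin p s) := by
  intro z
  refine ⟨Fin.cons z (fun _ => 0), ?_⟩
  show (Fin.cons z (fun _ => 0) : Fin (M + 1) → ZMod p) 0 + ∑ j : Fin M, (Fin.cons z (fun _ => 0) : Fin (M + 1) → ZMod p) j.succ * s j = z
  simp

lemma lin2_surj (s s' : Fin M → ZMod p) (h : s ≠ s') : Function.Surjective ((lin p s).prod (lin p s')) := by
  obtain ⟨j, hj⟩ := Function.ne_iff.1 h
  have hd : s j - s' j ≠ 0 := sub_ne_zero.2 hj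
  rintro ⟨z, z'⟩
  refine ⟨Fin.cons (z - (z - z') / (s j - s' j) * s j) (fun i => if i = j then (z - z') / (s j - s' j) else 0), ?_⟩
  have h1 : ∀ r : Fin M → ZMod p, (Fin.cons (z - (z - z') / (s j - s' j) * s j)
      (fun i => if i = j then (z - z') / (s j - s' j) else 0) : Fin (M + 1) → ZMod p) 0 + ∑ i : Fin M,
      (Fin.cons (z - (z - z') / (s j - s' j) * s j) (fun i => if i = j then (z - z') / (s j - s' j) else 0) :
        Fin (M + 1) → ZMod p) i.succ * r i = z - (z - z') / (s j - s' j) * s j + (z - z') / (s j - s' j) * r j := by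
    intro r
    simp
  show ((_ : ZMod p), (_ : ZMod p)) = (z, z')
  rw [Prod.mk.injEq]
  constructor
  · refine (h1 s).trans ?_
    ring
  · refine (h1 s').trans ?_
    have e : z - (z - z') / (s j - s' j) * s j + (z - z') / (s j - s' j) * s' j =
        z - (z - z') / (s j - s' j) * (s j - s' j) := by ring
    rw [e, div_mul_cancel₀ _ hd]
    ring

/-- the number of the points on the hyperplane -/
def NN {α : Type} (T : Finset α) (xs : α → Fin M → ZMod p) (ys : α → ZMod p) (v : Fin (M + 1) → ZMod p) : ℕ :=
  (T.filter (fun t => lin p (xs t) v = ys t)).card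

theorem mom2 {α : Type} (T : Finset α) (xs : α → Fin M → ZMod p) (ys : α → ZMod p) (B : ℕ)
    (hB : ∀ s z, (T.filter (fun t => xs t = s ∧ ys t = z)).card ≤ B) :
    av (fun v => (NN p T xs ys v : ℝ) - T.card / p) = 0 ∧
      av (fun v => ((NN p T xs ys v : ℝ) - T.card / p) ^ 2) ≤ B * (T.card / p) := by
  classical
  have hp0 : (0 : ℝ) < p := by exact_mod_cast (Fact.out : p.Prime).pos
  have hN : ∀ v, (NN p T xs ys v : ℝ) = ∑ t ∈ T, if lin p (xs t) v = ys t then (1 : ℝ) else 0 := by
    intro v
    unfold NN
    rw [sum_boole]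
  have h1 : av (fun v => (NN p T xs ys v : ℝ)) = T.card / p := by
    simp only [hN]
    rw [av_sum, sum_congr rfl (fun t _ => av_fib (lin p (xs t)) (lin_surj p (xs t)) (ys t)), sum_const, nsmul_eq_mul,
      ZMod.card]
    ring
  have h2 : av (fun v => (NN p T xs ys v : ℝ) ^ 2) ≤ (T.card / p) ^ 2 + B * (T.card / p) := by
    have e1 : (fun v => (NN p T xs ys v : ℝ) ^ 2) = fun v => ∑ t ∈ T, ∑ t' ∈ T,
        (if lin p (xs t) v = ys t then (1 : ℝ) else 0) * (if lin p (xs t') v = ys t' then (1 : ℝ) else 0) := by
      funext v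
      rw [hN, sq, sum_mul_sum]
    rw [e1, av_sum]
    have h3 : ∀ t ∈ T, av (fun v => ∑ t' ∈ T, (if lin p (xs t) v = ys t then (1 : ℝ) else 0) *
        (if lin p (xs t') v = ys t' then (1 : ℝ) else 0)) ≤ T.card * (1 / (p : ℝ) ^ 2) + B * (1 / p) := by
      intro t _
      rw [av_sum]
      have h4 : ∀ t' ∈ T, av (fun v => (if lin p (xs t) v = ys t then (1 : ℝ) else 0) *
          (if lin p (xs t') v = ys t' then (1 : ℝ) else 0)) ≤
          1 / (p : ℝ) ^ 2 + (if xs t' = xs t ∧ ys t' = ys t then 1 / (p : ℝ) else 0) := by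
        intro t' _
        by_cases hx : xs t = xs t'
        · by_cases hy : ys t = ys t'
          · rw [if_pos ⟨hx.symm, hy.symm⟩]
            have e2 : (fun v => (if lin p (xs t) v = ys t then (1 : ℝ) else 0) *
                (if lin p (xs t') v = ys t' then (1 : ℝ) else 0)) = fun v => if lin p (xs t) v = ys t then (1 : ℝ) else 0 := by
              funext v
              rw [← hx, ← hy]
              split_ifs <;> simp
            rw [e2, av_fib (lin p (xs t)) (lin_surj p (xs t)) (ys t), ZMod.card]
            have : 0 ≤ 1 / (p : ℝ) ^ 2 := by positivity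
            linarith
          · rw [if_neg (fun h => hy h.2.symm), add_zero]
            have e2 : (fun v => (if lin p (xs t) v = ys t then (1 : ℝ) else 0) *
                (if lin p (xs t') v = ys t' then (1 : ℝ) else 0)) = fun v => 0 * (if lin p (xs t) v = ys t then (1 : ℝ) else 0) := by
              funext v
              rw [← hx]
              by_cases h5 : lin p (xs t) v = ys t
              · rw [if_pos h5, if_neg (fun h6 => hy (h5.symm.trans h6))]
                ring
              · rw [if_neg h5]
                ring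
            rw [e2, av_mul, zero_mul]
            positivity
        · rw [if_neg (fun h => hx h.1.symm), add_zero]
          have e2 : (fun v => (if lin p (xs t) v = ys t then (1 : ℝ) else 0) *
                (if lin p (xs t') v = ys t' then (1 : ℝ) else 0)) =
              fun v => if ((lin p (xs t)).prod (lin p (xs t'))) v = (ys t, ys t') then (1 : ℝ) else 0 := by
            funext v
            have e3 : ((lin p (xs t)).prod (lin p (xs t'))) v = (lin p (xs t) v, lin p (xs t') v) := rfl
            rw [e3]
            simp only [Prod.mk.injEq]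
            by_cases h5 : lin p (xs t) v = ys t
            · by_cases h6 : lin p (xs t') v = ys t'
              · rw [if_pos h5, if_pos h6, if_pos ⟨h5, h6⟩, mul_one]
              · rw [if_pos h5, if_neg h6, if_neg (fun h => h6 h.2), mul_zero]
            · rw [if_neg h5, zero_mul, if_neg (fun h => h5 h.1)]
          rw [e2, av_fib _ (lin2_surj p _ _ hx), Fintype.card_prod, ZMod.card]
          apply le_of_eq
          push_cast
          rw [sq]
      refine (sum_le_sum h4).trans ?_
      rw [sum_add_distrib, sum_const, nsmul_eq_mul, ← sum_filter, sum_const, nsmul_eq_mul]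
      have h5 : ((T.filter (fun t' => xs t' = xs t ∧ ys t' = ys t)).card : ℝ) ≤ B := by exact_mod_cast hB (xs t) (ys t)
      have h6 := mul_le_mul_of_nonneg_right h5 (by positivity : 0 ≤ 1 / (p : ℝ))
      linarith
    refine (sum_le_card_nsmul T _ _ h3).trans (le_of_eq ?_)
    rw [nsmul_eq_mul]
    field_simp
  have hne : Nonempty (Fin (M + 1) → ZMod p) := ⟨fun _ => 0⟩
  constructor
  · have e : (fun v => (NN p T xs ys v : ℝ) - T.card / p) = fun v => (NN p T xs ys v : ℝ) - (T.card / p) * (1 : ℝ) := by
      funext v
      ring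
    rw [e, av_sub, h1, av_mul, av_one]
    ring
  · have e : (fun v => ((NN p T xs ys v : ℝ) - T.card / p) ^ 2) = fun v => ((NN p T xs ys v : ℝ) ^ 2 -
        (2 * (T.card / p)) * (NN p T xs ys v : ℝ)) + ((T.card / p) ^ 2) * (1 : ℝ) := by
      funext v
      ring
    rw [e, av_add, av_sub, av_mul, av_mul, av_one, h1]
    nlinarith

end

end Pool.Agent.R318.TT
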