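import Pool.Agent.R318.TT.C
import Pool.Agent.R318.TT.D

/-! # Truncation: the means modulo `p` -/

set_option autoImplicit false

namespace Pool.Agent.R318.TT

open Finset Filter Pool.Agent.R459.Eq Pool.Agent.R318.ST Pool.Agent.R318.PR

lemma meanV_mono (d p : ℕ) (f g : (Fin d → ℤ) → ℝ) (h : ∀ n, f n ≤ g n) : meanV d p f ≤ meanV d p g :=
  div_le_div_of_nonneg_right (sum_le_sum fun _ _ => h _) (by positivity)

lemma meanV_lin3 (d p : ℕ) (hp : 1 ≤ p) (α β γ : ℝ) (f g : (Fin d → ℤ) → ℝ) :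
    meanV d p (fun n => α * f n + β * g n + γ) = α * meanV d p f + β * meanV d p g + γ := by
  have hp0 : (p : ℝ) ≠ 0 := by exact_mod_cast (by omega : p ≠ 0)
  unfold meanV
  rw [sum_add_distrib, sum_add_distrib, ← mul_sum, ← mul_sum, sum_const, Fintype.card_piFinset, prod_const, card_univ,
    Fintype.card_fin, card_range, nsmul_eq_mul]
  push_cast
  field_simp

lemma meanV_cen0 (d p : ℕ) (hp : 1 ≤ p) (f : (Fin d → ℤ) → ℝ) (c : ℝ) :
    meanV d p (fun n => (f n - meanV d p f) * c) = 0 := by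
  have h := meanV_lin3 d p hp c 0 (- (meanV d p f * c)) f f
  have e : (fun n => (f n - meanV d p f) * c) = fun n => c * f n + 0 * f n + (- (meanV d p f * c)) := by
    funext n
    ring
  rw [e, h]
  ring

lemma meanV_cen2 (d p : ℕ) (hp : 1 ≤ p) (f : (Fin d → ℤ) → ℝ) (c : ℝ) :
    meanV d p (fun n => ((f n - meanV d p f) * c) ^ 2) ≤ c ^ 2 * meanV d p (fun n => f n ^ 2) := by
  have h := meanV_lin3 d p hp (c ^ 2) (-(2 * meanV d p f * c ^ 2)) ((meanV d p f) ^ 2 * c ^ 2) (fun n => f n ^ 2) f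
  have e : (fun n => ((f n - meanV d p f) * c) ^ 2) = fun n => c ^ 2 * f n ^ 2 + (-(2 * meanV d p f * c ^ 2)) * f n +
      (meanV d p f) ^ 2 * c ^ 2 := by
    funext n
    ring
  rw [e, h]
  nlinarith [mul_nonneg (sq_nonneg (meanV d p f)) (sq_nonneg c)]

/-- the truncation of `y` at `p ^ ((1 - δ) / 2)` -/
noncomputable def trunc (δ : ℝ) (p : ℕ) (y : ℝ) : ℝ := if |y| ≤ (p : ℝ) ^ ((1 - δ) / 2) then y else 0

/-- `1` if `|y| > p ^ ((1 - δ) / 2)`, and `0` otherwise -/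
noncomputable def big (δ : ℝ) (p : ℕ) (y : ℝ) : ℝ := if |y| ≤ (p : ℝ) ^ ((1 - δ) / 2) then 0 else 1

lemma trunc_abs (δ : ℝ) (p : ℕ) (y : ℝ) : |trunc δ p y| ≤ (p : ℝ) ^ ((1 - δ) / 2) := by
  unfold trunc
  split_ifs with h
  · exact h
  · rw [abs_zero]
    positivity

lemma trunc_sq (δ : ℝ) (p : ℕ) (y : ℝ) : trunc δ p y ^ 2 ≤ y ^ 2 := by
  unfold trunc
  split_ifs
  · exact le_rfl
  · rw [zero_pow two_ne_zero]
    exact sq_nonneg _

lemma trunc_err (δ : ℝ) (p : ℕ) (hp : 1 ≤ p) (y : ℝ) : |y - trunc δ p y| ≤ y ^ 2 / (p : ℝ) ^ ((1 - δ) / 2) := by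
  have hp0 : (0 : ℝ) < p := by exact_mod_cast hp
  have hq : 0 < (p : ℝ) ^ ((1 - δ) / 2) := Real.rpow_pos_of_pos hp0 _
  unfold trunc
  split_ifs with h
  · rw [sub_self, abs_zero]
    positivity
  · push Not at h
    rw [sub_zero, le_div_iff₀ hq, ← sq_abs y, sq]
    exact mul_le_mul_of_nonneg_left h.le (abs_nonneg _)

lemma big_mem (δ : ℝ) (p : ℕ) (y : ℝ) : 0 ≤ big δ p y ∧ big δ p y ≤ 1 := by
  unfold big
  split_ifs <;> norm_num

lemma big_sq (δ : ℝ) (p : ℕ) (y : ℝ) : big δ p y ^ 2 = big δ p y := by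
  unfold big
  split_ifs <;> norm_num

lemma big_le (δ : ℝ) (p : ℕ) (hp : 1 ≤ p) (y : ℝ) : big δ p y ≤ y ^ 2 / (p : ℝ) ^ (1 - δ) := by
  have hp0 : (0 : ℝ) < p := by exact_mod_cast hp
  have hq : 0 < (p : ℝ) ^ (1 - δ) := Real.rpow_pos_of_pos hp0 _
  unfold big
  split_ifs with h
  · positivity
  · push Not at h
    rw [one_le_div hq, ← sq_abs y]
    have h1 := pow_le_pow_left₀ (by positivity) h.le 2
    refine le_trans (le_of_eq ?_) h1
    rw [← Real.rpow_natCast ((p : ℝ) ^ ((1 - δ) / 2)), ← Real.rpow_mul hp0.le]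
    congr 1
    push_cast
    ring

section
variable (d p : ℕ) (hp : 1 ≤ p) (δ : ℝ) (a : (Fin d → ℤ) → ℝ) (B : ℝ) (ha0 : meanV d p a = 0)
  (ha2 : meanV d p (fun n => a n ^ 2) ≤ B)

include hp ha0 ha2 in
lemma mean_trunc : |meanV d p (fun n => trunc δ p (a n))| ≤ B / (p : ℝ) ^ ((1 - δ) / 2) := by
  have hp0 : (0 : ℝ) < p := by exact_mod_cast hp
  have hq : 0 < (p : ℝ) ^ ((1 - δ) / 2) := Real.rpow_pos_of_pos hp0 _
  have h1 := meanV_lin3 d p hp 1 (-1) 0 (fun n => trunc δ p (a n)) a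
  rw [ha0] at h1
  have e1 : meanV d p (fun n => trunc δ p (a n)) = meanV d p (fun n => 1 * trunc δ p (a n) + (-1) * a n + 0) := by
    rw [h1]
    ring
  have h2 : meanV d p (fun n => a n ^ 2 / (p : ℝ) ^ ((1 - δ) / 2)) ≤ B / (p : ℝ) ^ ((1 - δ) / 2) := by
    have h3 := meanV_lin3 d p hp (1 / (p : ℝ) ^ ((1 - δ) / 2)) 0 0 (fun n => a n ^ 2) a
    have e2 : (fun n => a n ^ 2 / (p : ℝ) ^ ((1 - δ) / 2)) = fun n => 1 / (p : ℝ) ^ ((1 - δ) / 2) * a n ^ 2 + 0 * a n + 0 := by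
      funext n
      ring
    rw [e2, h3, zero_mul, add_zero, add_zero, div_eq_mul_one_div B, mul_comm B]
    exact mul_le_mul_of_nonneg_left ha2 (by positivity)
  rw [abs_le, e1]
  constructor
  · have h4 : meanV d p (fun n => (-1) * (a n ^ 2 / (p : ℝ) ^ ((1 - δ) / 2)) + 0 * a n + 0) ≤
        meanV d p (fun n => 1 * trunc δ p (a n) + (-1) * a n + 0) := by
      apply meanV_mono
      intro n
      have := (abs_le.1 (trunc_err δ p hp (a n))).2
      linarith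
    rw [meanV_lin3 d p hp] at h4
    linarith
  · refine le_trans (meanV_mono _ _ _ _ fun n => ?_) h2
    have := (abs_le.1 (trunc_err δ p hp (a n))).1
    linarith

include hp ha2 in
lemma mean_big : meanV d p (fun n => big δ p (a n)) ≤ B / (p : ℝ) ^ (1 - δ) := by
  have hp0 : (0 : ℝ) < p := by exact_mod_cast hp
  have hq : 0 < (p : ℝ) ^ (1 - δ) := Real.rpow_pos_of_pos hp0 _
  refine (meanV_mono _ _ _ _ fun n => big_le δ p hp (a n)).trans ?_
  have h3 := meanV_lin3 d p hp (1 / (p : ℝ) ^ (1 - δ)) 0 0 (fun n => a n ^ 2) a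
  have e2 : (fun n => a n ^ 2 / (p : ℝ) ^ (1 - δ)) = fun n => 1 / (p : ℝ) ^ (1 - δ) * a n ^ 2 + 0 * a n + 0 := by
    funext n
    ring
  rw [e2, h3, zero_mul, add_zero, add_zero, div_eq_mul_one_div B, mul_comm B]
  exact mul_le_mul_of_nonneg_left ha2 (by positivity)

end

/-- sums over the integers -/
lemma sum_invsqrt (t : ℕ) : ∑ n ∈ Icc 1 t, 1 / √(n : ℝ) ≤ 2 * √t := by
  induction t with
  | zero => simp
  | succ t ih =>
    rw [sum_Icc_succ_top (by omega)]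
    have h0 : (0 : ℝ) ≤ t := Nat.cast_nonneg t
    have h1 : 0 < √((t + 1 : ℕ) : ℝ) := Real.sqrt_pos.2 (by positivity)
    have h2 : √((t + 1 : ℕ) : ℝ) ^ 2 = (t : ℝ) + 1 := by
      rw [Real.sq_sqrt (by positivity)]
      push_cast
      ring
    have h3 : √(t : ℝ) ^ 2 = t := Real.sq_sqrt h0
    have h4 : 0 ≤ √(t : ℝ) := Real.sqrt_nonneg _
    have h5 : 1 / √((t + 1 : ℕ) : ℝ) ≤ 2 * (√((t + 1 : ℕ) : ℝ) - √(t : ℝ)) := by
      rw [div_le_iff₀ h1]
      nlinarith [sq_nonneg (√((t + 1 : ℕ) : ℝ) - √(t : ℝ))]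
    linarith

lemma sum_trunc (δ : ℝ) (hδ : 0 ≤ δ) (t : ℕ) (P : Finset ℕ) (hP : ∀ p ∈ P, 1 ≤ p ∧ p ≤ t) :
    ∑ p ∈ P, 1 / (p : ℝ) ^ ((1 - δ) / 2) ≤ 2 * (t : ℝ) ^ ((1 + δ) / 2) := by
  rcases Nat.eq_zero_or_pos t with h0 | h0
  · have : P = ∅ := by
      apply eq_empty_of_forall_notMem
      intro p hp
      have := hP p hp
      omega
    rw [this, sum_empty]
    positivity
  have ht0 : (0 : ℝ) < t := by exact_mod_cast h0
  have h1 : ∀ p ∈ P, 1 / (p : ℝ) ^ ((1 - δ) / 2) ≤ (t : ℝ) ^ (δ / 2) * (1 / √(p : ℝ)) := by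
    intro p hp
    obtain ⟨h2, h3⟩ := hP p hp
    have hp0 : (0 : ℝ) < p := by exact_mod_cast h2
    have e : 1 / (p : ℝ) ^ ((1 - δ) / 2) = (p : ℝ) ^ (δ / 2) * (1 / √(p : ℝ)) := by
      have e3 : (1 - δ) / 2 = 1 / 2 - δ / 2 := by ring
      rw [Real.sqrt_eq_rpow, e3, Real.rpow_sub hp0]
      field_simp
    rw [e]
    exact mul_le_mul_of_nonneg_right (Real.rpow_le_rpow hp0.le (by exact_mod_cast h3) (by linarith)) (by positivity)
  refine (sum_le_sum h1).trans ?_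
  rw [← mul_sum]
  have h2 : ∑ p ∈ P, 1 / √(p : ℝ) ≤ 2 * √t := by
    refine le_trans ?_ (sum_invsqrt t)
    apply sum_le_sum_of_subset_of_nonneg
    · intro p hp
      rw [mem_Icc]
      exact hP p hp
    · intro p _ _
      positivity
  refine (mul_le_mul_of_nonneg_left h2 (by positivity)).trans (le_of_eq ?_)
  rw [Real.sqrt_eq_rpow, mul_left_comm, ← Real.rpow_add ht0]
  congr 2
  ring

lemma sum_big (δ : ℝ) (hδ : 0 ≤ δ) (t : ℕ) (P : Finset ℕ) (hP : ∀ p ∈ P, 1 ≤ p ∧ p ≤ t) :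
    ∑ p ∈ P, 1 / (p : ℝ) ^ (1 - δ) ≤ (t : ℝ) ^ δ * (1 + Real.log t) := by
  rcases Nat.eq_zero_or_pos t with h0 | h0
  · have : P = ∅ := by
      apply eq_empty_of_forall_notMem
      intro p hp
      have := hP p hp
      omega
    rw [this, sum_empty, h0]
    simp
    positivity
  have ht0 : (0 : ℝ) < t := by exact_mod_cast h0
  have h1 : ∀ p ∈ P, 1 / (p : ℝ) ^ (1 - δ) ≤ (t : ℝ) ^ δ * (p : ℝ)⁻¹ := by
    intro p hp
    obtain ⟨h2, h3⟩ := hP p hp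
    have hp0 : (0 : ℝ) < p := by exact_mod_cast h2
    have e : 1 / (p : ℝ) ^ (1 - δ) = (p : ℝ) ^ δ * (p : ℝ)⁻¹ := by
      rw [Real.rpow_sub hp0, Real.rpow_one]
      field_simp
    rw [e]
    exact mul_le_mul_of_nonneg_right (Real.rpow_le_rpow hp0.le (by exact_mod_cast h3) hδ) (by positivity)
  refine (sum_le_sum h1).trans ?_
  rw [← mul_sum]
  apply mul_le_mul_of_nonneg_left _ (by positivity)
  have h2 : ∑ p ∈ P, (p : ℝ)⁻¹ ≤ ∑ n ∈ Icc 1 t, ((n : ℝ))⁻¹ := by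
    apply sum_le_sum_of_subset_of_nonneg
    · intro p hp
      rw [mem_Icc]
      exact hP p hp
    · intro p _ _
      positivity
  refine h2.trans ?_
  have h3 := harmonic_le_one_add_log t
  rw [harmonic_eq_sum_Icc] at h3
  push_cast at h3
  exact h3

end Pool.Agent.R318.TT
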