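import Pool.Agent.R318.TT.E

/-! # All `x` at once -/

set_option autoImplicit false

namespace Pool.Agent.R318.TT

open Finset Filter Pool.Agent.R459.Eq Pool.Agent.R318.ST Pool.Agent.R318.PR

/-- Chebyshev's inequality -/
lemma cheb (b k : ℕ) {d : ℕ} (u : Fin d → ℕ → ℕ → ℝ) (hw : ∀ g : Fin d → Fin k → ℕ, 0 ≤ ∏ j, wt (u j) (g j))
    (Q : (Fin d → Fin k → ℕ) → ℝ) (hQ : ∀ g, 0 ≤ Q g) (T V : ℝ) (hT : 0 < T)
    (hV : ∑ g ∈ Fintype.piFinset (fun _ : Fin d => arrays b k), (∏ j, wt (u j) (g j)) * Q g ≤ V)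
    (E : (Fin d → Fin k → ℕ) → Prop) (hE : ∀ g, E g → T ≤ Q g) : PrV b k u E ≤ V / T := by
  classical
  rw [le_div_iff₀ hT]
  refine le_trans ?_ hV
  unfold PrV
  rw [sum_mul]
  refine (sum_le_sum fun g hg => mul_le_mul_of_nonneg_left (hE g (mem_filter.1 hg).2) (hw g)).trans ?_
  exact sum_le_sum_of_subset_of_nonneg (filter_subset _ _) fun g _ _ => mul_nonneg (hw g) (hQ g)

/-- the hypotheses -/
structure Hyp (d : ℕ) (B : ℝ) (a : ℕ → (Fin d → ℤ) → ℝ) : Prop where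
  per : ∀ p : ℕ, p.Prime → PerV d p (a p)
  mean : ∀ p : ℕ, p.Prime → meanV d p (a p) = 0
  sq : ∀ p : ℕ, p.Prime → meanV d p (fun n => a p n ^ 2) ≤ B

/-- the centered truncated functions, with logarithmic weights -/
noncomputable def F₁ (d : ℕ) (δ : ℝ) (a : ℕ → (Fin d → ℤ) → ℝ) (p : ℕ) (n : Fin d → ℤ) : ℝ :=
  (trunc δ p (a p n) - meanV d p (fun n => trunc δ p (a p n))) * Real.log p

/-- the centered indicators -/
noncomputable def F₂ (d : ℕ) (δ : ℝ) (a : ℕ → (Fin d → ℤ) → ℝ) (p : ℕ) (n : Fin d → ℤ) : ℝ :=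
  (big δ p (a p n) - meanV d p (fun n => big δ p (a p n))) * 1

/-- one scale -/
theorem scale (b : ℕ) (hb : 2 ≤ b) (η : ℝ) (hη : 0 < η) (hη1 : η ≤ 1) (δ : ℝ) (hδ : 0 < δ) (hδ1 : δ ≤ 1 / 2) :
    ∃ W : ℕ, 1 ≤ W ∧ ∀ (d : ℕ) (κ : Fin d → ℤ), (∀ j, κ j ≠ 0) → ∀ B : ℝ, 0 ≤ B → ∃ C : ℝ, 0 < C ∧
    ∀ (a : ℕ → (Fin d → ℤ) → ℝ), Hyp d B a → ∀ (k L : ℕ), b ≤ 2 ^ L → (2 ^ L) ^ W ≤ b ^ k →
    ∀ (c : Fin d → ℤ) (u : Fin d → ℕ → ℕ → ℝ), (∀ j, Dist b k η (u j)) →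
    PrV b k u (fun g => ∃ t : ℕ, t ≤ 2 ^ L ∧
      (((2 : ℝ) ^ L) ^ (1 + 2 * δ) / 16 ≤ (∑ p ∈ GP b t, F₁ d δ a p (fun j => c j + κ j * (dval b (g j) : ℕ))) ^ 2 ∨
      ((2 : ℝ) ^ L) ^ (4 * δ) / 16 ≤ (∑ p ∈ GP b t, F₂ d δ a p (fun j => c j + κ j * (dval b (g j) : ℕ))) ^ 2)) ≤
      C * (((L : ℝ) + 1) ^ 4 * ((2 : ℝ) ^ L) ^ (-(2 * δ))) := by
  classical
  obtain ⟨D, hD⟩ := exists_nat_ge (2 / δ)
  have hD0 : (0 : ℝ) < D := lt_of_lt_of_le (by positivity) hD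
  have hD1 : 1 ≤ D := by exact_mod_cast hD0
  have hDδ : 2 / (D : ℝ) ≤ δ := by
    rw [div_le_iff₀ hD0]
    rw [div_le_iff₀ hδ] at hD
    linarith
  obtain ⟨W, hW, H⟩ := eng b hb η hη hη1 D hD1
  refine ⟨W, hW, fun d κ hκ B hB => ?_⟩
  obtain ⟨C, hC, Hm⟩ := H d κ hκ
  refine ⟨32 * C * (B + 4), by positivity, fun a ha k L hbL hxW c u hu => ?_⟩
  have hw : ∀ g : Fin d → Fin k → ℕ, 0 ≤ ∏ j, wt (u j) (g j) := fun g => prod_nonneg fun j _ => wt_nonneg (hu j) _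
  obtain ⟨y, hy⟩ : ∃ y : ℝ, y = (2 : ℝ) ^ L := ⟨_, rfl⟩
  have hy1 : 1 ≤ y := by rw [hy]; exact one_le_pow₀ (by norm_num)
  have hy0 : 0 < y := by linarith
  have hL0 : (0 : ℝ) ≤ L := Nat.cast_nonneg L
  have hlogy : Real.log y ≤ L := by
    rw [hy, Real.log_pow]
    have := Real.log_two_lt_d9
    nlinarith
  have hlogy0 : 0 ≤ Real.log y := Real.log_nonneg hy1
  have hGPle : ∀ p ∈ GP b (2 ^ L), p.Prime ∧ (p : ℝ) ≤ y := by
    intro p hp
    rw [mem_GP] at hp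
    refine ⟨hp.2.1, ?_⟩
    rw [hy]
    exact_mod_cast hp.1
  have hR : y ^ (2 / (D : ℝ)) ≤ y ^ δ := Real.rpow_le_rpow_of_exponent_le hy1 hDδ
  have hcard : ((GP b (2 ^ L)).card : ℝ) ≤ y := by
    have h1 : GP b (2 ^ L) ⊆ Icc 1 (2 ^ L) := by
      intro p hp
      rw [mem_GP] at hp
      rw [mem_Icc]
      exact ⟨hp.2.1.one_le, hp.1⟩
    have h2 := card_le_card h1
    rw [Nat.card_Icc, Nat.add_sub_cancel] at h2
    rw [hy]
    exact_mod_cast h2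
  have hpl : ∀ p ∈ GP b (2 ^ L), 0 ≤ Real.log p ∧ Real.log p ≤ L ∧ (1 : ℝ) ≤ p ∧
      (p : ℝ) ^ ((1 - δ) / 2) ≤ y ^ ((1 - δ) / 2) := by
    intro p hp
    obtain ⟨h1, h2⟩ := hGPle p hp
    have h3 : (1 : ℝ) ≤ p := by exact_mod_cast h1.one_le
    exact ⟨Real.log_nonneg h3, (Real.log_le_log (by linarith) h2).trans hlogy, h3,
      Real.rpow_le_rpow (by linarith) h2 (by linarith)⟩
  -- the first family
  have hmean1 : ∀ p ∈ GP b (2 ^ L), |meanV d p (fun n => trunc δ p (a p n))| ≤ (p : ℝ) ^ ((1 - δ) / 2) := by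
    intro p hp
    have hp1 := (hGPle p hp).1.one_le
    have h1 := meanV_lin3 d p hp1 0 0 ((p : ℝ) ^ ((1 - δ) / 2)) (fun _ => 0) (fun _ => 0)
    have h2 := meanV_lin3 d p hp1 0 0 (-(p : ℝ) ^ ((1 - δ) / 2)) (fun _ => 0) (fun _ => 0)
    rw [abs_le]
    constructor
    · have h3 := meanV_mono d p (fun n => 0 * (fun _ : Fin d → ℤ => (0 : ℝ)) n + 0 * (fun _ : Fin d → ℤ => (0 : ℝ)) n +
        (-(p : ℝ) ^ ((1 - δ) / 2))) (fun n => trunc δ p (a p n)) (fun n => by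
          have := (abs_le.1 (trunc_abs δ p (a p n))).1
          simp only [mul_zero, zero_add]
          exact this)
      rw [h2] at h3
      linarith
    · have h3 := meanV_mono d p (fun n => trunc δ p (a p n)) (fun n => 0 * (fun _ : Fin d → ℤ => (0 : ℝ)) n +
        0 * (fun _ : Fin d → ℤ => (0 : ℝ)) n + ((p : ℝ) ^ ((1 - δ) / 2))) (fun n => by
          have := (abs_le.1 (trunc_abs δ p (a p n))).2
          simp only [mul_zero, zero_add]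
          exact this)
      rw [h1] at h3
      linarith
  obtain ⟨Q₁, hQ₁0, hQ₁1, hQ₁2⟩ := Hm k L hbL hxW c u hu (F₁ d δ a) (2 * y ^ ((1 - δ) / 2) * L) (by positivity) (by
    intro p hp
    obtain ⟨k1, k2, k3, k4⟩ := hpl p hp
    have hpp := (hGPle p hp).1
    refine ⟨fun n => ?_, ?_, meanV_cen0 d p hpp.one_le _ _⟩
    · unfold F₁
      rw [abs_mul, abs_of_nonneg k1]
      apply mul_le_mul _ k2 k1 (by positivity)
      have h1 := trunc_abs δ p (a p n)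
      have h2 := hmean1 p hp
      have h3 := abs_sub (trunc δ p (a p n)) (meanV d p (fun n => trunc δ p (a p n)))
      linarith
    · intro n n' hn
      show (trunc δ p (a p n) - _) * _ = (trunc δ p (a p n') - _) * _
      rw [ha.per p hpp n n' hn])
  obtain ⟨Q₂, hQ₂0, hQ₂1, hQ₂2⟩ := Hm k L hbL hxW c u hu (F₂ d δ a) 1 zero_le_one (by
    intro p hp
    have hpp := (hGPle p hp).1
    refine ⟨fun n => ?_, ?_, meanV_cen0 d p hpp.one_le _ _⟩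
    · unfold F₂
      rw [mul_one]
      have h1 := big_mem δ p (a p n)
      have h2 : 0 ≤ meanV d p (fun n => big δ p (a p n)) := meanV_nonneg _ _ _ fun n => (big_mem δ p (a p n)).1
      have h3 : meanV d p (fun n => big δ p (a p n)) ≤ 1 := by
        have h4 := meanV_lin3 d p hpp.one_le 0 0 1 (fun _ => 0) (fun _ => 0)
        have h5 := meanV_mono d p (fun n => big δ p (a p n)) (fun n => 0 * (fun _ : Fin d → ℤ => (0 : ℝ)) n +
          0 * (fun _ : Fin d → ℤ => (0 : ℝ)) n + 1) (fun n => by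
            simp only [mul_zero, zero_add]
            exact (big_mem δ p (a p n)).2)
        rw [h4] at h5
        linarith
      rw [abs_le]
      constructor <;> linarith [h1.1, h1.2]
    · intro n n' hn
      show (big δ p (a p n) - _) * _ = (big δ p (a p n') - _) * _
      rw [ha.per p hpp n n' hn])
  rw [← hy] at hQ₁1 hQ₂1 ⊢
  -- the second moments
  have hL1 : (1 : ℝ) ≤ (L : ℝ) + 1 := by linarith
  have hV1 : ∑ p ∈ GP b (2 ^ L), meanV d p (fun n => F₁ d δ a p n ^ 2) + (2 * y ^ ((1 - δ) / 2) * L) ^ 2 * y ^ (2 / (D : ℝ)) ≤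
      (B + 4) * ((L : ℝ) + 1) ^ 2 * y := by
    have h1 : ∑ p ∈ GP b (2 ^ L), meanV d p (fun n => F₁ d δ a p n ^ 2) ≤ B * (L : ℝ) ^ 2 * y := by
      have h2 : ∀ p ∈ GP b (2 ^ L), meanV d p (fun n => F₁ d δ a p n ^ 2) ≤ B * (L : ℝ) ^ 2 := by
        intro p hp
        obtain ⟨k1, k2, k3, k4⟩ := hpl p hp
        have hpp := (hGPle p hp).1
        refine (meanV_cen2 d p hpp.one_le (fun n => trunc δ p (a p n)) (Real.log p)).trans ?_
        have h3 : meanV d p (fun n => trunc δ p (a p n) ^ 2) ≤ B :=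
          (meanV_mono _ _ _ _ fun n => trunc_sq δ p (a p n)).trans (ha.sq p hpp)
        have h4 : 0 ≤ meanV d p (fun n => trunc δ p (a p n) ^ 2) := meanV_nonneg _ _ _ fun n => sq_nonneg _
        calc Real.log p ^ 2 * meanV d p (fun n => trunc δ p (a p n) ^ 2) ≤ (L : ℝ) ^ 2 * B :=
              mul_le_mul (pow_le_pow_left₀ k1 k2 2) h3 h4 (by positivity)
          _ = _ := by ring
      refine (sum_le_card_nsmul _ _ _ h2).trans ?_
      rw [nsmul_eq_mul, mul_comm]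
      exact mul_le_mul_of_nonneg_left hcard (by positivity)
    have h2 : (2 * y ^ ((1 - δ) / 2) * L) ^ 2 * y ^ (2 / (D : ℝ)) ≤ 4 * (L : ℝ) ^ 2 * y := by
      have e1 : (2 * y ^ ((1 - δ) / 2) * L) ^ 2 = 4 * (L : ℝ) ^ 2 * y ^ (1 - δ) := by
        rw [mul_pow, mul_pow, ← Real.rpow_natCast (y ^ ((1 - δ) / 2)), ← Real.rpow_mul hy0.le]
        have : (1 - δ) / 2 * ((2 : ℕ) : ℝ) = 1 - δ := by push_cast; ring
        rw [this]
        ring
      rw [e1]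
      calc 4 * (L : ℝ) ^ 2 * y ^ (1 - δ) * y ^ (2 / (D : ℝ)) ≤ 4 * (L : ℝ) ^ 2 * y ^ (1 - δ) * y ^ δ :=
            mul_le_mul_of_nonneg_left hR (by positivity)
        _ = 4 * (L : ℝ) ^ 2 * y := by
            rw [mul_assoc, ← Real.rpow_add hy0]
            have : (1 - δ) + δ = (1 : ℝ) := by ring
            rw [this, Real.rpow_one]
    have h3 : (B + 4) * (L : ℝ) ^ 2 * y ≤ (B + 4) * ((L : ℝ) + 1) ^ 2 * y := by
      apply mul_le_mul_of_nonneg_right _ hy0.le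
      apply mul_le_mul_of_nonneg_left _ (by positivity)
      exact pow_le_pow_left₀ hL0 (by linarith) 2
    linarith
  have hV2 : ∑ p ∈ GP b (2 ^ L), meanV d p (fun n => F₂ d δ a p n ^ 2) + (1 : ℝ) ^ 2 * y ^ (2 / (D : ℝ)) ≤
      (B + 4) * ((L : ℝ) + 1) ^ 2 * y ^ δ := by
    have h1 : ∑ p ∈ GP b (2 ^ L), meanV d p (fun n => F₂ d δ a p n ^ 2) ≤ B * (y ^ δ * (1 + L)) := by
      have h2 : ∀ p ∈ GP b (2 ^ L), meanV d p (fun n => F₂ d δ a p n ^ 2) ≤ B * (1 / (p : ℝ) ^ (1 - δ)) := by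
        intro p hp
        have hpp := (hGPle p hp).1
        refine (meanV_cen2 d p hpp.one_le (fun n => big δ p (a p n)) 1).trans ?_
        rw [one_pow, one_mul]
        have e : (fun n => big δ p (a p n) ^ 2) = fun n => big δ p (a p n) := by
          funext n
          exact big_sq δ p _
        rw [e, mul_one_div]
        exact mean_big d p hpp.one_le δ (a p) B (ha.sq p hpp)
      refine (sum_le_sum h2).trans ?_
      rw [← mul_sum]
      apply mul_le_mul_of_nonneg_left _ hB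
      have h3 := sum_big δ hδ.le (2 ^ L) (GP b (2 ^ L)) (by
        intro p hp
        rw [mem_GP] at hp
        exact ⟨hp.2.1.one_le, hp.1⟩)
      push_cast at h3
      rw [← hy] at h3
      refine h3.trans ?_
      apply mul_le_mul_of_nonneg_left _ (by positivity)
      linarith
    have h2 : 0 < y ^ δ := Real.rpow_pos_of_pos hy0 _
    have h3 : B * (y ^ δ * (1 + L)) ≤ B * ((L : ℝ) + 1) ^ 2 * y ^ δ := by
      have h4 : (1 + (L : ℝ)) ≤ ((L : ℝ) + 1) ^ 2 := by nlinarith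
      calc B * (y ^ δ * (1 + L)) = (B * y ^ δ) * (1 + L) := by ring
        _ ≤ (B * y ^ δ) * ((L : ℝ) + 1) ^ 2 := mul_le_mul_of_nonneg_left h4 (by positivity)
        _ = _ := by ring
    have h5 : y ^ δ ≤ 4 * ((L : ℝ) + 1) ^ 2 * y ^ δ := by
      apply le_mul_of_one_le_left h2.le
      nlinarith
    rw [one_pow, one_mul]
    linarith
  have hE1 := hQ₁1.trans (mul_le_mul_of_nonneg_left hV1 (by positivity))
  have hE2 := hQ₂1.trans (mul_le_mul_of_nonneg_left hV2 (by positivity))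
  have hT1 : 0 < y ^ (1 + 2 * δ) / 16 := by have := Real.rpow_pos_of_pos hy0 (1 + 2 * δ); positivity
  have hT2 : 0 < y ^ (4 * δ) / 16 := by have := Real.rpow_pos_of_pos hy0 (4 * δ); positivity
  have hc1 := cheb b k u hw Q₁ hQ₁0 _ _ hT1 hE1 (fun g => ∃ t : ℕ, t ≤ 2 ^ L ∧
      y ^ (1 + 2 * δ) / 16 ≤ (∑ p ∈ GP b t, F₁ d δ a p (fun j => c j + κ j * (dval b (g j) : ℕ))) ^ 2) (by
      rintro g ⟨t, ht, h⟩
      exact h.trans (hQ₁2 g t ht))
  have hc2 := cheb b k u hw Q₂ hQ₂0 _ _ hT2 hE2 (fun g => ∃ t : ℕ, t ≤ 2 ^ L ∧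
      y ^ (4 * δ) / 16 ≤ (∑ p ∈ GP b t, F₂ d δ a p (fun j => c j + κ j * (dval b (g j) : ℕ))) ^ 2) (by
      rintro g ⟨t, ht, h⟩
      exact h.trans (hQ₂2 g t ht))
  have hU := PrV_union b k u hw ({0, 1} : Finset ℕ) (fun g => ∃ t : ℕ, t ≤ 2 ^ L ∧
      (y ^ (1 + 2 * δ) / 16 ≤ (∑ p ∈ GP b t, F₁ d δ a p (fun j => c j + κ j * (dval b (g j) : ℕ))) ^ 2 ∨
      y ^ (4 * δ) / 16 ≤ (∑ p ∈ GP b t, F₂ d δ a p (fun j => c j + κ j * (dval b (g j) : ℕ))) ^ 2))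
    (fun m g => if m = 0 then (∃ t : ℕ, t ≤ 2 ^ L ∧
      y ^ (1 + 2 * δ) / 16 ≤ (∑ p ∈ GP b t, F₁ d δ a p (fun j => c j + κ j * (dval b (g j) : ℕ))) ^ 2) else
      (∃ t : ℕ, t ≤ 2 ^ L ∧
      y ^ (4 * δ) / 16 ≤ (∑ p ∈ GP b t, F₂ d δ a p (fun j => c j + κ j * (dval b (g j) : ℕ))) ^ 2)) (by
      rintro g ⟨t, ht, h | h⟩
      · exact ⟨0, by simp, by rw [if_pos rfl]; exact ⟨t, ht, h⟩⟩
      · exact ⟨1, by simp, by rw [if_neg one_ne_zero]; exact ⟨t, ht, h⟩⟩)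
  rw [sum_pair zero_ne_one] at hU
  simp only [if_true, if_neg one_ne_zero] at hU
  refine hU.trans ((add_le_add hc1 hc2).trans ?_)
  have e1 : C * ((L : ℝ) + 1) ^ 2 * ((B + 4) * ((L : ℝ) + 1) ^ 2 * y) / (y ^ (1 + 2 * δ) / 16) =
      16 * C * (B + 4) * (((L : ℝ) + 1) ^ 4 * y ^ (-(2 * δ))) := by
    have h1 : y ^ (-(2 * δ)) = y / y ^ (1 + 2 * δ) := by
      rw [Real.rpow_add hy0, Real.rpow_one, Real.rpow_neg hy0.le]
      have := (Real.rpow_pos_of_pos hy0 (2 * δ)).ne'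
      field_simp
    rw [h1]
    have := (Real.rpow_pos_of_pos hy0 (1 + 2 * δ)).ne'
    field_simp
  have e2 : C * ((L : ℝ) + 1) ^ 2 * ((B + 4) * ((L : ℝ) + 1) ^ 2 * y ^ δ) / (y ^ (4 * δ) / 16) ≤
      16 * C * (B + 4) * (((L : ℝ) + 1) ^ 4 * y ^ (-(2 * δ))) := by
    have h1 : y ^ δ / y ^ (4 * δ) ≤ y ^ (-(2 * δ)) := by
      rw [← Real.rpow_sub hy0]
      exact Real.rpow_le_rpow_of_exponent_le hy1 (by linarith)
    have h2 : C * ((L : ℝ) + 1) ^ 2 * ((B + 4) * ((L : ℝ) + 1) ^ 2 * y ^ δ) / (y ^ (4 * δ) / 16) =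
        16 * C * (B + 4) * (((L : ℝ) + 1) ^ 4 * (y ^ δ / y ^ (4 * δ))) := by
      have := (Real.rpow_pos_of_pos hy0 (4 * δ)).ne'
      field_simp
    rw [h2]
    apply mul_le_mul_of_nonneg_left _ (by positivity)
    exact mul_le_mul_of_nonneg_left h1 (by positivity)
  rw [e1]
  linarith

end Pool.Agent.R318.TT
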