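import Pool.Agent.R318.TT.F

/-! # All `x` at once: the union of the scales -/

set_option autoImplicit false

namespace Pool.Agent.R318.TT

open Finset Filter Pool.Agent.R459.Eq Pool.Agent.R318.ST Pool.Agent.R318.PR

/-- the primes up to `x` with `|a p| ≤ p ^ ((1 - δ) / 2)` -/
noncomputable def small (δ : ℝ) (a : ℕ → ℝ) (x : ℕ) : Finset ℕ := by
  classical exact (range (x + 1)).filter (fun p => p.Prime ∧ |a p| ≤ (p : ℝ) ^ ((1 - δ) / 2))

/-- the primes up to `x` with `|a p| > p ^ ((1 - δ) / 2)` -/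
noncomputable def large (δ : ℝ) (a : ℕ → ℝ) (x : ℕ) : Finset ℕ := by
  classical exact (range (x + 1)).filter (fun p => p.Prime ∧ (p : ℝ) ^ ((1 - δ) / 2) < |a p|)

/-- for all `x ≥ X` with `x ^ W ≤ K`: the sum of the `a p log p` over the primes `p ≤ x` with `|a p| ≤ p ^ ((1 - δ) / 2)` is
at most `x ^ (1 / 2 + δ)` in absolute value, and there are at most `x ^ (2 δ)` other primes up to `x` -/
def CloseT (δ : ℝ) (X W K : ℕ) (a : ℕ → ℝ) : Prop := ∀ x : ℕ, X ≤ x → x ^ W ≤ K →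
  |∑ p ∈ small δ a x, a p * Real.log p| ≤ (x : ℝ) ^ (1 / 2 + δ) ∧ ((large δ a x).card : ℝ) ≤ (x : ℝ) ^ (2 * δ)

lemma log_four (δ : ℝ) (hδ : 0 < δ) : ∃ K : ℝ, 0 < K ∧ ∀ L : ℕ,
    ((L : ℝ) + 1) ^ 4 * ((2 : ℝ) ^ L) ^ (-(2 * δ)) ≤ K * ((2 : ℝ) ^ (-δ)) ^ L := by
  obtain ⟨s, hs⟩ : ∃ s : ℝ, s = δ * Real.log 2 / 4 := ⟨_, rfl⟩
  have hl2 : 0 < Real.log 2 := Real.log_pos (by norm_num)
  have hs0 : 0 < s := by rw [hs]; positivity
  refine ⟨(1 / s + 1) ^ 4, by positivity, fun L => ?_⟩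
  have hL0 : (0 : ℝ) ≤ L := Nat.cast_nonneg L
  have h1 := Real.add_one_le_exp ((L : ℝ) * s)
  have h2 : (L : ℝ) + 1 ≤ (1 / s + 1) * Real.exp (L * s) := by
    have h3 : (1 : ℝ) ≤ Real.exp (L * s) := by
      have : 0 ≤ (L : ℝ) * s := by positivity
      linarith
    have h4 : (L : ℝ) ≤ 1 / s * Real.exp (L * s) := by
      rw [div_mul_eq_mul_div, one_mul, le_div_iff₀ hs0]
      linarith
    linarith
  have h3 : ((L : ℝ) + 1) ^ 4 ≤ (1 / s + 1) ^ 4 * Real.exp (L * s) ^ 4 := by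
    rw [← mul_pow]
    exact pow_le_pow_left₀ (by positivity) h2 4
  have h4 : Real.exp (L * s) ^ 4 = (2 : ℝ) ^ (δ * L) := by
    rw [← Real.exp_nat_mul, Real.rpow_def_of_pos (by norm_num), hs]
    congr 1
    push_cast
    ring
  have h5 : ((2 : ℝ) ^ L) ^ (-(2 * δ)) = (2 : ℝ) ^ (-(2 * δ * L)) := by
    rw [← Real.rpow_natCast 2 L, ← Real.rpow_mul (by norm_num)]
    congr 1
    ring
  have h6 : ((2 : ℝ) ^ (-δ)) ^ L = (2 : ℝ) ^ (-(δ * L)) := by
    rw [← Real.rpow_natCast ((2 : ℝ) ^ (-δ)) L, ← Real.rpow_mul (by norm_num)]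
    congr 1
    ring
  rw [h4] at h3
  rw [h5, h6]
  have h7 : (2 : ℝ) ^ (-(δ * L)) = (2 : ℝ) ^ (δ * L) * (2 : ℝ) ^ (-(2 * δ * L)) := by
    rw [← Real.rpow_add (by norm_num)]
    congr 1
    ring
  rw [h7, ← mul_assoc]
  exact mul_le_mul_of_nonneg_right h3 (by positivity)

lemma thr (δ : ℝ) (hδ : 0 < δ) (B K : ℝ) (hB : 0 ≤ B) : ∃ X : ℕ, ∀ x : ℕ, X ≤ x →
    B * Real.log x * (2 * (x : ℝ) ^ ((1 + δ) / 2)) + K ≤ (x : ℝ) ^ (1 / 2 + δ) / 2 ∧
    B * ((x : ℝ) ^ δ * (1 + Real.log x)) + K ≤ (x : ℝ) ^ (2 * δ) / 2 := by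
  have hc : 0 < 1 / (8 * (B + 1)) := by positivity
  have hBc : B * (1 / (8 * (B + 1))) ≤ 1 / 8 := by
    rw [mul_one_div, div_le_iff₀ (by positivity)]
    linarith
  have hcast := tendsto_natCast_atTop_atTop (R := ℝ)
  have e1 := hcast.eventually ((isLittleO_log_rpow_atTop (half_pos hδ)).bound hc)
  have e2 := hcast.eventually ((isLittleO_log_rpow_atTop hδ).bound hc)
  have e3 := hcast.eventually ((tendsto_rpow_atTop (by linarith : 0 < 1 / 2 + δ)).eventually_ge_atTop (4 * K))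
  have e4 := hcast.eventually ((tendsto_rpow_atTop (by linarith : 0 < 2 * δ)).eventually_ge_atTop (8 * K))
  have e5 := hcast.eventually ((tendsto_rpow_atTop hδ).eventually_ge_atTop (8 * B))
  obtain ⟨X, hX⟩ := eventually_atTop.1 (e1.and (e2.and (e3.and (e4.and (e5.and (eventually_ge_atTop 1))))))
  refine ⟨X, fun x hx => ?_⟩
  obtain ⟨h1, h2, h3, h4, h5, h6⟩ := hX x hx
  have hx1 : (1 : ℝ) ≤ x := by exact_mod_cast h6
  have hx0 : (0 : ℝ) < x := by linarith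
  have hl : 0 ≤ Real.log x := Real.log_nonneg hx1
  rw [Real.norm_of_nonneg hl, Real.norm_of_nonneg (by positivity)] at h1 h2
  have hp1 : 0 < (x : ℝ) ^ ((1 + δ) / 2) := Real.rpow_pos_of_pos hx0 _
  have hp2 : 0 < (x : ℝ) ^ δ := Real.rpow_pos_of_pos hx0 _
  constructor
  · have h7 : B * Real.log x ≤ 1 / 8 * (x : ℝ) ^ (δ / 2) := by
      calc B * Real.log x ≤ B * (1 / (8 * (B + 1)) * (x : ℝ) ^ (δ / 2)) := mul_le_mul_of_nonneg_left h1 hB
        _ = B * (1 / (8 * (B + 1))) * (x : ℝ) ^ (δ / 2) := by ring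
        _ ≤ _ := mul_le_mul_of_nonneg_right hBc (by positivity)
    have h8 : B * Real.log x * (2 * (x : ℝ) ^ ((1 + δ) / 2)) ≤ 1 / 8 * (x : ℝ) ^ (δ / 2) * (2 * (x : ℝ) ^ ((1 + δ) / 2)) :=
      mul_le_mul_of_nonneg_right h7 (by positivity)
    have h9 : (x : ℝ) ^ (δ / 2) * (x : ℝ) ^ ((1 + δ) / 2) = (x : ℝ) ^ (1 / 2 + δ) := by
      rw [← Real.rpow_add hx0]
      congr 1
      ring
    have h10 : 1 / 8 * (x : ℝ) ^ (δ / 2) * (2 * (x : ℝ) ^ ((1 + δ) / 2)) = 1 / 4 * (x : ℝ) ^ (1 / 2 + δ) := by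
      rw [← h9]
      ring
    linarith
  · have h7 : B * Real.log x ≤ 1 / 8 * (x : ℝ) ^ δ := by
      calc B * Real.log x ≤ B * (1 / (8 * (B + 1)) * (x : ℝ) ^ δ) := mul_le_mul_of_nonneg_left h2 hB
        _ = B * (1 / (8 * (B + 1))) * (x : ℝ) ^ δ := by ring
        _ ≤ _ := mul_le_mul_of_nonneg_right hBc (by positivity)
    have h9 : (x : ℝ) ^ δ * (x : ℝ) ^ δ = (x : ℝ) ^ (2 * δ) := by
      rw [← Real.rpow_add hx0]
      congr 1
      ring
    have h10 : B * ((x : ℝ) ^ δ * (1 + Real.log x)) = (x : ℝ) ^ δ * B + (x : ℝ) ^ δ * (B * Real.log x) := by ring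
    have h11 : (x : ℝ) ^ δ * B ≤ (x : ℝ) ^ δ * (1 / 8 * (x : ℝ) ^ δ) := mul_le_mul_of_nonneg_left (by linarith) hp2.le
    have h12 : (x : ℝ) ^ δ * (B * Real.log x) ≤ (x : ℝ) ^ δ * (1 / 8 * (x : ℝ) ^ δ) := mul_le_mul_of_nonneg_left h7 hp2.le
    have h13 : (x : ℝ) ^ δ * (1 / 8 * (x : ℝ) ^ δ) = 1 / 8 * (x : ℝ) ^ (2 * δ) := by
      rw [← h9]
      ring
    have h14 : 0 < (x : ℝ) ^ (2 * δ) := Real.rpow_pos_of_pos hx0 _
    linarith

section
variable (b : ℕ) (hb : 2 ≤ b) (d : ℕ) (δ : ℝ) (hδ : 0 < δ) (hδ1 : δ ≤ 1 / 2) (B : ℝ) (hB : 0 ≤ B)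
  (a : ℕ → (Fin d → ℤ) → ℝ) (ha : Hyp d B a) (v : Fin d → ℤ) (x : ℕ)

open Classical in
/-- the primes that divide `b` -/
noncomputable def DD (b x : ℕ) : Finset ℕ := (range (x + 1)).filter (fun p => p.Prime ∧ p ∣ b)

include hb in
lemma DD_card (x : ℕ) : ((DD b x).card : ℝ) ≤ b := by
  classical
  have h1 : DD b x ⊆ Icc 1 b := by
    intro p hp
    unfold DD at hp
    rw [mem_filter] at hp
    rw [mem_Icc]
    exact ⟨hp.2.1.one_le, Nat.le_of_dvd (by omega) hp.2.2⟩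
  have h2 := card_le_card h1
  rw [Nat.card_Icc, Nat.add_sub_cancel] at h2
  exact_mod_cast h2

lemma split_sum (f : ℕ → ℝ) (Q : ℕ → Prop) (T : Finset ℕ) (hT : ∀ p, p ∈ T ↔ p ∈ range (x + 1) ∧ (p.Prime ∧ Q p)) (g : ℕ → ℝ)
    (h1 : ∀ p, Q p → g p = f p) (h2 : ∀ p, ¬ Q p → g p = 0) :
    ∑ p ∈ T, f p = ∑ p ∈ GP b x, g p + ∑ p ∈ DD b x, g p := by
  classical
  have e : T = (range (x + 1)).filter (fun p => p.Prime ∧ Q p) := by
    ext p
    rw [hT, mem_filter]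
  rw [e]
  unfold GP DD
  rw [sum_filter, sum_filter, sum_filter, ← sum_add_distrib]
  apply sum_congr rfl
  intro p _
  by_cases hp : p.Prime
  · by_cases hd : p ∣ b
    · by_cases hQ : Q p
      · rw [if_pos ⟨hp, hQ⟩, if_neg (fun h => h.2 hd), if_pos ⟨hp, hd⟩, h1 p hQ, zero_add]
      · rw [if_neg (fun h => hQ h.2), if_neg (fun h => h.2 hd), if_pos ⟨hp, hd⟩, h2 p hQ, zero_add]
    · by_cases hQ : Q p
      · rw [if_pos ⟨hp, hQ⟩, if_pos ⟨hp, hd⟩, if_neg (fun h => hd h.2), h1 p hQ, add_zero]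
      · rw [if_neg (fun h => hQ h.2), if_pos ⟨hp, hd⟩, if_neg (fun h => hd h.2), h2 p hQ, add_zero]
  · rw [if_neg (fun h => hp h.1), if_neg (fun h => hp h.1), if_neg (fun h => hp h.1), add_zero]

include hb hδ hδ1 hB ha in
lemma small_bd (hx : 1 ≤ x) : |∑ p ∈ small δ (fun p => a p v) x, a p v * Real.log p| ≤ |∑ p ∈ GP b x, F₁ d δ a p v| +
    (B * Real.log x * (2 * (x : ℝ) ^ ((1 + δ) / 2)) + (b : ℝ) ^ 3) := by
  classical
  have hx1 : (1 : ℝ) ≤ x := by exact_mod_cast hx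
  have hb1 : (1 : ℝ) ≤ b := by exact_mod_cast (by omega : 1 ≤ b)
  have e1 : ∑ p ∈ small δ (fun p => a p v) x, a p v * Real.log p = ∑ p ∈ GP b x, trunc δ p (a p v) * Real.log p +
      ∑ p ∈ DD b x, trunc δ p (a p v) * Real.log p := by
    apply split_sum b x (fun p => a p v * Real.log p) (fun p => |a p v| ≤ (p : ℝ) ^ ((1 - δ) / 2))
    · intro p
      unfold small
      rw [mem_filter]
    · intro p hp
      unfold trunc
      rw [if_pos hp]
    · intro p hp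
      unfold trunc
      rw [if_neg hp, zero_mul]
  have e2 : ∑ p ∈ GP b x, trunc δ p (a p v) * Real.log p = ∑ p ∈ GP b x, F₁ d δ a p v +
      ∑ p ∈ GP b x, meanV d p (fun n => trunc δ p (a p n)) * Real.log p := by
    rw [← sum_add_distrib]
    apply sum_congr rfl
    intro p _
    unfold F₁
    ring
  have hGP : ∀ p ∈ GP b x, p.Prime ∧ p ≤ x := by
    intro p hp
    rw [mem_GP] at hp
    exact ⟨hp.2.1, hp.1⟩
  have h1 : |∑ p ∈ GP b x, meanV d p (fun n => trunc δ p (a p n)) * Real.log p| ≤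
      B * Real.log x * (2 * (x : ℝ) ^ ((1 + δ) / 2)) := by
    refine (abs_sum_le_sum_abs _ _).trans ?_
    have h2 : ∀ p ∈ GP b x, |meanV d p (fun n => trunc δ p (a p n)) * Real.log p| ≤
        (B * Real.log x) * (1 / (p : ℝ) ^ ((1 - δ) / 2)) := by
      intro p hp
      obtain ⟨hpp, hpx⟩ := hGP p hp
      have hp1 : (1 : ℝ) ≤ p := by exact_mod_cast hpp.one_le
      have h3 := mean_trunc d p hpp.one_le δ (a p) B (ha.mean p hpp) (ha.sq p hpp)
      have h4 : Real.log p ≤ Real.log x := Real.log_le_log (by linarith) (by exact_mod_cast hpx)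
      rw [abs_mul, abs_of_nonneg (Real.log_nonneg hp1)]
      calc |meanV d p (fun n => trunc δ p (a p n))| * Real.log p ≤ (B / (p : ℝ) ^ ((1 - δ) / 2)) * Real.log x :=
            mul_le_mul h3 h4 (Real.log_nonneg hp1) (by positivity)
        _ = _ := by ring
    refine (sum_le_sum h2).trans ?_
    rw [← mul_sum]
    apply mul_le_mul_of_nonneg_left _ (mul_nonneg hB (Real.log_nonneg hx1))
    exact sum_trunc δ hδ.le x (GP b x) fun p hp => ⟨(hGP p hp).1.one_le, (hGP p hp).2⟩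
  have h2 : |∑ p ∈ DD b x, trunc δ p (a p v) * Real.log p| ≤ (b : ℝ) ^ 3 := by
    refine (abs_sum_le_sum_abs _ _).trans ?_
    have h3 : ∀ p ∈ DD b x, |trunc δ p (a p v) * Real.log p| ≤ (b : ℝ) ^ 2 := by
      intro p hp
      unfold DD at hp
      rw [mem_filter] at hp
      have hp1 : (1 : ℝ) ≤ p := by exact_mod_cast hp.2.1.one_le
      have hpb : (p : ℝ) ≤ b := by exact_mod_cast Nat.le_of_dvd (by omega) hp.2.2
      rw [abs_mul, abs_of_nonneg (Real.log_nonneg hp1), sq]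
      apply mul_le_mul _ _ (Real.log_nonneg hp1) (by linarith)
      · refine (trunc_abs δ p _).trans (le_trans ?_ hpb)
        calc (p : ℝ) ^ ((1 - δ) / 2) ≤ (p : ℝ) ^ (1 : ℝ) := Real.rpow_le_rpow_of_exponent_le hp1 (by linarith)
          _ = p := Real.rpow_one _
      · have := Real.log_le_sub_one_of_pos (by linarith : (0 : ℝ) < p)
        linarith
    refine (sum_le_card_nsmul _ _ _ h3).trans ?_
    rw [nsmul_eq_mul]
    calc ((DD b x).card : ℝ) * (b : ℝ) ^ 2 ≤ b * (b : ℝ) ^ 2 := mul_le_mul_of_nonneg_right (DD_card b hb x) (by positivity)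
      _ = _ := by ring
  rw [e1, e2]
  have h3 := abs_add_le (∑ p ∈ GP b x, F₁ d δ a p v + ∑ p ∈ GP b x, meanV d p (fun n => trunc δ p (a p n)) * Real.log p)
    (∑ p ∈ DD b x, trunc δ p (a p v) * Real.log p)
  have h4 := abs_add_le (∑ p ∈ GP b x, F₁ d δ a p v) (∑ p ∈ GP b x, meanV d p (fun n => trunc δ p (a p n)) * Real.log p)
  linarith

include hb hδ hB ha in
lemma large_bd : ((large δ (fun p => a p v) x).card : ℝ) ≤ |∑ p ∈ GP b x, F₂ d δ a p v| +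
    (B * ((x : ℝ) ^ δ * (1 + Real.log x)) + (b : ℝ) ^ 3) := by
  classical
  have hb1 : (1 : ℝ) ≤ b := by exact_mod_cast (by omega : 1 ≤ b)
  have e0 : ((large δ (fun p => a p v) x).card : ℝ) = ∑ p ∈ large δ (fun p => a p v) x, (1 : ℝ) := by
    rw [sum_const, nsmul_eq_mul, mul_one]
  have e1 : ∑ p ∈ large δ (fun p => a p v) x, (1 : ℝ) = ∑ p ∈ GP b x, big δ p (a p v) +
      ∑ p ∈ DD b x, big δ p (a p v) := by
    apply split_sum b x (fun _ => 1) (fun p => (p : ℝ) ^ ((1 - δ) / 2) < |a p v|)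
    · intro p
      unfold large
      rw [mem_filter]
    · intro p hp
      unfold big
      rw [if_neg (not_le.2 hp)]
    · intro p hp
      unfold big
      rw [if_pos (not_lt.1 hp)]
  have e2 : ∑ p ∈ GP b x, big δ p (a p v) = ∑ p ∈ GP b x, F₂ d δ a p v +
      ∑ p ∈ GP b x, meanV d p (fun n => big δ p (a p n)) := by
    rw [← sum_add_distrib]
    apply sum_congr rfl
    intro p _
    unfold F₂
    ring
  have hGP : ∀ p ∈ GP b x, p.Prime ∧ p ≤ x := by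
    intro p hp
    rw [mem_GP] at hp
    exact ⟨hp.2.1, hp.1⟩
  have h1 : ∑ p ∈ GP b x, meanV d p (fun n => big δ p (a p n)) ≤ B * ((x : ℝ) ^ δ * (1 + Real.log x)) := by
    have h2 : ∀ p ∈ GP b x, meanV d p (fun n => big δ p (a p n)) ≤ B * (1 / (p : ℝ) ^ (1 - δ)) := by
      intro p hp
      obtain ⟨hpp, hpx⟩ := hGP p hp
      rw [mul_one_div]
      exact mean_big d p hpp.one_le δ (a p) B (ha.sq p hpp)
    refine (sum_le_sum h2).trans ?_
    rw [← mul_sum]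
    apply mul_le_mul_of_nonneg_left _ hB
    exact sum_big δ hδ.le x (GP b x) fun p hp => ⟨(hGP p hp).1.one_le, (hGP p hp).2⟩
  have h2 : ∑ p ∈ DD b x, big δ p (a p v) ≤ (b : ℝ) ^ 3 := by
    refine (sum_le_card_nsmul _ _ 1 fun p _ => (big_mem δ p (a p v)).2).trans ?_
    rw [nsmul_eq_mul, mul_one]
    refine (DD_card b hb x).trans ?_
    exact le_self_pow₀ hb1 (by norm_num)
  rw [e0, e1, e2]
  have := le_abs_self (∑ p ∈ GP b x, F₂ d δ a p v)
  linarith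

end

/-- all `x` -/
theorem allT (b : ℕ) (hb : 2 ≤ b) (η : ℝ) (hη : 0 < η) (δ : ℝ) (hδ : 0 < δ) (hδ1 : δ ≤ 1 / 2) :
    ∃ W : ℕ, 1 ≤ W ∧ ∀ (d : ℕ) (κ : Fin d → ℤ), (∀ j, κ j ≠ 0) → ∀ B : ℝ, 0 ≤ B → ∃ (C : ℝ) (X₀ : ℕ), 0 < C ∧
    ∀ (a : ℕ → (Fin d → ℤ) → ℝ), Hyp d B a → ∀ k X : ℕ, X₀ ≤ X →
    ∀ (c : Fin d → ℤ) (u : Fin d → ℕ → ℕ → ℝ), (∀ j, Dist b k η (u j)) →
    PrV b k u (fun g => ¬ CloseT δ X W (b ^ k) (fun p => a p (fun j => c j + κ j * (dval b (g j) : ℕ)))) ≤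
      C * (X : ℝ) ^ (-δ) := by
  classical
  obtain ⟨W, hW, H⟩ := scale b hb (min η 1) (lt_min hη one_pos) (min_le_right _ _) δ hδ hδ1
  refine ⟨2 * W, by omega, fun d κ hκ B hB => ?_⟩
  obtain ⟨C, hC, Hs⟩ := H d κ hκ B hB
  obtain ⟨K, hK, hKL⟩ := log_four δ hδ
  obtain ⟨X₁, hX₁⟩ := thr δ hδ B ((b : ℝ) ^ 3) hB
  obtain ⟨r, hr⟩ : ∃ r : ℝ, r = (2 : ℝ) ^ (-δ) := ⟨_, rfl⟩
  have hr0 : 0 < r := by rw [hr]; positivity
  have hr1 : r < 1 := by
    rw [hr]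
    exact Real.rpow_lt_one_of_one_lt_of_neg (by norm_num) (by linarith)
  rw [← hr] at hKL
  refine ⟨C * K / (1 - r), X₁ + b + 2, div_pos (by positivity) (by linarith), fun a ha k X hX c u hu => ?_⟩
  have hw : ∀ g : Fin d → Fin k → ℕ, 0 ≤ ∏ j, wt (u j) (g j) := fun g => prod_nonneg fun j _ => wt_nonneg (hu j) _
  have hU := PrV_union b k u hw (Ico (Nat.clog 2 X) (b ^ k))
    (fun g => ¬ CloseT δ X (2 * W) (b ^ k) (fun p => a p (fun j => c j + κ j * (dval b (g j) : ℕ))))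
    (fun L g => (b ≤ 2 ^ L ∧ (2 ^ L) ^ W ≤ b ^ k) ∧ ∃ t : ℕ, t ≤ 2 ^ L ∧
      (((2 : ℝ) ^ L) ^ (1 + 2 * δ) / 16 ≤ (∑ p ∈ GP b t, F₁ d δ a p (fun j => c j + κ j * (dval b (g j) : ℕ))) ^ 2 ∨
      ((2 : ℝ) ^ L) ^ (4 * δ) / 16 ≤ (∑ p ∈ GP b t, F₂ d δ a p (fun j => c j + κ j * (dval b (g j) : ℕ))) ^ 2)) (by
    intro g hg
    unfold CloseT at hg
    push Not at hg
    obtain ⟨x, hXx, hxW, hbad⟩ := hg
    have hx2 : 2 ≤ x := by omega
    have hx1 : (1 : ℝ) ≤ x := by exact_mod_cast (by omega : 1 ≤ x)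
    have hx0 : (0 : ℝ) < x := by linarith
    obtain ⟨L, hL⟩ : ∃ L, L = Nat.clog 2 x := ⟨_, rfl⟩
    have hxL : x ≤ 2 ^ L := by rw [hL]; exact Nat.le_pow_clog (by norm_num) x
    have hL2 : 2 ^ L ≤ 2 * x := by
      have h1 : 2 ^ (Nat.clog 2 x).pred < x := Nat.pow_pred_clog_lt_self (by norm_num) (by omega)
      have h2 : 0 < Nat.clog 2 x := Nat.clog_pos (by norm_num) hx2
      have h3 : L = (Nat.clog 2 x).pred + 1 := by rw [hL]; exact (Nat.succ_pred_eq_of_pos h2).symm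
      rw [h3, pow_succ]
      omega
    have hLW : (2 ^ L) ^ W ≤ b ^ k := by
      refine le_trans ?_ hxW
      rw [pow_mul]
      apply Nat.pow_le_pow_left
      refine hL2.trans ?_
      rw [sq]
      exact Nat.mul_le_mul_right _ hx2
    have hLb : b ≤ 2 ^ L := by omega
    refine ⟨L, ?_, ⟨hLb, hLW⟩, x, hxL, ?_⟩
    · rw [mem_Ico]
      constructor
      · rw [hL]
        exact Nat.clog_mono_right 2 hXx
      · exact lt_of_lt_of_le Nat.lt_two_pow_self ((Nat.le_self_pow (by omega) _).trans hLW)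
    · have hy : ((2 : ℝ) ^ L) ≤ 2 * x := by exact_mod_cast hL2
      have hyp : (0 : ℝ) ≤ (2 : ℝ) ^ L := by positivity
      have hpw : ∀ e : ℝ, 0 ≤ e → e ≤ 2 → ((2 : ℝ) ^ L) ^ e / 16 ≤ (x : ℝ) ^ e / 4 := by
        intro e he he2
        have h1 : ((2 : ℝ) ^ L) ^ e ≤ (2 * x) ^ e := Real.rpow_le_rpow hyp hy he
        rw [Real.mul_rpow (by norm_num) hx0.le] at h1
        have h2 : (2 : ℝ) ^ e ≤ 4 := by
          calc (2 : ℝ) ^ e ≤ (2 : ℝ) ^ (2 : ℝ) := Real.rpow_le_rpow_of_exponent_le (by norm_num) he2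
            _ = 4 := by norm_num
        have h3 : (2 : ℝ) ^ e * (x : ℝ) ^ e ≤ 4 * (x : ℝ) ^ e := mul_le_mul_of_nonneg_right h2 (by positivity)
        linarith
      obtain ⟨ht1, ht2⟩ := hX₁ x (by omega)
      by_cases hcase : |∑ p ∈ small δ (fun p => a p (fun j => c j + κ j * (dval b (g j) : ℕ))) x,
          a p (fun j => c j + κ j * (dval b (g j) : ℕ)) * Real.log p| ≤ (x : ℝ) ^ (1 / 2 + δ)
      · right
        have h1 := hbad hcase
        have h2 := large_bd b hb d δ hδ B hB a ha (fun j => c j + κ j * (dval b (g j) : ℕ)) x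
        have h3 : (x : ℝ) ^ (2 * δ) / 2 ≤ |∑ p ∈ GP b x, F₂ d δ a p (fun j => c j + κ j * (dval b (g j) : ℕ))| := by
          linarith
        refine (hpw (4 * δ) (by linarith) (by linarith)).trans ?_
        rw [← sq_abs (∑ p ∈ GP b x, F₂ d δ a p (fun j => c j + κ j * (dval b (g j) : ℕ)))]
        have h4 := pow_le_pow_left₀ (by positivity) h3 2
        refine le_trans (le_of_eq ?_) h4
        rw [div_pow, ← Real.rpow_natCast ((x : ℝ) ^ (2 * δ)), ← Real.rpow_mul hx0.le]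
        have e : 2 * δ * ((2 : ℕ) : ℝ) = 4 * δ := by push_cast; ring
        rw [e]
        norm_num
      · left
        push Not at hcase
        have h2 := small_bd b hb d δ hδ hδ1 B hB a ha (fun j => c j + κ j * (dval b (g j) : ℕ)) x (by omega)
        have h3 : (x : ℝ) ^ (1 / 2 + δ) / 2 ≤ |∑ p ∈ GP b x, F₁ d δ a p (fun j => c j + κ j * (dval b (g j) : ℕ))| := by
          linarith
        refine (hpw (1 + 2 * δ) (by linarith) (by linarith)).trans ?_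
        rw [← sq_abs (∑ p ∈ GP b x, F₁ d δ a p (fun j => c j + κ j * (dval b (g j) : ℕ)))]
        have h4 := pow_le_pow_left₀ (by positivity) h3 2
        refine le_trans (le_of_eq ?_) h4
        rw [div_pow, ← Real.rpow_natCast ((x : ℝ) ^ (1 / 2 + δ)), ← Real.rpow_mul hx0.le]
        have e : (1 / 2 + δ) * ((2 : ℕ) : ℝ) = 1 + 2 * δ := by push_cast; ring
        rw [e]
        norm_num)
  refine hU.trans ?_
  have hterm : ∀ L ∈ Ico (Nat.clog 2 X) (b ^ k), PrV b k u (fun g => (b ≤ 2 ^ L ∧ (2 ^ L) ^ W ≤ b ^ k) ∧ ∃ t : ℕ, t ≤ 2 ^ L ∧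
      (((2 : ℝ) ^ L) ^ (1 + 2 * δ) / 16 ≤ (∑ p ∈ GP b t, F₁ d δ a p (fun j => c j + κ j * (dval b (g j) : ℕ))) ^ 2 ∨
      ((2 : ℝ) ^ L) ^ (4 * δ) / 16 ≤ (∑ p ∈ GP b t, F₂ d δ a p (fun j => c j + κ j * (dval b (g j) : ℕ))) ^ 2)) ≤
      C * K * r ^ L := by
    intro L _
    by_cases hcond : b ≤ 2 ^ L ∧ (2 ^ L) ^ W ≤ b ^ k
    · simp only [hcond, and_self, true_and]
      refine (Hs a ha k L hcond.1 hcond.2 c u fun j => (hu j).min _ (min_le_left _ _)).trans ?_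
      rw [mul_assoc]
      exact mul_le_mul_of_nonneg_left (hKL L) hC.le
    · simp only [hcond, false_and]
      unfold PrV
      rw [filter_false, sum_empty]
      positivity
  refine (sum_le_sum hterm).trans ?_
  rw [← mul_sum]
  have h1 : ∑ L ∈ Ico (Nat.clog 2 X) (b ^ k), r ^ L ≤ r ^ (Nat.clog 2 X) / (1 - r) :=
    geom_sum_Ico_le_of_lt_one hr0.le hr1
  have h2 : r ^ (Nat.clog 2 X) ≤ (X : ℝ) ^ (-δ) := by
    have hX0 : (0 : ℝ) < X := by exact_mod_cast (by omega : 0 < X)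
    have h3 : (X : ℝ) ≤ (2 : ℝ) ^ (Nat.clog 2 X) := by exact_mod_cast Nat.le_pow_clog (by norm_num) X
    have h4 : r ^ (Nat.clog 2 X) = ((2 : ℝ) ^ (Nat.clog 2 X)) ^ (-δ) := by
      rw [hr, ← Real.rpow_natCast, ← Real.rpow_mul (by norm_num), ← Real.rpow_natCast, ← Real.rpow_mul (by norm_num)]
      congr 1
      ring
    rw [h4]
    exact Real.rpow_le_rpow_of_nonpos hX0 h3 (by linarith)
  calc C * K * ∑ L ∈ Ico (Nat.clog 2 X) (b ^ k), r ^ L ≤ C * K * ((X : ℝ) ^ (-δ) / (1 - r)) := by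
        apply mul_le_mul_of_nonneg_left _ (by positivity)
        exact h1.trans (div_le_div_of_nonneg_right h2 (by linarith))
    _ = _ := by ring

end Pool.Agent.R318.TT
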