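import Pool.Agent.R318.TT.G

/-! # The sections of an affine scheme by random hyperplanes -/

set_option autoImplicit false

namespace Pool.Agent.R318.TT

open Finset Filter Pool.Agent.R459.Eq Pool.Agent.R318.ST Pool.Agent.R318.PR

/-- The number of the points over the field with `p` elements (ring homomorphisms to `ZMod p`) of the closed subscheme
`v 0 + ∑ v (j + 1) x j = y` of `Spec A`. -/
noncomputable def secN {A : Type} [CommRing A] {M : ℕ} (x : Fin M → A) (y : A) (v : Fin (M + 1) → ℤ) (p : ℕ) : ℕ :=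
  Nat.card {ψ : A →+* ZMod p // ((v 0 : ℤ) : ZMod p) + ∑ j : Fin M, ((v j.succ : ℤ) : ZMod p) * ψ (x j) = ψ y}

/-- The normalised deviation `(N - #W / p) / p ^ (m / 2)`, where `N` is the number `secN` of the points of the section and
`#W` is the number of the points of `W = Spec A` over the field with `p` elements. -/
noncomputable def dev {A : Type} [CommRing A] {M : ℕ} (m : ℕ) (x : Fin M → A) (y : A) (v : Fin (M + 1) → ℤ) (p : ℕ) : ℝ :=
  ((secN x y v p : ℝ) - (Nat.card (A →+* ZMod p) : ℝ) / p) / √((p : ℝ) ^ m)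

/-- For all primes `p` the scheme `Spec A` has at most `B p ^ (m + 1)` points over the field with `p` elements, and at most
`B` of these points have the same values of the functions `x j` and `y`. -/
def Bounded {A : Type} [CommRing A] {M : ℕ} (B m : ℕ) (x : Fin M → A) (y : A) : Prop := ∀ p : ℕ, p.Prime →
  Finite (A →+* ZMod p) ∧ Nat.card (A →+* ZMod p) ≤ B * p ^ (m + 1) ∧
    ∀ (s : Fin M → ZMod p) (z : ZMod p), Nat.card {ψ : A →+* ZMod p // (∀ j, ψ (x j) = s j) ∧ ψ y = z} ≤ B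

/-- affine space with all linear forms, and any polynomial -/
lemma bounded_affine (m : ℕ) (y : MvPolynomial (Fin (m + 1)) ℤ) : Bounded 1 m (fun j => MvPolynomial.X j) y := by
  intro p hp
  have hF : Fact p.Prime := ⟨hp⟩
  have hinj : Function.Injective (fun (ψ : MvPolynomial (Fin (m + 1)) ℤ →+* ZMod p) => fun j => ψ (MvPolynomial.X j)) := by
    intro ψ ψ' h
    apply MvPolynomial.ringHom_ext
    · intro n
      have : ψ.comp MvPolynomial.C = ψ'.comp MvPolynomial.C := RingHom.ext_int _ _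
      exact RingHom.congr_fun this n
    · intro j
      exact congrFun h j
  have hfin : Finite (MvPolynomial (Fin (m + 1)) ℤ →+* ZMod p) := Finite.of_injective _ hinj
  refine ⟨hfin, ?_, fun s z => ?_⟩
  · have h1 := Nat.card_le_card_of_injective _ hinj
    rw [Nat.card_eq_fintype_card (α := Fin (m + 1) → ZMod p), Fintype.card_fun, Fintype.card_fin, ZMod.card] at h1
    rw [one_mul]
    exact h1
  · rw [Finite.card_le_one_iff_subsingleton]
    constructor
    rintro ⟨ψ, h1, _⟩ ⟨ψ', h2, _⟩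
    apply Subtype.ext
    apply hinj
    funext j
    show ψ _ = ψ' _
    rw [h1 j, h2 j]

lemma hyp_dev {A : Type} [CommRing A] {M : ℕ} (B m : ℕ) (x : Fin M → A) (y : A) (h : Bounded B m x y) :
    Hyp (M + 1) ((B : ℝ) ^ 2) (fun p v => dev m x y v p) := by
  classical
  have key : ∀ p : ℕ, p.Prime → PerV (M + 1) p (fun v => dev m x y v p) ∧ meanV (M + 1) p (fun v => dev m x y v p) = 0 ∧
      meanV (M + 1) p (fun v => dev m x y v p ^ 2) ≤ (B : ℝ) ^ 2 := by
    intro p hp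
    have hF : Fact p.Prime := ⟨hp⟩
    obtain ⟨hfin, hcard, hfib⟩ := h p hp
    have hp0 : (0 : ℝ) < p := by exact_mod_cast hp.pos
    have hft : Fintype (A →+* ZMod p) := Fintype.ofFinite _
    obtain ⟨T, hT⟩ : ∃ T : Finset (A →+* ZMod p), T = univ := ⟨_, rfl⟩
    have hTc : (T.card : ℝ) = Nat.card (A →+* ZMod p) := by
      rw [hT, card_univ, Nat.card_eq_fintype_card]
    have hsec : ∀ v : Fin (M + 1) → ℤ, secN x y v p = NN p T (fun ψ j => ψ (x j)) (fun ψ => ψ y) (fun j => ((v j : ℤ) : ZMod p)) := by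
      intro v
      unfold secN NN
      rw [Nat.card_eq_fintype_card, Fintype.card_subtype, hT]
      rfl
    have hB : ∀ s z, (T.filter (fun ψ => (fun (ψ : A →+* ZMod p) j => ψ (x j)) ψ = s ∧ (fun ψ : A →+* ZMod p => ψ y) ψ = z)).card ≤ B := by
      intro s z
      refine le_trans (le_of_eq ?_) (hfib s z)
      rw [Nat.card_eq_fintype_card, Fintype.card_subtype, hT]
      congr 1
      ext ψ
      simp only [mem_filter, mem_univ, true_and, funext_iff]
    obtain ⟨h1, h2⟩ := mom2 p T (fun ψ j => ψ (x j)) (fun ψ => ψ y) B hB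
    have hq : 0 < √((p : ℝ) ^ m) := Real.sqrt_pos.2 (by positivity)
    have hdev : ∀ v : Fin (M + 1) → ℤ, dev m x y v p = (fun w : Fin (M + 1) → ZMod p =>
        (1 / √((p : ℝ) ^ m)) * ((NN p T (fun ψ j => ψ (x j)) (fun ψ => ψ y) w : ℝ) - T.card / p))
        (fun j => ((v j : ℤ) : ZMod p)) := by
      intro v
      show _ = (1 / √((p : ℝ) ^ m)) * ((NN p T (fun ψ j => ψ (x j)) (fun ψ => ψ y) (fun j => ((v j : ℤ) : ZMod p)) : ℝ) - T.card / p)
      unfold dev
      rw [← hsec, hTc]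
      ring
    refine ⟨?_, ?_, ?_⟩
    · intro v v' hv
      show dev m x y v p = dev m x y v' p
      rw [hdev, hdev]
      have : (fun j => ((v j : ℤ) : ZMod p)) = fun j => ((v' j : ℤ) : ZMod p) := by
        funext j
        rw [← sub_eq_zero, ← Int.cast_sub]
        exact (ZMod.intCast_zmod_eq_zero_iff_dvd _ p).2 (hv j)
      rw [this]
    · rw [meanV_av (M + 1) p _ (fun w : Fin (M + 1) → ZMod p =>
        (1 / √((p : ℝ) ^ m)) * ((NN p T (fun ψ j => ψ (x j)) (fun ψ => ψ y) w : ℝ) - T.card / p)) hdev, av_mul, h1, mul_zero]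
    · have hdev2 : ∀ v : Fin (M + 1) → ℤ, dev m x y v p ^ 2 = (fun w : Fin (M + 1) → ZMod p =>
          (1 / (p : ℝ) ^ m) * ((NN p T (fun ψ j => ψ (x j)) (fun ψ => ψ y) w : ℝ) - T.card / p) ^ 2)
          (fun j => ((v j : ℤ) : ZMod p)) := by
        intro v
        rw [hdev v]
        show ((1 / √((p : ℝ) ^ m)) * _) ^ 2 = _
        rw [mul_pow, div_pow, one_pow, Real.sq_sqrt (by positivity)]
      rw [meanV_av (M + 1) p _ (fun w : Fin (M + 1) → ZMod p =>
          (1 / (p : ℝ) ^ m) * ((NN p T (fun ψ j => ψ (x j)) (fun ψ => ψ y) w : ℝ) - T.card / p) ^ 2) hdev2, av_mul]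
      have h3 : B * ((T.card : ℝ) / p) ≤ (B : ℝ) ^ 2 * (p : ℝ) ^ m := by
        have h4 : (T.card : ℝ) ≤ B * (p : ℝ) ^ (m + 1) := by
          rw [hTc]
          exact_mod_cast hcard
        have h5 : (T.card : ℝ) / p ≤ B * (p : ℝ) ^ m := by
          rw [div_le_iff₀ hp0]
          refine h4.trans (le_of_eq ?_)
          rw [pow_succ]
          ring
        calc B * ((T.card : ℝ) / p) ≤ B * (B * (p : ℝ) ^ m) := mul_le_mul_of_nonneg_left h5 (Nat.cast_nonneg _)
          _ = _ := by ring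
      have h6 := h2.trans h3
      rw [one_div, inv_mul_le_iff₀ (by positivity)]
      linarith
  exact ⟨fun p hp => (key p hp).1, fun p hp => (key p hp).2.1, fun p hp => (key p hp).2.2⟩

theorem mainT (b : ℕ) (hb : 2 ≤ b) (η : ℝ) (hη : 0 < η) (δ : ℝ) (hδ : 0 < δ) (hδ1 : δ ≤ 1 / 2) : ∃ W : ℕ, 1 ≤ W ∧
    ∀ (M : ℕ) (κ : Fin (M + 1) → ℤ), (∀ j, κ j ≠ 0) → ∀ B : ℕ, ∃ (C : ℝ) (X₀ : ℕ), 0 < C ∧
    ∀ (A : Type) [CommRing A] (m : ℕ) (x : Fin M → A) (y : A), Bounded B m x y → ∀ k X : ℕ, X₀ ≤ X →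
    ∀ (c : Fin (M + 1) → ℤ) (u : Fin (M + 1) → ℕ → ℕ → ℝ), (∀ j, Dist b k η (u j)) →
    PrV b k u (fun g => ¬ CloseT δ X W (b ^ k) (dev m x y (fun j => c j + κ j * (dval b (g j) : ℕ)))) ≤
      C * (X : ℝ) ^ (-δ) := by
  obtain ⟨W, hW, H⟩ := allT b hb η hη δ hδ hδ1
  refine ⟨W, hW, fun M κ hκ B => ?_⟩
  obtain ⟨C, X₀, hC, H2⟩ := H (M + 1) κ hκ ((B : ℝ) ^ 2) (by positivity)
  refine ⟨C, X₀, hC, fun A _ m x y hB k X hX c u hu => ?_⟩
  exact H2 (fun p v => dev m x y v p) (hyp_dev B m x y hB) k X hX c u hu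

end Pool.Agent.R318.TT
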