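import Pool.Agent.R318.TT.G

/-! # The members of a linear system modulo `p`: mean value and second moment -/

set_option autoImplicit false

namespace Pool.Agent.R318.TT

open Finset Filter Pool.Agent.R459.Eq Pool.Agent.R318.ST Pool.Agent.R318.PR

section
variable (p : ℕ) [Fact p.Prime] {d : ℕ}

/-- the linear form with the coefficients `v` at the point `s` -/
def hom (s : Fin d → ZMod p) : (Fin d → ZMod p) →+ ZMod p where
  toFun v := ∑ j : Fin d, v j * s j
  map_zero' := by simp
  map_add' u v := by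
    simp only [Pi.add_apply, add_mul, sum_add_distrib]

lemma hom_apply (s v : Fin d → ZMod p) : hom p s v = ∑ j : Fin d, v j * s j := rfl

lemma hom_single (s : Fin d → ZMod p) (i : Fin d) (a : ZMod p) : hom p s (Pi.single i a) = a * s i := by
  rw [hom_apply, sum_eq_single i]
  · rw [Pi.single_eq_same]
  · intro j _ hj
    rw [Pi.single_eq_of_ne hj, zero_mul]
  · intro h
    exact absurd (mem_univ i) h

lemma hom_surj (s : Fin d → ZMod p) (hs : ∃ i, s i ≠ 0) : Function.Surjective (hom p s) := by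
  obtain ⟨i, hi⟩ := hs
  intro z
  refine ⟨Pi.single i (z / s i), ?_⟩
  rw [hom_single, div_mul_cancel₀ _ hi]

lemma hom2_surj (s s' : Fin d → ZMod p) (hs : ∃ i, s i ≠ 0) (h : ¬ ∃ l : ZMod p, ∀ j, s' j = l * s j) :
    Function.Surjective ((hom p s).prod (hom p s')) := by
  obtain ⟨i, hi⟩ := hs
  obtain ⟨j, hj⟩ : ∃ j, s' j ≠ s' i / s i * s j := by
    by_contra hcon
    push Not at hcon
    exact h ⟨s' i / s i, hcon⟩
  obtain ⟨D, hD⟩ : ∃ D, D = s i * s' j - s' i * s j := ⟨_, rfl⟩
  have hD0 : D ≠ 0 := by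
    intro h0
    apply hj
    rw [hD] at h0
    field_simp
    linear_combination h0
  rintro ⟨z, z'⟩
  refine ⟨Pi.single i ((z * s' j - z' * s j) / D) + Pi.single j ((s i * z' - s' i * z) / D), ?_⟩
  show (hom p s _, hom p s' _) = (z, z')
  rw [map_add, map_add, hom_single, hom_single, hom_single, hom_single, Prod.mk.injEq]
  constructor
  · field_simp
    rw [hD]
    ring
  · field_simp
    rw [hD]
    ring

/-- the number of the points on the member of the linear system -/
def LL {α : Type} (T : Finset α) (xs : α → Fin d → ZMod p) (ys : α → ZMod p) (v : Fin d → ZMod p) : ℕ :=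
  (T.filter (fun t => hom p (xs t) v = ys t)).card

open Classical in
theorem mom3 {α : Type} (T : Finset α) (xs : α → Fin d → ZMod p) (ys : α → ZMod p) (R : ℕ)
    (hT : ∀ t ∈ T, ∃ i, xs t i ≠ 0)
    (hB : ∑ t ∈ T, (T.filter (fun t' => ∃ l : ZMod p, (∀ j, xs t' j = l * xs t j) ∧ ys t' = l * ys t)).card ≤ R) :
    av (fun v => (LL p T xs ys v : ℝ) - T.card / p) = 0 ∧
      av (fun v => ((LL p T xs ys v : ℝ) - T.card / p) ^ 2) ≤ R / p := by
  have hp0 : (0 : ℝ) < p := by exact_mod_cast (Fact.out : p.Prime).pos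
  have hN : ∀ v, (LL p T xs ys v : ℝ) = ∑ t ∈ T, if hom p (xs t) v = ys t then (1 : ℝ) else 0 := by
    intro v
    unfold LL
    rw [sum_boole]
  have h1 : av (fun v => (LL p T xs ys v : ℝ)) = T.card / p := by
    simp only [hN]
    have h0 : ∀ t ∈ T, av (fun v => if hom p (xs t) v = ys t then (1 : ℝ) else 0) = 1 / (p : ℝ) := by
      intro t ht
      have h6 := av_fib (hom p (xs t)) (hom_surj p (xs t) (hT t ht)) (ys t)
      rw [ZMod.card] at h6
      convert h6 using 3
    rw [av_sum, sum_congr rfl h0, sum_const, nsmul_eq_mul]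
    ring
  have h2 : av (fun v => (LL p T xs ys v : ℝ) ^ 2) ≤ (T.card / p) ^ 2 + R / p := by
    have e1 : (fun v => (LL p T xs ys v : ℝ) ^ 2) = fun v => ∑ t ∈ T, ∑ t' ∈ T,
        (if hom p (xs t) v = ys t then (1 : ℝ) else 0) * (if hom p (xs t') v = ys t' then (1 : ℝ) else 0) := by
      funext v
      rw [hN, sq, sum_mul_sum]
    rw [e1, av_sum]
    have h3 : ∀ t ∈ T, av (fun v => ∑ t' ∈ T, (if hom p (xs t) v = ys t then (1 : ℝ) else 0) *
        (if hom p (xs t') v = ys t' then (1 : ℝ) else 0)) ≤ T.card * (1 / (p : ℝ) ^ 2) +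
        ((T.filter (fun t' => ∃ l : ZMod p, (∀ j, xs t' j = l * xs t j) ∧ ys t' = l * ys t)).card : ℝ) * (1 / p) := by
      intro t ht
      rw [av_sum]
      have h4 : ∀ t' ∈ T, av (fun v => (if hom p (xs t) v = ys t then (1 : ℝ) else 0) *
          (if hom p (xs t') v = ys t' then (1 : ℝ) else 0)) ≤
          1 / (p : ℝ) ^ 2 + (if (∃ l : ZMod p, (∀ j, xs t' j = l * xs t j) ∧ ys t' = l * ys t) then 1 / (p : ℝ) else 0) := by
        intro t' _
        by_cases hx : ∃ l : ZMod p, ∀ j, xs t' j = l * xs t j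
        · obtain ⟨l, hl⟩ := hx
          have hhom : ∀ v, hom p (xs t') v = l * hom p (xs t) v := by
            intro v
            rw [hom_apply, hom_apply, mul_sum]
            apply sum_congr rfl
            intro j _
            rw [hl j]
            ring
          by_cases hy : ys t' = l * ys t
          · rw [if_pos ⟨l, hl, hy⟩]
            have e2 : (fun v => (if hom p (xs t) v = ys t then (1 : ℝ) else 0) *
                (if hom p (xs t') v = ys t' then (1 : ℝ) else 0)) = fun v => if hom p (xs t) v = ys t then (1 : ℝ) else 0 := by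
              funext v
              by_cases h5 : hom p (xs t) v = ys t
              · rw [if_pos h5, if_pos (by rw [hhom, h5, hy]), mul_one]
              · rw [if_neg h5, zero_mul]
            have h6 := av_fib (hom p (xs t)) (hom_surj p (xs t) (hT t ht)) (ys t)
            rw [ZMod.card] at h6
            have e3 : av (fun v => if hom p (xs t) v = ys t then (1 : ℝ) else 0) = 1 / (p : ℝ) := by
              convert h6 using 3
            rw [e2, e3]
            have : 0 ≤ 1 / (p : ℝ) ^ 2 := by positivity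
            linarith
          · have e2 : (fun v => (if hom p (xs t) v = ys t then (1 : ℝ) else 0) *
                (if hom p (xs t') v = ys t' then (1 : ℝ) else 0)) = fun v => 0 * (if hom p (xs t) v = ys t then (1 : ℝ) else 0) := by
              funext v
              by_cases h5 : hom p (xs t) v = ys t
              · rw [if_pos h5, if_neg (fun h6 => hy (by rw [← h6, hhom, h5]))]
                ring
              · rw [if_neg h5]
                ring
            rw [e2, av_mul, zero_mul]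
            have : 0 ≤ 1 / (p : ℝ) ^ 2 := by positivity
            split_ifs <;> positivity
        · have hne : ¬ ∃ l : ZMod p, (∀ j, xs t' j = l * xs t j) ∧ ys t' = l * ys t := fun ⟨l, hl, _⟩ => hx ⟨l, hl⟩
          rw [if_neg hne, add_zero]
          have e2 : (fun v => (if hom p (xs t) v = ys t then (1 : ℝ) else 0) *
                (if hom p (xs t') v = ys t' then (1 : ℝ) else 0)) =
              fun v => if ((hom p (xs t)).prod (hom p (xs t'))) v = (ys t, ys t') then (1 : ℝ) else 0 := by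
            funext v
            have e3 : ((hom p (xs t)).prod (hom p (xs t'))) v = (hom p (xs t) v, hom p (xs t') v) := rfl
            rw [e3]
            simp only [Prod.mk.injEq]
            by_cases h5 : hom p (xs t) v = ys t
            · by_cases h6 : hom p (xs t') v = ys t'
              · rw [if_pos h5, if_pos h6, if_pos ⟨h5, h6⟩, mul_one]
              · rw [if_pos h5, if_neg h6, if_neg (fun h => h6 h.2), mul_zero]
            · rw [if_neg h5, zero_mul, if_neg (fun h => h5 h.1)]
          have h6 := av_fib _ (hom2_surj p _ _ (hT t ht) hx) (ys t, ys t')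
          rw [Fintype.card_prod, ZMod.card] at h6
          have e4 : av (fun v => if ((hom p (xs t)).prod (hom p (xs t'))) v = (ys t, ys t') then (1 : ℝ) else 0) =
              1 / ((p * p : ℕ) : ℝ) := by
            convert h6 using 3
          rw [e2, e4]
          apply le_of_eq
          push_cast
          rw [sq]
      refine (sum_le_sum h4).trans ?_
      rw [sum_add_distrib, sum_const, nsmul_eq_mul, ← sum_filter, sum_const, nsmul_eq_mul]
    refine (sum_le_sum h3).trans ?_
    rw [sum_add_distrib, sum_const, nsmul_eq_mul, ← sum_mul]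
    have h5 : ∑ t ∈ T, ((T.filter (fun t' => ∃ l : ZMod p, (∀ j, xs t' j = l * xs t j) ∧ ys t' = l * ys t)).card : ℝ) ≤ R := by
      exact_mod_cast hB
    have h6 := mul_le_mul_of_nonneg_right h5 (by positivity : 0 ≤ 1 / (p : ℝ))
    have h7 : (T.card : ℝ) * (T.card * (1 / (p : ℝ) ^ 2)) = (T.card / p) ^ 2 := by
      field_simp
    have h8 : (R : ℝ) * (1 / p) = R / p := by ring
    linarith
  have hne : Nonempty (Fin d → ZMod p) := ⟨fun _ => 0⟩
  constructor
  · have e : (fun v => (LL p T xs ys v : ℝ) - T.card / p) = fun v => (LL p T xs ys v : ℝ) - (T.card / p) * (1 : ℝ) := by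
      funext v
      ring
    rw [e, av_sub, h1, av_mul, av_one]
    ring
  · have e : (fun v => ((LL p T xs ys v : ℝ) - T.card / p) ^ 2) = fun v => ((LL p T xs ys v : ℝ) ^ 2 -
        (2 * (T.card / p)) * (LL p T xs ys v : ℝ)) + ((T.card / p) ^ 2) * (1 : ℝ) := by
      funext v
      ring
    rw [e, av_add, av_sub, av_mul, av_mul, av_one, h1]
    nlinarith

end

/-- The number of the points `ψ` of `Spec A` over the field with `p` elements (ring homomorphisms to `ZMod p`), not all
functions `x j` being zero at `ψ`, with `∑ v j x j = y`. -/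
noncomputable def memN {A : Type} [CommRing A] {d : ℕ} (x : Fin d → A) (y : A) (v : Fin d → ℤ) (p : ℕ) : ℕ :=
  Nat.card {ψ : A →+* ZMod p // (∃ j, ψ (x j) ≠ 0) ∧ ∑ j : Fin d, ((v j : ℤ) : ZMod p) * ψ (x j) = ψ y}

/-- The number of the points of `Spec A` over the field with `p` elements, not all functions `x j` being zero. -/
noncomputable def allN {A : Type} [CommRing A] {d : ℕ} (x : Fin d → A) (p : ℕ) : ℕ :=
  Nat.card {ψ : A →+* ZMod p // ∃ j, ψ (x j) ≠ 0}

/-- The normalised deviation `(N - n / p) / p ^ (m / 2)`, where `N` is `memN` and `n` is `allN`. -/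
noncomputable def devL {A : Type} [CommRing A] {d : ℕ} (m : ℕ) (x : Fin d → A) (y : A) (v : Fin d → ℤ) (p : ℕ) : ℝ :=
  ((memN x y v p : ℝ) - (allN x p : ℝ) / p) / √((p : ℝ) ^ m)

/-- For all primes `p` the scheme `Spec A` has a finite number of points over the field with `p` elements, and the number of
the pairs of points outside the common zeros of the `x j`, with the same image under the map to the projective space given by
the `x j` and `y`, is at most `B p ^ (m + 1)`. -/
def BoundedL {A : Type} [CommRing A] {d : ℕ} (B m : ℕ) (x : Fin d → A) (y : A) : Prop := ∀ p : ℕ, p.Prime →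
  Finite (A →+* ZMod p) ∧ Nat.card {q : (A →+* ZMod p) × (A →+* ZMod p) // (∃ j, q.1 (x j) ≠ 0) ∧ (∃ j, q.2 (x j) ≠ 0) ∧
    ∃ l : ZMod p, (∀ j, q.2 (x j) = l * q.1 (x j)) ∧ q.2 y = l * q.1 y} ≤ B * p ^ (m + 1)

lemma hyp_devL {A : Type} [CommRing A] {d : ℕ} (B m : ℕ) (x : Fin d → A) (y : A) (h : BoundedL B m x y) :
    Hyp d (B : ℝ) (fun p v => devL m x y v p) := by
  classical
  have key : ∀ p : ℕ, p.Prime → PerV d p (fun v => devL m x y v p) ∧ meanV d p (fun v => devL m x y v p) = 0 ∧
      meanV d p (fun v => devL m x y v p ^ 2) ≤ (B : ℝ) := by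
    intro p hp
    have hF : Fact p.Prime := ⟨hp⟩
    obtain ⟨hfin, hcard⟩ := h p hp
    have hp0 : (0 : ℝ) < p := by exact_mod_cast hp.pos
    have hft : Fintype (A →+* ZMod p) := Fintype.ofFinite _
    obtain ⟨T, hT⟩ : ∃ T : Finset (A →+* ZMod p), T = univ.filter (fun ψ => ∃ j, ψ (x j) ≠ 0) := ⟨_, rfl⟩
    have hTc : (T.card : ℝ) = allN x p := by
      unfold allN
      rw [hT, Nat.card_eq_fintype_card, Fintype.card_subtype]
    have hsec : ∀ v : Fin d → ℤ, memN x y v p = LL p T (fun ψ j => ψ (x j)) (fun ψ => ψ y) (fun j => ((v j : ℤ) : ZMod p)) := by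
      intro v
      unfold memN LL
      rw [Nat.card_eq_fintype_card, Fintype.card_subtype, hT, filter_filter]
      rfl
    have hB : ∑ φ ∈ T, (T.filter (fun ψ => ∃ l : ZMod p, (∀ j, (fun (ψ : A →+* ZMod p) j => ψ (x j)) ψ j =
        l * (fun (ψ : A →+* ZMod p) j => ψ (x j)) φ j) ∧ (fun ψ : A →+* ZMod p => ψ y) ψ =
        l * (fun ψ : A →+* ZMod p => ψ y) φ)).card ≤ B * p ^ (m + 1) := by
      refine le_trans (le_of_eq ?_) hcard
      rw [Nat.card_eq_fintype_card, Fintype.card_subtype]
      have e1 : ∀ φ ∈ T, (T.filter (fun ψ => ∃ l : ZMod p, (∀ j, (fun (ψ : A →+* ZMod p) j => ψ (x j)) ψ j =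
        l * (fun (ψ : A →+* ZMod p) j => ψ (x j)) φ j) ∧ (fun ψ : A →+* ZMod p => ψ y) ψ =
        l * (fun ψ : A →+* ZMod p => ψ y) φ)).card = ∑ ψ ∈ T, if (∃ l : ZMod p, (∀ j, ψ (x j) = l * φ (x j)) ∧
          ψ y = l * φ y) then 1 else 0 := by
        intro φ _
        rw [card_filter]
      rw [sum_congr rfl e1, ← sum_product', ← card_filter]
      congr 1
      ext q
      simp only [hT, mem_filter, mem_product, mem_univ, true_and, and_assoc]
    obtain ⟨h1, h2⟩ := mom3 p T (fun ψ j => ψ (x j)) (fun ψ => ψ y) (B * p ^ (m + 1)) (by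
      intro φ hφ
      rw [hT, mem_filter] at hφ
      exact hφ.2) hB
    have hq : 0 < √((p : ℝ) ^ m) := Real.sqrt_pos.2 (by positivity)
    have hdev : ∀ v : Fin d → ℤ, devL m x y v p = (fun w : Fin d → ZMod p =>
        (1 / √((p : ℝ) ^ m)) * ((LL p T (fun ψ j => ψ (x j)) (fun ψ => ψ y) w : ℝ) - T.card / p))
        (fun j => ((v j : ℤ) : ZMod p)) := by
      intro v
      show _ = (1 / √((p : ℝ) ^ m)) * ((LL p T (fun ψ j => ψ (x j)) (fun ψ => ψ y) (fun j => ((v j : ℤ) : ZMod p)) : ℝ) - T.card / p)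
      unfold devL
      rw [← hsec, hTc]
      ring
    refine ⟨?_, ?_, ?_⟩
    · intro v v' hv
      show devL m x y v p = devL m x y v' p
      rw [hdev, hdev]
      have : (fun j => ((v j : ℤ) : ZMod p)) = fun j => ((v' j : ℤ) : ZMod p) := by
        funext j
        rw [← sub_eq_zero, ← Int.cast_sub]
        exact (ZMod.intCast_zmod_eq_zero_iff_dvd _ p).2 (hv j)
      rw [this]
    · rw [meanV_av d p _ (fun w : Fin d → ZMod p =>
        (1 / √((p : ℝ) ^ m)) * ((LL p T (fun ψ j => ψ (x j)) (fun ψ => ψ y) w : ℝ) - T.card / p)) hdev, av_mul, h1, mul_zero]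
    · have hdev2 : ∀ v : Fin d → ℤ, devL m x y v p ^ 2 = (fun w : Fin d → ZMod p =>
          (1 / (p : ℝ) ^ m) * ((LL p T (fun ψ j => ψ (x j)) (fun ψ => ψ y) w : ℝ) - T.card / p) ^ 2)
          (fun j => ((v j : ℤ) : ZMod p)) := by
        intro v
        rw [hdev v]
        show ((1 / √((p : ℝ) ^ m)) * _) ^ 2 = _
        rw [mul_pow, div_pow, one_pow, Real.sq_sqrt (by positivity)]
      rw [meanV_av d p _ (fun w : Fin d → ZMod p =>
          (1 / (p : ℝ) ^ m) * ((LL p T (fun ψ j => ψ (x j)) (fun ψ => ψ y) w : ℝ) - T.card / p) ^ 2) hdev2, av_mul]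
      have h3 : ((B * p ^ (m + 1) : ℕ) : ℝ) / p = (B : ℝ) * (p : ℝ) ^ m := by
        push_cast
        rw [pow_succ]
        field_simp
      rw [h3] at h2
      rw [one_div, inv_mul_le_iff₀ (by positivity)]
      linarith
  exact ⟨fun p hp => (key p hp).1, fun p hp => (key p hp).2.1, fun p hp => (key p hp).2.2⟩

theorem mainL (b : ℕ) (hb : 2 ≤ b) (η : ℝ) (hη : 0 < η) (δ : ℝ) (hδ : 0 < δ) (hδ1 : δ ≤ 1 / 2) : ∃ W : ℕ, 1 ≤ W ∧
    ∀ (d : ℕ) (κ : Fin d → ℤ), (∀ j, κ j ≠ 0) → ∀ B : ℕ, ∃ (C : ℝ) (X₀ : ℕ), 0 < C ∧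
    ∀ (A : Type) [CommRing A] (m : ℕ) (x : Fin d → A) (y : A), BoundedL B m x y → ∀ k X : ℕ, X₀ ≤ X →
    ∀ (c : Fin d → ℤ) (u : Fin d → ℕ → ℕ → ℝ), (∀ j, Dist b k η (u j)) →
    PrV b k u (fun g => ¬ CloseT δ X W (b ^ k) (devL m x y (fun j => c j + κ j * (dval b (g j) : ℕ)))) ≤
      C * (X : ℝ) ^ (-δ) := by
  obtain ⟨W, hW, H⟩ := allT b hb η hη δ hδ hδ1
  refine ⟨W, hW, fun d κ hκ B => ?_⟩
  obtain ⟨C, X₀, hC, H2⟩ := H d κ hκ (B : ℝ) (by positivity)
  refine ⟨C, X₀, hC, fun A _ m x y hB k X hX c u hu => ?_⟩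
  exact H2 (fun p v => devL m x y v p) (hyp_devL B m x y hB) k X hX c u hu

end Pool.Agent.R318.TT
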