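import Pool.Agent.R318.TT.H
import Pool.Agent.R318.TT.I

/-! # Hyperplane sections as linear systems -/

set_option autoImplicit false

namespace Pool.Agent.R318.TT

open Finset Filter Pool.Agent.R459.Eq Pool.Agent.R318.ST Pool.Agent.R318.PR

/-- quasi-finite maps to the affine space -/
lemma boundedL_of {A : Type} [CommRing A] {M : ℕ} (B m : ℕ) (x : Fin M → A) (y : A) (h : Bounded B m x y) :
    BoundedL (B * B) m (Fin.cons 1 x : Fin (M + 1) → A) y := by
  classical
  intro p hp
  have hF : Fact p.Prime := ⟨hp⟩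
  obtain ⟨hfin, hcard, hfib⟩ := h p hp
  refine ⟨hfin, ?_⟩
  have hft : Fintype (A →+* ZMod p) := Fintype.ofFinite _
  rw [Nat.card_eq_fintype_card, Fintype.card_subtype, card_filter, Fintype.sum_prod_type]
  have h1 : ∀ φ ∈ (univ : Finset (A →+* ZMod p)), (∑ ψ : A →+* ZMod p,
      if (∃ j, (φ, ψ).1 ((Fin.cons 1 x : Fin (M + 1) → A) j) ≠ 0) ∧ (∃ j, (φ, ψ).2 ((Fin.cons 1 x : Fin (M + 1) → A) j) ≠ 0) ∧
        ∃ l : ZMod p, (∀ j, (φ, ψ).2 ((Fin.cons 1 x : Fin (M + 1) → A) j) = l * (φ, ψ).1 ((Fin.cons 1 x : Fin (M + 1) → A) j)) ∧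
          (φ, ψ).2 y = l * (φ, ψ).1 y then 1 else 0) ≤ B := by
    intro φ _
    rw [← card_filter]
    have hc := hfib (fun j => φ (x j)) (φ y)
    rw [Nat.card_eq_fintype_card, Fintype.card_subtype] at hc
    refine le_trans (card_le_card ?_) hc
    · intro ψ hψ
      rw [mem_filter] at hψ ⊢
      obtain ⟨_, _, _, l, h2, h3⟩ := hψ
      have hl : l = 1 := by
        have h4 := h2 0
        rw [Fin.cons_zero, map_one, map_one, mul_one] at h4
        exact h4.symm
      refine ⟨mem_univ _, fun j => ?_, ?_⟩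
      · have h4 := h2 j.succ
        rw [Fin.cons_succ, hl, one_mul] at h4
        exact h4
      · rw [hl, one_mul] at h3
        exact h3
  refine (sum_le_sum h1).trans ?_
  rw [sum_const, card_univ, smul_eq_mul, ← Nat.card_eq_fintype_card]
  calc Nat.card (A →+* ZMod p) * B ≤ (B * p ^ (m + 1)) * B := Nat.mul_le_mul_right _ hcard
    _ = B * B * p ^ (m + 1) := by ring

end Pool.Agent.R318.TT
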