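import Pool.Agent.R318.TT.G
import Pool.Agent.R318.LP.E

/-! # Families of curves over the affine plane, restricted to random curves in the plane -/

set_option autoImplicit false

namespace Pool.Agent.R318.TT

open Finset Filter Pool.Agent.R459.Eq Pool.Agent.R318.ST Pool.Agent.R318.PR Pool.Agent.R318.LP
open Pool.Agent.R318.SU (IsSq chi)

/-- `p` minus the number of the points `(x, y)` modulo `p` of the curve `y ^ 2 = ∑ u i x ^ i` -/
noncomputable def trF {n : ℕ} (u : Fin (n + 1) → ℤ) (p : ℕ) : ℝ :=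
  (p : ℝ) - (((range p ×ˢ range p).filter (fun xy : ℕ × ℕ =>
    (p : ℤ) ∣ (xy.2 : ℤ) ^ 2 - ∑ i : Fin (n + 1), u i * (xy.1 : ℤ) ^ (i : ℕ))).card : ℝ)

/-- the average of `trF` over the fibres above the points `(t, β t)`, `t` modulo `p`, of the curve with the coefficients `a i`
in `ℤ[T, Z]` -/
noncomputable def nag1 {n : ℕ} (a : Fin (n + 1) → MvPolynomial (Fin 2) ℤ) (β : Polynomial ℤ) (p : ℕ) : ℝ :=
  (1 / (p : ℝ)) * ∑ t ∈ range p, trF (fun i => MvPolynomial.eval ![(t : ℤ), β.eval (t : ℤ)] (a i)) p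

/-- the average of `trF` over the fibres above all points `(t, z)` modulo `p` -/
noncomputable def nag2 {n : ℕ} (a : Fin (n + 1) → MvPolynomial (Fin 2) ℤ) (p : ℕ) : ℝ :=
  (1 / (p : ℝ)) * ∑ t ∈ range p, (1 / (p : ℝ)) * ∑ z ∈ range p, trF (fun i => MvPolynomial.eval ![(t : ℤ), (z : ℤ)] (a i)) p

section
variable (p : ℕ) [hpF : Fact p.Prime]

lemma av_comp {V G : Type} [AddCommGroup V] [Fintype V] [AddCommGroup G] [Fintype G] (φ : V →+ G)
    (h : Function.Surjective φ) (F : G → ℝ) : av (fun v => F (φ v)) = av F := by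
  classical
  have e : (fun v => F (φ v)) = fun v => ∑ z : G, F z * (if φ v = z then (1 : ℝ) else 0) := by
    funext v
    simp
  rw [e, av_sum]
  have h1 : ∀ z ∈ (univ : Finset G), av (fun v => F z * (if φ v = z then (1 : ℝ) else 0)) = F z * (1 / Fintype.card G) := by
    intro z _
    rw [av_mul, av_fib φ h z]
  rw [sum_congr rfl h1, ← sum_mul]
  unfold av
  ring

lemma av_prod (f g : ZMod p → ℝ) : av (fun w : ZMod p × ZMod p => f w.1 * g w.2) = av f * av g := by
  unfold av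
  rw [Fintype.sum_prod_type, Fintype.card_prod]
  simp only [← mul_sum, ← sum_mul]
  push_cast
  rw [div_mul_div_comm]

lemma av_shift (f : ZMod p → ℝ) (c : ZMod p) : av (fun z => f (c + z)) = av f := by
  unfold av
  congr 1
  exact Fintype.sum_equiv (Equiv.addLeft c) _ _ fun z => rfl

lemma av_var (f : ZMod p → ℝ) : av (fun z => (f z - av f) ^ 2) ≤ av (fun z => f z ^ 2) := by
  have e : (fun z => (f z - av f) ^ 2) = fun z => (f z ^ 2 - (2 * av f) * f z) + ((av f) ^ 2) * (1 : ℝ) := by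
    funext z
    ring
  rw [e, av_add, av_sub, av_mul, av_mul, av_one]
  nlinarith [sq_nonneg (av f)]

theorem mom4 (φ : ZMod p → ZMod p → ℝ) (β : ZMod p → ZMod p) :
    av (fun v : Fin 2 → ZMod p => ∑ t : ZMod p, (φ t (β t + lin p (fun _ : Fin 1 => t) v) - av (φ t))) = 0 ∧
    av (fun v : Fin 2 → ZMod p => (∑ t : ZMod p, (φ t (β t + lin p (fun _ : Fin 1 => t) v) - av (φ t))) ^ 2) ≤
      ∑ t : ZMod p, av (fun z => φ t z ^ 2) := by
  classical
  have hmean : ∀ t : ZMod p, av (fun z => φ t (β t + z) - av (φ t)) = 0 := by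
    intro t
    have e : (fun z => φ t (β t + z) - av (φ t)) = fun z => φ t (β t + z) - (av (φ t)) * (1 : ℝ) := by
      funext z
      ring
    rw [e, av_sub, av_shift p (φ t) (β t), av_mul, av_one]
    ring
  constructor
  · rw [av_sum]
    apply sum_eq_zero
    intro t _
    have := av_comp (lin p (fun _ : Fin 1 => t)) (lin_surj p _) (fun z => φ t (β t + z) - av (φ t))
    rw [this]
    exact hmean t
  · have e1 : (fun v : Fin 2 → ZMod p => (∑ t : ZMod p, (φ t (β t + lin p (fun _ : Fin 1 => t) v) - av (φ t))) ^ 2) =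
        fun v => ∑ t : ZMod p, ∑ t' : ZMod p, (φ t (β t + lin p (fun _ : Fin 1 => t) v) - av (φ t)) *
          (φ t' (β t' + lin p (fun _ : Fin 1 => t') v) - av (φ t')) := by
      funext v
      rw [sq, sum_mul_sum]
    rw [e1, av_sum]
    apply sum_le_sum
    intro t _
    rw [av_sum]
    have h1 : ∀ t' ∈ (univ : Finset (ZMod p)), av (fun v => (φ t (β t + lin p (fun _ : Fin 1 => t) v) - av (φ t)) *
          (φ t' (β t' + lin p (fun _ : Fin 1 => t') v) - av (φ t'))) ≤ if t = t' then av (fun z => φ t z ^ 2) else 0 := by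
      intro t' _
      by_cases h : t = t'
      · subst h
        rw [if_pos rfl]
        have e2 : (fun v : Fin 2 → ZMod p => (φ t (β t + lin p (fun _ : Fin 1 => t) v) - av (φ t)) *
            (φ t (β t + lin p (fun _ : Fin 1 => t) v) - av (φ t))) =
            fun v => (fun z => (φ t (β t + z) - av (φ t)) ^ 2) (lin p (fun _ : Fin 1 => t) v) := by
          funext v
          show _ = (φ t (β t + lin p (fun _ : Fin 1 => t) v) - av (φ t)) ^ 2
          ring
        rw [e2, av_comp (lin p (fun _ : Fin 1 => t)) (lin_surj p _) (fun z => (φ t (β t + z) - av (φ t)) ^ 2)]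
        have h2 := av_shift p (fun z => (φ t z - av (φ t)) ^ 2) (β t)
        rw [h2]
        exact av_var p (φ t)
      · rw [if_neg h]
        have hs : (fun _ : Fin 1 => t) ≠ (fun _ : Fin 1 => t') := fun hc => h (congrFun hc 0)
        have h2 := av_comp _ (lin2_surj p _ _ hs) (fun w : ZMod p × ZMod p => (φ t (β t + w.1) - av (φ t)) *
          (φ t' (β t' + w.2) - av (φ t')))
        have h3 := av_prod p (fun z => φ t (β t + z) - av (φ t)) (fun z => φ t' (β t' + z) - av (φ t'))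
        rw [h3, hmean t, zero_mul] at h2
        exact le_of_eq h2
    refine (sum_le_sum h1).trans ?_
    rw [sum_ite_eq, if_pos (mem_univ _)]

/-- the version of `trF` for coefficients modulo `p` -/
noncomputable def trZ {n : ℕ} (w : Fin (n + 1) → ZMod p) : ℝ :=
  (p : ℝ) - (((univ : Finset (ZMod p × ZMod p)).filter (fun xy => xy.2 ^ 2 = ∑ i : Fin (n + 1), w i * xy.1 ^ (i : ℕ))).card : ℝ)

lemma trF_eq {n : ℕ} (u : Fin (n + 1) → ℤ) : trF u p = trZ p (fun i => ((u i : ℤ) : ZMod p)) := by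
  classical
  unfold trF trZ
  congr 2
  rw [card_filter, card_filter, sum_product, Fintype.sum_prod_type, ← sum_rangeZ p]
  apply sum_congr rfl
  intro x _
  rw [← sum_rangeZ p]
  apply sum_congr rfl
  intro y _
  have h1 : ((p : ℤ) ∣ (y : ℤ) ^ 2 - ∑ i : Fin (n + 1), u i * (x : ℤ) ^ (i : ℕ)) ↔
      ((y : ℕ) : ZMod p) ^ 2 = ∑ i : Fin (n + 1), ((u i : ℤ) : ZMod p) * ((x : ℕ) : ZMod p) ^ (i : ℕ) := by
    rw [← ZMod.intCast_zmod_eq_zero_iff_dvd]
    push_cast
    rw [sub_eq_zero]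
  by_cases h : (p : ℤ) ∣ (y : ℤ) ^ 2 - ∑ i : Fin (n + 1), u i * (x : ℤ) ^ (i : ℕ)
  · rw [if_pos h, if_pos (h1.1 h)]
  · rw [if_neg h, if_neg (fun h2 => h (h1.2 h2))]

lemma trZ_TT {n : ℕ} (h3 : 3 ≤ p) (w : Fin (n + 1) → ZMod p) : trZ p w = - TT (ZMod p) w := by
  classical
  have h1 : ∀ x : ZMod p, Polynomial.aeval x (evp w) = ∑ j : Fin (n + 1), w j * x ^ (j : ℕ) := by
    intro x
    unfold evp
    rw [map_sum]
    apply sum_congr rfl
    intro j _
    rw [map_mul, map_pow, Polynomial.aeval_X, Polynomial.aeval_C]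
    rfl
  have hrc : ringChar (ZMod p) ≠ 2 := by
    rw [ZMod.ringChar_zmod_n]
    omega
  have h4 : ∀ x : ZMod p, ((univ.filter (fun y : ZMod p => y ^ 2 = Polynomial.aeval x (evp w))).card : ℝ) =
      chi (Polynomial.aeval x (evp w)) + 1 := by
    intro x
    have h := quadraticChar_card_sqrts (F := ZMod p) hrc (Polynomial.aeval x (evp w))
    unfold chi
    have h5 : (((univ.filter (fun y : ZMod p => y ^ 2 = Polynomial.aeval x (evp w))).card : ℤ)) =
        quadraticChar (ZMod p) (Polynomial.aeval x (evp w)) + 1 := by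
      rw [← h]
      congr 1
      apply congrArg
      ext z
      simp only [mem_filter, mem_univ, true_and, Set.mem_toFinset, Set.mem_ofPred_eq]
    exact_mod_cast h5
  have h2 : ((univ : Finset (ZMod p × ZMod p)).filter (fun xy => xy.2 ^ 2 = ∑ i : Fin (n + 1), w i * xy.1 ^ (i : ℕ))).card =
      ∑ x : ZMod p, (univ.filter (fun y : ZMod p => y ^ 2 = Polynomial.aeval x (evp w))).card := by
    rw [card_filter, Fintype.sum_prod_type]
    apply sum_congr rfl
    intro x _
    rw [card_filter]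
    apply sum_congr rfl
    intro y _
    simp only [h1]
  unfold trZ
  rw [h2]
  push_cast
  rw [sum_congr rfl fun x _ => h4 x, sum_add_distrib, sum_const, card_univ, ZMod.card, nsmul_eq_mul, mul_one]
  unfold TT
  ring

lemma chi_abs (x : ZMod p) : |chi x| ≤ 1 := by
  unfold chi
  rcases eq_or_ne x 0 with h | h
  · rw [h]
    simp
  · rcases quadraticChar_dichotomy h with h1 | h1 <;> rw [h1] <;> simp

lemma trZ_le {n : ℕ} (w : Fin (n + 1) → ZMod p) : |trZ p w| ≤ p := by
  classical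
  rcases Nat.lt_or_ge 2 p with h3 | h3
  · rw [trZ_TT p h3 w, abs_neg]
    unfold TT
    refine (abs_sum_le_sum_abs _ _).trans ((sum_le_card_nsmul _ _ 1 fun x _ => chi_abs p _).trans ?_)
    rw [card_univ, ZMod.card, nsmul_eq_mul, mul_one]
  · have hp2 : p = 2 := le_antisymm h3 hpF.out.two_le
    unfold trZ
    have h4 : ((((univ : Finset (ZMod p × ZMod p)).filter (fun xy => xy.2 ^ 2 = ∑ i : Fin (n + 1), w i * xy.1 ^ (i : ℕ))).card : ℕ) : ℝ) ≤
        (p : ℝ) * p := by
      have h5 := card_filter_le (univ : Finset (ZMod p × ZMod p)) (fun xy => xy.2 ^ 2 = ∑ i : Fin (n + 1), w i * xy.1 ^ (i : ℕ))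
      rw [card_univ, Fintype.card_prod, ZMod.card] at h5
      exact_mod_cast h5
    have h6 : (0 : ℝ) ≤ ((((univ : Finset (ZMod p × ZMod p)).filter (fun xy => xy.2 ^ 2 = ∑ i : Fin (n + 1), w i * xy.1 ^ (i : ℕ))).card : ℕ) : ℝ) :=
      Nat.cast_nonneg _
    have h7 : (p : ℝ) = 2 := by rw [hp2]; norm_num
    rw [h7] at h4 ⊢
    rw [abs_le]
    constructor <;> linarith

lemma trZ_weil {n : ℕ} (h3 : 3 ≤ p) (w : Fin (n + 1) → ZMod p) (hw : ¬ IsSq w) : trZ p w ^ 2 ≤ 4 * n ^ 2 * p := by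
  have hp0 : (0 : ℝ) < p := by exact_mod_cast hpF.out.pos
  have h1 := TT_ns (K := ZMod p) h3 (le_refl 1) (by rw [ZMod.card, pow_one]) w hw
  rw [pow_one] at h1
  have hs : 0 < √(p : ℝ) := Real.sqrt_pos.2 hp0
  rw [abs_div, abs_of_pos hs, div_le_iff₀ hs] at h1
  rw [trZ_TT p h3 w, neg_sq, ← sq_abs]
  refine (pow_le_pow_left₀ (abs_nonneg _) h1 2).trans (le_of_eq ?_)
  rw [mul_pow, Real.sq_sqrt hp0.le]
  ring

end

/-- the coefficients modulo `p` -/
def cfZ {n : ℕ} (a : Fin (n + 1) → MvPolynomial (Fin 2) ℤ) (p : ℕ) (t z : ZMod p) : Fin (n + 1) → ZMod p :=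
  fun i => (a i).eval₂ (Int.castRingHom (ZMod p)) ![t, z]

/-- For all odd primes `p` there are at most `D p` points `(t, z)` modulo `p` for which the polynomial with the coefficients
`a i` at the point `(t, z)` is modulo `p` a constant times a square. -/
def FewSq {n : ℕ} (D : ℕ) (a : Fin (n + 1) → MvPolynomial (Fin 2) ℤ) : Prop := ∀ p : ℕ, p.Prime → 3 ≤ p →
  Nat.card {q : ZMod p × ZMod p // ∃ (c : ZMod p) (h : Polynomial (ZMod p)),
    ∑ i : Fin (n + 1), Polynomial.C (cfZ a p q.1 q.2 i) * Polynomial.X ^ (i : ℕ) = Polynomial.C c * h ^ 2} ≤ D * p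

lemma cast_eval {n : ℕ} (a : Fin (n + 1) → MvPolynomial (Fin 2) ℤ) (p : ℕ) (t z : ℤ) (i : Fin (n + 1)) :
    ((MvPolynomial.eval ![t, z] (a i) : ℤ) : ZMod p) = cfZ a p (t : ZMod p) (z : ZMod p) i := by
  have h := MvPolynomial.eval₂_comp_left (Int.castRingHom (ZMod p)) (RingHom.id ℤ) ![t, z] (a i)
  unfold cfZ
  have e1 : MvPolynomial.eval ![t, z] (a i) = MvPolynomial.eval₂ (RingHom.id ℤ) ![t, z] (a i) := rfl
  rw [e1]
  have e2 : ((MvPolynomial.eval₂ (RingHom.id ℤ) ![t, z] (a i) : ℤ) : ZMod p) =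
      (Int.castRingHom (ZMod p)) (MvPolynomial.eval₂ (RingHom.id ℤ) ![t, z] (a i)) := rfl
  rw [e2, h, RingHom.comp_id]
  congr 1
  funext j
  fin_cases j <;> rfl

/-- the deviation -/
noncomputable def devN {n : ℕ} (a : Fin (n + 1) → MvPolynomial (Fin 2) ℤ) (β : Polynomial ℤ) (v : Fin 2 → ℤ) (p : ℕ) : ℝ :=
  nag1 a (β + Polynomial.C (v 0) + Polynomial.C (v 1) * Polynomial.X) p - nag2 a p

lemma hyp_devN {n : ℕ} (D : ℕ) (a : Fin (n + 1) → MvPolynomial (Fin 2) ℤ) (h : FewSq D a) (β : Polynomial ℤ) :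
    Hyp 2 (4 * (n : ℝ) ^ 2 + D + 4) (fun p v => devN a β v p) := by
  classical
  have key : ∀ p : ℕ, p.Prime → PerV 2 p (fun v => devN a β v p) ∧ meanV 2 p (fun v => devN a β v p) = 0 ∧
      meanV 2 p (fun v => devN a β v p ^ 2) ≤ 4 * (n : ℝ) ^ 2 + D + 4 := by
    intro p hp
    have hF : Fact p.Prime := ⟨hp⟩
    have hp0 : (0 : ℝ) < p := by exact_mod_cast hp.pos
    obtain ⟨φ, hφ⟩ : ∃ φ : ZMod p → ZMod p → ℝ, φ = fun t z => trZ p (cfZ a p t z) := ⟨_, rfl⟩
    obtain ⟨βp, hβp⟩ : ∃ βp : ZMod p → ZMod p, βp = fun t => β.eval₂ (Int.castRingHom (ZMod p)) t := ⟨_, rfl⟩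
    have hφe : ∀ t z : ℤ, trF (fun i => MvPolynomial.eval ![t, z] (a i)) p = φ (t : ZMod p) (z : ZMod p) := by
      intro t z
      rw [trF_eq p, hφ]
      congr 1
      funext i
      exact cast_eval a p t z i
    have hβe : ∀ t : ℤ, ((β.eval t : ℤ) : ZMod p) = βp (t : ZMod p) := by
      intro t
      rw [hβp]
      show ((Polynomial.eval t β : ℤ) : ZMod p) = Polynomial.eval₂ (Int.castRingHom (ZMod p)) ((Int.castRingHom (ZMod p)) t) β
      rw [Polynomial.eval₂_at_apply]
      rfl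
    have e2 : nag2 a p = (1 / (p : ℝ)) * ∑ t : ZMod p, av (φ t) := by
      unfold nag2
      congr 1
      rw [← sum_rangeZ p]
      apply sum_congr rfl
      intro t _
      unfold av
      rw [ZMod.card, ← sum_rangeZ p, one_div, inv_mul_eq_div]
      congr 1
      apply sum_congr rfl
      intro z _
      have := hφe (t : ℤ) (z : ℤ)
      push_cast at this
      exact this
    have e1 : ∀ v : Fin 2 → ℤ, nag1 a (β + Polynomial.C (v 0) + Polynomial.C (v 1) * Polynomial.X) p =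
        (1 / (p : ℝ)) * ∑ t : ZMod p, φ t (βp t + lin p (fun _ : Fin 1 => t) (fun j => ((v j : ℤ) : ZMod p))) := by
      intro v
      unfold nag1
      congr 1
      rw [← sum_rangeZ p]
      apply sum_congr rfl
      intro t _
      have h1 := hφe (t : ℤ) ((β + Polynomial.C (v 0) + Polynomial.C (v 1) * Polynomial.X).eval (t : ℤ))
      rw [h1]
      push_cast
      congr 1
      rw [Polynomial.eval_add, Polynomial.eval_add, Polynomial.eval_mul, Polynomial.eval_C, Polynomial.eval_C,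
        Polynomial.eval_X]
      push_cast
      have h2 := hβe (t : ℤ)
      push_cast at h2
      rw [h2]
      show _ = βp (t : ZMod p) + (((v 0 : ℤ) : ZMod p) + ∑ j : Fin 1, ((v j.succ : ℤ) : ZMod p) * (t : ZMod p))
      rw [Fin.sum_univ_one]
      show _ = βp (t : ZMod p) + (((v 0 : ℤ) : ZMod p) + ((v 1 : ℤ) : ZMod p) * (t : ZMod p))
      ring
    have hdev : ∀ v : Fin 2 → ℤ, devN a β v p = (fun w : Fin 2 → ZMod p =>
        (1 / (p : ℝ)) * ∑ t : ZMod p, (φ t (βp t + lin p (fun _ : Fin 1 => t) w) - av (φ t)))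
        (fun j => ((v j : ℤ) : ZMod p)) := by
      intro v
      show _ = (1 / (p : ℝ)) * ∑ t : ZMod p, (φ t (βp t + lin p (fun _ : Fin 1 => t) (fun j => ((v j : ℤ) : ZMod p))) - av (φ t))
      unfold devN
      rw [e1, e2, sum_sub_distrib]
      ring
    obtain ⟨m1, m2⟩ := mom4 p φ βp
    refine ⟨?_, ?_, ?_⟩
    · intro v v' hv
      show devN a β v p = devN a β v' p
      rw [hdev, hdev]
      have : (fun j => ((v j : ℤ) : ZMod p)) = fun j => ((v' j : ℤ) : ZMod p) := by
        funext j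
        rw [← sub_eq_zero, ← Int.cast_sub]
        exact (ZMod.intCast_zmod_eq_zero_iff_dvd _ p).2 (hv j)
      rw [this]
    · rw [meanV_av 2 p _ (fun w : Fin 2 → ZMod p =>
        (1 / (p : ℝ)) * ∑ t : ZMod p, (φ t (βp t + lin p (fun _ : Fin 1 => t) w) - av (φ t))) hdev, av_mul, m1, mul_zero]
    · have hdev2 : ∀ v : Fin 2 → ℤ, devN a β v p ^ 2 = (fun w : Fin 2 → ZMod p =>
          (1 / (p : ℝ) ^ 2) * (∑ t : ZMod p, (φ t (βp t + lin p (fun _ : Fin 1 => t) w) - av (φ t))) ^ 2)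
          (fun j => ((v j : ℤ) : ZMod p)) := by
        intro v
        rw [hdev v]
        show ((1 / (p : ℝ)) * _) ^ 2 = _
        rw [mul_pow, div_pow, one_pow]
      rw [meanV_av 2 p _ (fun w : Fin 2 → ZMod p =>
          (1 / (p : ℝ) ^ 2) * (∑ t : ZMod p, (φ t (βp t + lin p (fun _ : Fin 1 => t) w) - av (φ t))) ^ 2) hdev2, av_mul]
      have h3 : ∑ t : ZMod p, av (fun z => φ t z ^ 2) ≤ (4 * (n : ℝ) ^ 2 + D + 4) * (p : ℝ) ^ 2 := by
        have e3 : ∑ t : ZMod p, av (fun z => φ t z ^ 2) = (∑ q : ZMod p × ZMod p, φ q.1 q.2 ^ 2) / p := by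
          unfold av
          rw [← sum_div, ZMod.card, Fintype.sum_prod_type]
        rw [e3, div_le_iff₀ hp0]
        have hle : ∀ t z, φ t z ^ 2 ≤ (p : ℝ) ^ 2 := by
          intro t z
          rw [hφ, ← sq_abs]
          exact pow_le_pow_left₀ (abs_nonneg _) (trZ_le p _) 2
        rcases Nat.lt_or_ge 2 p with h3 | h3
        · have h4 : ∀ q ∈ (univ : Finset (ZMod p × ZMod p)), φ q.1 q.2 ^ 2 ≤ 4 * (n : ℝ) ^ 2 * p +
              (if IsSq (cfZ a p q.1 q.2) then (p : ℝ) ^ 2 else 0) := by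
            intro q _
            by_cases hq : IsSq (cfZ a p q.1 q.2)
            · rw [if_pos hq]
              have := hle q.1 q.2
              have h5 : 0 ≤ 4 * (n : ℝ) ^ 2 * p := by positivity
              linarith
            · rw [if_neg hq, add_zero, hφ]
              exact trZ_weil p h3 _ hq
          refine (sum_le_sum h4).trans ?_
          rw [sum_add_distrib, sum_const, card_univ, Fintype.card_prod, ZMod.card, nsmul_eq_mul, ← sum_filter, sum_const,
            nsmul_eq_mul]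
          have h5 : ((((univ : Finset (ZMod p × ZMod p)).filter (fun q => IsSq (cfZ a p q.1 q.2))).card : ℕ) : ℝ) ≤ D * p := by
            have h6 := h p hp h3
            rw [Nat.card_eq_fintype_card, Fintype.card_subtype] at h6
            refine le_trans (le_of_eq ?_) (by exact_mod_cast h6 : ((((univ : Finset (ZMod p × ZMod p)).filter (fun q =>
              ∃ (c : ZMod p) (h : Polynomial (ZMod p)), ∑ i : Fin (n + 1), Polynomial.C (cfZ a p q.1 q.2 i) *
              Polynomial.X ^ (i : ℕ) = Polynomial.C c * h ^ 2)).card : ℕ) : ℝ) ≤ D * p)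
            congr 2
            ext q
            simp only [mem_filter, mem_univ, true_and]
            exact Iff.rfl
          have h7 := mul_le_mul_of_nonneg_right h5 (by positivity : (0 : ℝ) ≤ (p : ℝ) ^ 2)
          push_cast
          nlinarith [pow_pos hp0 3]
        · have hp2 : p = 2 := le_antisymm h3 hp.two_le
          refine (sum_le_sum fun q _ => hle q.1 q.2).trans ?_
          rw [sum_const, card_univ, Fintype.card_prod, ZMod.card, nsmul_eq_mul]
          have h7 : (p : ℝ) = 2 := by rw [hp2]; norm_num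
          push_cast
          rw [h7]
          have h8 : (0 : ℝ) ≤ (n : ℝ) ^ 2 := sq_nonneg _
          have h9 : (0 : ℝ) ≤ D := Nat.cast_nonneg _
          nlinarith
      have h6 := m2.trans h3
      rw [one_div, inv_mul_le_iff₀ (by positivity)]
      linarith
  exact ⟨fun p hp => (key p hp).1, fun p hp => (key p hp).2.1, fun p hp => (key p hp).2.2⟩

theorem mainN (b : ℕ) (hb : 2 ≤ b) (η : ℝ) (hη : 0 < η) (δ : ℝ) (hδ : 0 < δ) (hδ1 : δ ≤ 1 / 2) : ∃ W : ℕ, 1 ≤ W ∧
    ∀ κ : Fin 2 → ℤ, (∀ j, κ j ≠ 0) → ∀ n D : ℕ, ∃ (C : ℝ) (X₀ : ℕ), 0 < C ∧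
    ∀ a : Fin (n + 1) → MvPolynomial (Fin 2) ℤ, FewSq D a → ∀ (β : Polynomial ℤ) (k X : ℕ), X₀ ≤ X →
    ∀ (c : Fin 2 → ℤ) (u : Fin 2 → ℕ → ℕ → ℝ), (∀ j, Dist b k η (u j)) →
    PrV b k u (fun g => ¬ CloseT δ X W (b ^ k) (devN a β (fun j => c j + κ j * (dval b (g j) : ℕ)))) ≤
      C * (X : ℝ) ^ (-δ) := by
  obtain ⟨W, hW, H⟩ := allT b hb η hη δ hδ hδ1
  refine ⟨W, hW, fun κ hκ n D => ?_⟩
  obtain ⟨C, X₀, hC, H2⟩ := H 2 κ hκ (4 * (n : ℝ) ^ 2 + D + 4) (by positivity)
  refine ⟨C, X₀, hC, fun a ha β k X hX c u hu => ?_⟩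
  exact H2 (fun p v => devN a β v p) (hyp_devN D a ha β) k X hX c u hu

end Pool.Agent.R318.TT
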