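import Pool.Agent.R318.TT.K

/-! # Nagao's averages for elliptic curves -/

set_option autoImplicit false

namespace Pool.Agent.R318.TT

open Finset Filter Pool.Agent.R459.Eq Pool.Agent.R318.ST Pool.Agent.R318.PR Pool.Agent.R318.LP
open Pool.Agent.R318.SU (IsSq chi)

/-- the coefficients of `x ^ 3 + A x + B` -/
noncomputable def cubic (A B : MvPolynomial (Fin 2) ℤ) : Fin (3 + 1) → MvPolynomial (Fin 2) ℤ := ![B, A, 0, 1]

lemma fewSq_cubic (A B : MvPolynomial (Fin 2) ℤ) : FewSq 0 (cubic A B) := by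
  intro p hp h3
  have hF : Fact p.Prime := ⟨hp⟩
  rw [zero_mul, Nat.le_zero, Finite.card_eq_zero_iff]
  constructor
  rintro ⟨q, c, h, he⟩
  obtain ⟨w, hw⟩ : ∃ w : Fin (3 + 1) → ZMod p, w = cfZ (cubic A B) p q.1 q.2 := ⟨_, rfl⟩
  rw [← hw] at he
  have hw3 : w 3 = 1 := by
    rw [hw]
    show MvPolynomial.eval₂ (Int.castRingHom (ZMod p)) ![q.1, q.2] (1 : MvPolynomial (Fin 2) ℤ) = 1
    exact MvPolynomial.eval₂_one _ _
  have hd : (∑ i : Fin (3 + 1), Polynomial.C (w i) * Polynomial.X ^ (i : ℕ)).natDegree = 3 := by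
    apply Polynomial.natDegree_eq_of_le_of_coeff_ne_zero
    · apply Polynomial.natDegree_sum_le_of_forall_le
      intro i _
      refine (Polynomial.natDegree_C_mul_X_pow_le _ _).trans ?_
      have := i.2
      omega
    · have h1 : (∑ i : Fin (3 + 1), Polynomial.C (w i) * Polynomial.X ^ (i : ℕ)).coeff 3 = w 3 := by
        have := coeff_evp (K := ZMod p) w 3
        unfold evp at this
        exact this
      rw [h1, hw3]
      exact one_ne_zero
  rw [he] at hd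
  rcases eq_or_ne c 0 with h0 | h0
  · rw [h0] at hd
    simp at hd
  · rw [Polynomial.natDegree_C_mul h0, Polynomial.natDegree_pow] at hd
    omega

lemma eval_first (A : Polynomial ℤ) (t z : ℤ) :
    MvPolynomial.eval ![t, z] (Polynomial.aeval (MvPolynomial.X 0 : MvPolynomial (Fin 2) ℤ) A) = A.eval t := by
  induction A using Polynomial.induction_on' with
  | add p q hp hq => rw [map_add, map_add, hp, hq, Polynomial.eval_add]
  | monomial n a =>
    rw [Polynomial.aeval_monomial, map_mul, map_pow, MvPolynomial.eval_X, Polynomial.eval_monomial]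
    congr 1
    simp

/-- the average over the plane is zero if `A` is a polynomial in `T` and `B = Z` -/
theorem nag2_zero (A : Polynomial ℤ) (p : ℕ) (hp : p.Prime) :
    nag2 (cubic (Polynomial.aeval (MvPolynomial.X 0) A) (MvPolynomial.X 1)) p = 0 := by
  classical
  have hF : Fact p.Prime := ⟨hp⟩
  unfold nag2
  rw [mul_eq_zero]
  right
  apply sum_eq_zero
  intro t _
  rw [mul_eq_zero]
  right
  obtain ⟨s, hs⟩ : ∃ s : ZMod p, s = ((A.eval (t : ℤ) : ℤ) : ZMod p) := ⟨_, rfl⟩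
  have h1 : ∀ z ∈ range p, trF (fun i => MvPolynomial.eval ![(t : ℤ), (z : ℤ)]
      (cubic (Polynomial.aeval (MvPolynomial.X 0) A) (MvPolynomial.X 1) i)) p =
      (p : ℝ) - ∑ q : ZMod p × ZMod p, if ((z : ℕ) : ZMod p) = q.2 ^ 2 - s * q.1 - q.1 ^ 3 then (1 : ℝ) else 0 := by
    intro z _
    rw [trF_eq p]
    unfold trZ
    congr 1
    rw [card_filter]
    push_cast
    apply sum_congr rfl
    intro q _
    have e : ∑ i : Fin (3 + 1), ((MvPolynomial.eval ![(t : ℤ), (z : ℤ)]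
        (cubic (Polynomial.aeval (MvPolynomial.X 0) A) (MvPolynomial.X 1) i) : ℤ) : ZMod p) * q.1 ^ (i : ℕ) =
        ((z : ℕ) : ZMod p) + s * q.1 + q.1 ^ 3 := by
      rw [Fin.sum_univ_four]
      have e0 : MvPolynomial.eval ![(t : ℤ), (z : ℤ)] (cubic (Polynomial.aeval (MvPolynomial.X 0) A) (MvPolynomial.X 1) 0) = z := by
        show MvPolynomial.eval ![(t : ℤ), (z : ℤ)] (MvPolynomial.X 1) = z
        rw [MvPolynomial.eval_X]
        rfl
      have e1 : MvPolynomial.eval ![(t : ℤ), (z : ℤ)] (cubic (Polynomial.aeval (MvPolynomial.X 0) A) (MvPolynomial.X 1) 1) =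
          A.eval (t : ℤ) := eval_first A t z
      have e2 : MvPolynomial.eval ![(t : ℤ), (z : ℤ)] (cubic (Polynomial.aeval (MvPolynomial.X 0) A) (MvPolynomial.X 1) 2) = 0 := by
        show MvPolynomial.eval ![(t : ℤ), (z : ℤ)] 0 = 0
        exact map_zero _
      have e3 : MvPolynomial.eval ![(t : ℤ), (z : ℤ)] (cubic (Polynomial.aeval (MvPolynomial.X 0) A) (MvPolynomial.X 1) 3) = 1 := by
        show MvPolynomial.eval ![(t : ℤ), (z : ℤ)] 1 = 1
        exact map_one _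
      rw [e0, e1, e2, e3, ← hs]
      push_cast
      have v1 : ((1 : Fin (3 + 1)) : ℕ) = 1 := rfl
      have v0 : ((0 : Fin (3 + 1)) : ℕ) = 0 := rfl
      have v3 : ((3 : Fin (3 + 1)) : ℕ) = 3 := rfl
      rw [v0, v1, v3]
      ring
    rw [e]
    by_cases hq : q.2 ^ 2 = ((z : ℕ) : ZMod p) + s * q.1 + q.1 ^ 3
    · rw [if_pos hq, if_pos (by rw [hq]; ring)]
    · rw [if_neg hq, if_neg (fun h => hq (by rw [h]; ring))]
  rw [sum_congr rfl h1, sum_sub_distrib, sum_const, card_range, nsmul_eq_mul, sum_comm]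
  have h2 : ∀ q ∈ (univ : Finset (ZMod p × ZMod p)), (∑ z ∈ range p,
      if ((z : ℕ) : ZMod p) = q.2 ^ 2 - s * q.1 - q.1 ^ 3 then (1 : ℝ) else 0) = 1 := by
    intro q _
    rw [sum_rangeZ p (fun z : ZMod p => if z = q.2 ^ 2 - s * q.1 - q.1 ^ 3 then (1 : ℝ) else 0), sum_ite_eq',
      if_pos (mem_univ _)]
  rw [sum_congr rfl h2, sum_const, card_univ, Fintype.card_prod, ZMod.card, nsmul_eq_mul]
  push_cast
  ring

theorem mainE (b : ℕ) (hb : 2 ≤ b) (η : ℝ) (hη : 0 < η) (δ : ℝ) (hδ : 0 < δ) (hδ1 : δ ≤ 1 / 2) : ∃ W : ℕ, 1 ≤ W ∧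
    ∀ κ : Fin 2 → ℤ, (∀ j, κ j ≠ 0) → ∃ (C : ℝ) (X₀ : ℕ), 0 < C ∧
    ∀ (A B : MvPolynomial (Fin 2) ℤ) (β : Polynomial ℤ) (k X : ℕ), X₀ ≤ X →
    ∀ (c : Fin 2 → ℤ) (u : Fin 2 → ℕ → ℕ → ℝ), (∀ j, Dist b k η (u j)) →
    PrV b k u (fun g => ¬ CloseT δ X W (b ^ k) (devN (cubic A B) β (fun j => c j + κ j * (dval b (g j) : ℕ)))) ≤
      C * (X : ℝ) ^ (-δ) := by
  obtain ⟨W, hW, H⟩ := mainN b hb η hη δ hδ hδ1
  refine ⟨W, hW, fun κ hκ => ?_⟩
  obtain ⟨C, X₀, hC, H2⟩ := H κ hκ 3 0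
  exact ⟨C, X₀, hC, fun A B β k X hX c u hu => H2 (cubic A B) (fewSq_cubic A B) β k X hX c u hu⟩

end Pool.Agent.R318.TT
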